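import Pool.Agent.Lib.MP_aa40d3_nt.MG.Stmt
import Pool.Agent.Lib.MP_aa40d3_nt.MR.PrimT

/-! Invariant subalgebras of the monodromy group give subsystems. -/

open Polynomial Matrix Set Filter Topology
open scoped Matrix.Norms.Operator

namespace Pool.Agent.GR

variable {n r : ℕ} [NeZero r]

/-- The first part of the proof of `primT_of_prim`. -/
theorem primW_onto {t : Fin n → ℂ} {g : Fin n → (Mat r)ˣ} {D : ℕ} (hD : 0 < D)
    (hζ : ∀ a, (g a).val ^ D = 1) {U : Set ℂ} {x₀ : ℂ} (hx₀ : x₀ ∈ U) (hne : ∀ i, x₀ ≠ t i)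
    {Y : ℂ → Mat r} (hY0 : Y x₀ = 1) (he : ExtProp t g U Y) {Z : Submodule ℂ (Mat r)}
    (hZ : ∀ γ ∈ Subgroup.closure (Set.range g), ∀ x ∈ Z, γ.val * x * (γ⁻¹).val ∈ Z)
    {z₀ : Mat r} (hz₀ : z₀ ∈ Z) :
    ∃ Φ ∈ primW U Y Z, ∃ c : ℂ, c ≠ 0 ∧ Φ.map (eval x₀) = c • z₀ := by
  obtain ⟨Q, hQ1, hQ2⟩ := mono_proj (Z.map (vecL r))
  have hQ : Q * Q = Q := by
    refine Matrix.ext_iff_mulVec.2 fun v => ?_
    rw [← mulVec_mulVec, hQ2 _ (hQ1 v)]
  have hV : ∀ a, ∀ v ∈ Z.map (vecL r), adM (g a).val *ᵥ v ∈ Z.map (vecL r) := by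
    rintro a _ ⟨x, hx, rfl⟩
    refine ⟨(g a).val * x * (g a).val.adjugate, ?_, (adM_mulVec _ x).symm⟩
    have e : (g a).val.adjugate = (g a).val.det • ((g a)⁻¹).val := by
      rw [← one_mul (g a).val.adjugate, ← (g a).inv_mul, Matrix.mul_assoc, mul_adjugate,
        mul_smul_comm, mul_one]
    rw [e, mul_smul_comm]
    exact Z.smul_mem _ (hZ _ (Subgroup.subset_closure ⟨a, rfl⟩) x hx)
  have hg : ∀ a, Q * adM (g a).val * Q = adM (g a).val * Q := fun a => by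
    refine Matrix.ext_iff_mulVec.2 fun v => ?_
    rw [← mulVec_mulVec, ← mulVec_mulVec, ← mulVec_mulVec, hQ2 _ (hV a _ (hQ1 v))]
  have hd : ∀ a, (Q * adM (g a).val * Q + (1 - Q)).det ^ D = 1 := fun a =>
    mono_deth2 hQ (hg a) (by rw [adM_pow, hζ, adM_one])
  obtain ⟨m, q, hq⟩ := mono_unif (ι := Fin (r * r)) (U := U) (dl t)
    (fun p x => (monoP Q D (adM (Y x)) *ᵥ vecM z₀) p) fun p =>
      he _ (primt_P Q D (vecM z₀) p) fun M a => by
        rw [Units.val_mul, adM_mul, mono_P_inv hD hQ (hg a) (hd a)]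
  let Φ : Matrix (Fin r) (Fin r) ℂ[X] := Matrix.of fun a b => q (finProdFinEquiv (a, b))
  have hΦ : Φ ∈ primW U Y Z := by
    intro x hx
    obtain ⟨z, hz, e⟩ := hQ1 ((adM (Y x) * Q + (1 - Q)).adjugate *ᵥ vecM z₀)
    have e' : vecM z = Q *ᵥ ((adM (Y x) * Q + (1 - Q)).adjugate *ᵥ vecM z₀) := e
    refine ⟨((dl t).eval x ^ m * (adM (Y x) * Q + (1 - Q)).det ^ (D - 1) * (Y x).det) • z,
      Z.smul_mem _ hz, ?_⟩
    have e2 : Φ.map (eval x) = ((dl t).eval x ^ m * (adM (Y x) * Q + (1 - Q)).det ^ (D - 1)) •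
        (Y x * z * (Y x).adjugate) := by
      ext a b
      change (q (finProdFinEquiv (a, b))).eval x = _
      rw [← hq _ x hx, monoP, smul_mulVec, ← mulVec_mulVec,
        ← mulVec_mulVec, ← e', adM_mulVec, Pi.smul_apply, vecM_apply, Matrix.smul_apply,
        smul_eq_mul, smul_eq_mul, ← mul_assoc]
    rw [e2, smul_mul_assoc, Matrix.mul_assoc, adjugate_mul, mul_smul_comm, mul_one, smul_smul,
      mul_smul_comm]
  refine ⟨Φ, hΦ, (dl t).eval x₀ ^ m, pow_ne_zero m (mono_dl_ne t hne), ?_⟩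
  ext a b
  have h1 := hq (finProdFinEquiv (a, b)) x₀ hx₀
  have e2 : monoP Q D (adM (Y x₀)) = Q := by simp [monoP, hY0, adM_one]
  rw [e2, hQ2 (vecM z₀) ⟨z₀, hz₀, rfl⟩, vecM_apply] at h1
  exact h1.symm

/-- `primW` of a subalgebra is closed under products and contains the scalars; it is stable by
`primt_stable`. Saturation: `y ↦ (Y y)⁻¹ * Φ y * Y y` is continuous on `U` with values in the closed
set `Z` off the roots of `f`. -/
theorem exists_subEnd {t : Fin n → ℂ} {A : Fin n → Mat r} {U : Set ℂ} (hU : IsOpen U)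
    {Y : ℂ → Mat r} (hY : ∀ x ∈ U, (∀ i, x ≠ t i) ∧ (Y x).det ≠ 0 ∧
      HasDerivAt Y (sys t A x * Y x) x) (Z : Subalgebra ℂ (Mat r)) :
    ∃ W : Subalgebra ℂ[X] (Matrix (Fin r) (Fin r) ℂ[X]), SubEnd t A W ∧
      ∀ Φ, Φ ∈ W ↔ Φ ∈ primW U Y (Subalgebra.toSubmodule Z) := by
  have hu : ∀ y ∈ U, IsUnit (Y y) := fun y hy =>
    (Matrix.isUnit_iff_isUnit_det _).2 (hY y hy).2.1.isUnit
  have h1 : (1 : Matrix (Fin r) (Fin r) ℂ[X]) ∈ primW U Y (Subalgebra.toSubmodule Z) := by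
    intro x _
    refine ⟨1, Z.one_mem, ?_⟩
    rw [Matrix.map_one _ eval_zero eval_one, one_mul, mul_one]
  have hm : ∀ Φ Ψ : Matrix (Fin r) (Fin r) ℂ[X], Φ ∈ primW U Y (Subalgebra.toSubmodule Z) →
      Ψ ∈ primW U Y (Subalgebra.toSubmodule Z) →
      Φ * Ψ ∈ primW U Y (Subalgebra.toSubmodule Z) := by
    intro Φ Ψ hΦ hΨ x hx
    obtain ⟨z, hz, e⟩ := hΦ x hx
    obtain ⟨z', hz', e'⟩ := hΨ x hx
    refine ⟨z * z', Z.mul_mem hz hz', ?_⟩
    have : (Φ * Ψ).map (eval x) = Φ.map (eval x) * Ψ.map (eval x) := by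
      ext a b
      simp [Matrix.mul_apply, eval_finsetSum]
    rw [this, Matrix.mul_assoc, e', ← Matrix.mul_assoc, e, Matrix.mul_assoc]
  refine ⟨(primW U Y (Subalgebra.toSubmodule Z)).toSubalgebra h1 hm,
    ⟨fun Φ hΦ => primt_stable hU hY _ Φ hΦ, fun f Φ hf hΦ => ?_⟩, fun Φ => Iff.rfl⟩
  intro x hx
  set z : ℂ → Mat r := fun y => Ring.inverse (Y y) * (Φ.map (eval y) * Y y) with hz
  have hd := (hY x hx).2.2
  have h2 : HasDerivAt (fun y => (Φ.map (eval y) : Mat r)) ((Φ.map derivative).map (eval x)) x :=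
    hasDerivAt_mat.2 fun a b => (Φ a b).hasDerivAt x
  have h3 : ContinuousAt z x :=
    ((hd.differentiableAt.inverse (hu x hx)).mul
      (h2.differentiableAt.mul hd.differentiableAt)).continuousAt
  have h4 : ∀ᶠ y in 𝓝[≠] x, f.eval y ≠ 0 := by
    have := (finite_setOfPred_isRoot hf).compl_mem_cofinite
    exact nhdsNE_le_cofinite x this
  have h5 : ∀ᶠ y in 𝓝[≠] x, z y ∈ (Subalgebra.toSubmodule Z : Set (Mat r)) := by
    filter_upwards [h4, mem_nhdsWithin_of_mem_nhds (hU.mem_nhds hx)] with y hy hyU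
    obtain ⟨w, hw, e⟩ := hΦ y hyU
    have e1 : (f • Φ).map (eval y) = f.eval y • Φ.map (eval y) := by
      ext a b
      simp
    have e2 : Φ.map (eval y) * Y y = Y y * ((f.eval y)⁻¹ • w) := by
      rw [mul_smul_comm, ← e, e1, smul_mul_assoc, smul_smul, inv_mul_cancel₀ hy, one_smul]
    simp only [hz]
    rw [e2, Ring.inverse_mul_cancel_left _ _ (hu y hyU)]
    exact Submodule.smul_mem _ _ hw
  refine ⟨z x, (Subalgebra.toSubmodule Z).closed_of_finiteDimensional.mem_of_tendsto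
    (h3.tendsto.mono_left nhdsWithin_le_nhds) h5, ?_⟩
  simp only [hz]
  rw [Ring.mul_inverse_cancel_left _ _ (hu x hx)]

end Pool.Agent.GR
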