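import Pool.Agent.Lib.MP_aa40d3_nt.MG.Defs

/-! Finiteness criteria. -/

open Matrix

namespace Pool.Agent.GR

variable {s : ℕ} {G : Type} [Group G] {σ : G →* Mt s}

theorem burn_mem (σ : G →* Mt s) {H : Subgroup G} {x : G} (hx : x ∈ H) : σ x ∈ spR σ H :=
  Submodule.subset_span ⟨x, hx, rfl⟩

theorem burn_mono (σ : G →* Mt s) {H K : Subgroup G} (h : H ≤ K) : spR σ H ≤ spR σ K :=
  Submodule.span_mono (Set.image_mono h)

/-- The span of the image of a subgroup is a subalgebra. -/
theorem spR_alg (σ : G →* Mt s) (H : Subgroup G) :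
    ∃ B : Subalgebra ℂ (Mt s), ∀ x, x ∈ B ↔ x ∈ spR σ H := by
  refine ⟨(spR σ H).toSubalgebra ?_ ?_, fun x => Iff.rfl⟩
  · rw [← map_one σ]
    exact burn_mem σ H.one_mem
  · intro x y hx hy
    induction hx, hy using Submodule.span_induction₂ with
    | mem_mem x y hx hy =>
      obtain ⟨a, ha, rfl⟩ := hx
      obtain ⟨b, hb, rfl⟩ := hy
      rw [← map_mul]
      exact burn_mem σ (H.mul_mem ha hb)
    | zero_left y _ => rw [zero_mul]; exact zero_mem _
    | zero_right x _ => rw [mul_zero]; exact zero_mem _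
    | add_left x y z _ _ _ h1 h2 => rw [add_mul]; exact add_mem h1 h2
    | add_right x y z _ _ _ h1 h2 => rw [mul_add]; exact add_mem h1 h2
    | smul_left r x y _ _ h => rw [smul_mul_assoc]; exact Submodule.smul_mem _ r h
    | smul_right r x y _ _ h => rw [mul_smul_comm]; exact Submodule.smul_mem _ r h

theorem spR_inv (N : Subgroup G) [N.Normal] (γ : G) {x : Mt s} (hx : x ∈ spR σ N) :
    σ γ * x * σ γ⁻¹ ∈ spR σ N := by
  induction hx using Submodule.span_induction with
  | mem x hx =>
    obtain ⟨a, ha, rfl⟩ := hx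
    rw [← map_mul, ← map_mul]
    exact burn_mem σ (Subgroup.Normal.conj_mem inferInstance a ha γ)
  | zero => rw [mul_zero, zero_mul]; exact zero_mem _
  | add x y _ _ h1 h2 => rw [mul_add, add_mul]; exact add_mem h1 h2
  | smul r x _ h => rw [mul_smul_comm, smul_mul_assoc]; exact Submodule.smul_mem _ r h

theorem spR_comm {H : Subgroup G} {y : Mt s} (h : ∀ γ ∈ H, σ γ * y = y * σ γ) {x : Mt s}
    (hx : x ∈ spR σ H) : x * y = y * x := by
  induction hx using Submodule.span_induction with
  | mem x hx =>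
    obtain ⟨a, ha, rfl⟩ := hx
    exact h a ha
  | zero => rw [mul_zero, zero_mul]
  | add x z _ _ h1 h2 => rw [mul_add, add_mul, h1, h2]
  | smul r x _ h1 => rw [mul_smul_comm, smul_mul_assoc, h1]

/-- The subalgebra of `spR_alg` is invariant and not scalar. -/
theorem spR_top (hS : SimpR σ) (N : Subgroup G) [N.Normal] (hN : ∃ x ∈ N, ¬ Scl (σ x)) :
    spR σ N = ⊤ := by
  obtain ⟨B, hB⟩ := spR_alg σ N
  obtain ⟨x, hx, hx'⟩ := hN
  rcases hS B (fun γ y hy => (hB _).2 (spR_inv N γ ((hB _).1 hy))) with h | h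
  · exact absurd (h _ ((hB _).2 (burn_mem σ hx))) hx'
  · exact eq_top_iff.2 fun y _ => (hB y).1 (h.ge Algebra.mem_top)

/-- Burnside: take a finite subset `y k` of `H` whose image spans; `x ↦ (tr (σ (x * y k)))` is
injective on `H` (the trace form is nondegenerate) with values in a finite set. -/
theorem finite_of_tracesR (hi : Function.Injective σ) (H : Subgroup G) (hH : spR σ H = ⊤)
    {T : Set ℂ} (hT : T.Finite) (h : ∀ x ∈ H, (σ x).trace ∈ T) : Finite H := by
  obtain ⟨b, hb, hsp, hli⟩ := exists_linearIndependent ℂ (σ '' (H : Set G))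
  have : Finite b := hli.setFinite
  have : Finite T := hT
  have hm : ∀ (x : H) (m : b), (σ x * (m : Mt s)).trace ∈ T := fun x m => by
    obtain ⟨y, hy, e⟩ := hb m.2
    rw [← e, ← map_mul]
    exact h _ (H.mul_mem x.2 hy)
  refine Finite.of_injective (fun (x : H) (m : b) => (⟨_, hm x m⟩ : T)) fun x x' e => ?_
  refine Subtype.ext (hi (Matrix.ext_iff_trace_mul_right.2 fun m => ?_))
  have hm' : m ∈ Submodule.span ℂ b := by
    rw [hsp]
    exact hH.ge Submodule.mem_top
  induction hm' using Submodule.span_induction with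
  | mem m hm' => exact congrArg Subtype.val (congrFun e ⟨m, hm'⟩)
  | zero => simp
  | add u v _ _ hu hv => rw [Matrix.mul_add, Matrix.mul_add, trace_add, trace_add, hu, hv]
  | smul c u _ hu => rw [Matrix.mul_smul, Matrix.mul_smul, trace_smul, trace_smul, hu]

/-- `σ x = c • 1` with `c ^ (s * E) = 1`. -/
theorem finite_of_scl [NeZero s] (hi : Function.Injective σ) {E : ℕ} (hE : 0 < E)
    (hd : ∀ x, (σ x).det ^ E = 1) (H : Subgroup G) (hH : ∀ x ∈ H, Scl (σ x)) : Finite H := by
  classical
  choose c hc using fun x : H => hH x x.2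
  have hm : ∀ x, c x ∈ (Polynomial.nthRoots (s * E) (1 : ℂ)).toFinset := fun x => by
    rw [Multiset.mem_toFinset, Polynomial.mem_nthRoots (Nat.mul_pos (NeZero.pos s) hE), pow_mul,
      ← hd x, hc x, det_smul, det_one, mul_one, Fintype.card_fin]
  refine Finite.of_injective
    (fun x : H => (⟨c x, hm x⟩ : (Polynomial.nthRoots (s * E) (1 : ℂ)).toFinset)) fun x x' e => ?_
  refine Subtype.ext (hi ?_)
  rw [hc x, hc x', show c x = c x' from congrArg Subtype.val e]

/-- The centraliser of `N` has finite index (kernel of `MulAut.conjNormal`); its elements commute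
with `spR σ N = ⊤`, so they are scalar; `finite_of_scl`. -/
theorem finite_of_normal [NeZero s] (hi : Function.Injective σ) (hd : ∀ x, (σ x).det = 1)
    (hS : SimpR σ) (N : Subgroup G) [N.Normal] [Finite N] (hN : ∃ x ∈ N, ¬ Scl (σ x)) :
    Finite G := by
  refine (MulAut.conjNormal : G →* MulAut N).finite_iff_finite_ker_range.2 ⟨?_, inferInstance⟩
  refine finite_of_scl hi one_pos (fun x => by rw [hd, one_pow]) _ fun g hg => ?_
  have h1 : ∀ γ ∈ N, σ γ * σ g = σ g * σ γ := fun γ hγ => by
    have h2 := congrArg Subtype.val (DFunLike.congr_fun (MonoidHom.mem_ker.1 hg) ⟨γ, hγ⟩)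
    rw [MulAut.conjNormal_apply] at h2
    rw [← map_mul, ← map_mul, mul_inv_eq_iff_eq_mul.1 h2]
    rfl
  obtain ⟨c, hc⟩ := (Matrix.mem_range_scalar_iff_commute_single' (M := σ g)).2 fun i j =>
    spR_comm h1 ((spR_top hS N hN).ge Submodule.mem_top)
  exact ⟨c, by rw [← hc, scalar_apply, smul_one_eq_diagonal]⟩

/-- Take `H` of finite index with `finrank (spR σ H)` minimal and compare with `H ⊓ H'`; then
replace `H` by its normal core. -/
theorem exists_coreR (σ : G →* Mt s) : ∃ H : Subgroup G, H.Normal ∧ H.FiniteIndex ∧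
    ∀ H' : Subgroup G, H'.FiniteIndex → spR σ H ≤ spR σ H' := by
  classical
  have hex : ∃ k : ℕ, ∃ H : Subgroup G, H.FiniteIndex ∧ Module.finrank ℂ (spR σ H) = k :=
    ⟨_, ⊤, inferInstance, rfl⟩
  obtain ⟨H, hH, hk⟩ := Nat.find_spec hex
  refine ⟨H.normalCore, inferInstance, inferInstance, fun H' hH' => ?_⟩
  have h1 : spR σ (H ⊓ H') = spR σ H := by
    refine Submodule.eq_of_le_of_finrank_le (burn_mono σ inf_le_left) ?_
    rw [hk]
    exact Nat.find_min' hex ⟨H ⊓ H', inferInstance, rfl⟩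
  exact (burn_mono σ H.normalCore_le).trans (h1.ge.trans (burn_mono σ inf_le_right))

end Pool.Agent.GR
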