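import Pool.Agent.Lib.MP_aa40d3_nt.MG.Defs

/-! Congruence subgroups. -/

open Polynomial Matrix

namespace Pool.Agent.GR

variable {s : ℕ} {G : Type} [Group G]

theorem cong_jac : IsJacobsonRing ℤ := by
  rw [isJacobsonRing_iff_prime_eq]
  intro P hP
  by_cases h : P = ⊥
  · subst h
    refine eq_bot_iff.2 fun x hx => ?_
    have h0 : x = 0 := by
      rcases Int.isUnit_iff.1 (Ideal.mem_jacobson_bot.1 hx x) with h | h <;> nlinarith
    simp [h0]
  · have : P.IsMaximal := Ring.DimensionLEOne.maximalOfPrime h hP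
    exact Ideal.jacobson_eq_self_of_isMaximal

theorem cong_fin (F : Type) [Field F] [Algebra ℤ F] [Algebra.FiniteType ℤ F] :
    ∃ p : ℕ, p.Prime ∧ (p : F) = 0 ∧ Finite F := by
  have := cong_jac
  have := finite_of_finite_type_of_isJacobsonRing ℤ F
  obtain ⟨p, hp⟩ := CharP.exists F
  rcases CharP.char_is_prime_or_zero F p with h | rfl
  · refine ⟨p, h, CharP.cast_eq_zero F p, @Module.finite_of_fg_torsion F _ (_) this fun x =>
      ⟨⟨p, mem_nonZeroDivisors_of_ne_zero (Nat.cast_ne_zero.2 h.ne_zero)⟩, ?_⟩⟩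
    exact (Algebra.smul_def (p : ℤ) x).trans (by rw [map_natCast, CharP.cast_eq_zero, zero_mul])
  · have := CharP.charP_to_charZero F
    exact absurd (isField_of_isIntegral_of_isField (algebraMap ℤ F).injective_int
      (Field.toIsField F)) Int.not_isField

theorem cong_val {T : Set ℂ} (hT : T.Finite) : ∃ (p : ℕ) (V : ValuationSubring ℂ) (A : Subring ℂ)
    (I : Ideal A), p.Prime ∧ T ⊆ A ∧ (∀ a ∈ A, V.valuation a ≤ 1) ∧ V.valuation p < 1 ∧
      Finite (A ⧸ I) ∧ ∀ a ∈ I, V.valuation a < 1 := by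
  have : Algebra.FiniteType ℤ (Algebra.adjoin ℤ T).toSubring :=
    Algebra.FiniteType.adjoin_of_finite hT
  obtain ⟨I, hI⟩ := Ideal.exists_maximal (Algebra.adjoin ℤ T).toSubring
  let := Ideal.Quotient.field I
  obtain ⟨p, h1, h2, h3⟩ := cong_fin (_ ⧸ I)
  obtain ⟨V, h4, h5⟩ := I.image_subset_nonunits_valuationSubring hI.ne_top
  have h6 : ∀ a ∈ I, V.valuation a < 1 := fun a ha => V.mem_nonunits_iff.1 (h5 ⟨a, ha, rfl⟩)
  refine ⟨p, V, _, I, h1, Algebra.subset_adjoin, fun a ha => (V.valuation_le_one_iff a).2 (h4 ha),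
    ?_, h3, h6⟩
  simpa using h6 p (Ideal.Quotient.eq_zero_iff_mem.1 (by simpa using h2))

theorem cong_ker (ρ : G →* Mt s) {V : ValuationSubring ℂ} {A : Subring ℂ} {I : Ideal A}
    [Finite (A ⧸ I)] (hI : ∀ a ∈ I, V.valuation a < 1) (h : ∀ x i j, ρ x i j ∈ A) :
    ∃ H : Subgroup G, H.Normal ∧ H.FiniteIndex ∧
      ∀ x ∈ H, ∀ i j, V.valuation ((ρ x - 1) i j) < 1 := by
  have hi : Function.Injective A.subtype.mapMatrix (β := Mt s) :=
    Matrix.map_injective A.subtype_injective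
  let f : G → Matrix (Fin s) (Fin s) A := fun x => Matrix.of fun i j => ⟨ρ x i j, h x i j⟩
  have hf : ∀ x, A.subtype.mapMatrix (f x) = ρ x := fun _ => rfl
  let ρ' : G →* Matrix (Fin s) (Fin s) A := ⟨⟨f, hi (by rw [hf, map_one, map_one])⟩,
    fun x y => hi (by rw [map_mul, hf, hf, hf, map_mul])⟩
  let φ := ((Ideal.Quotient.mk I).mapMatrix.toMonoidHom.comp ρ').toHomUnits
  refine ⟨φ.ker, inferInstance, inferInstance, fun x hx i j => ?_⟩
  have h1 : (Ideal.Quotient.mk I).mapMatrix (f x) = 1 := congrArg Units.val hx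
  rw [← sub_eq_zero, ← map_one (Ideal.Quotient.mk I).mapMatrix, ← map_sub] at h1
  rw [← hf, ← map_one A.subtype.mapMatrix, ← map_sub]
  exact hI _ (Ideal.Quotient.eq_zero_iff_mem.1 (congrFun (congrFun h1 i) j))

theorem cong_eig {V : ValuationSubring ℂ} {y : Mt s} (h : ∀ i j, V.valuation ((y - 1) i j) < 1)
    {μ : ℂ} (hμ : (μ • (1 : Mt s) - y).det = 0) : V.valuation (μ - 1) < 1 := by
  obtain ⟨v, hv, h1⟩ := Matrix.exists_mulVec_eq_zero_iff.2 hμ
  obtain ⟨k, hk⟩ := Function.ne_iff.1 hv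
  have : Nonempty (Fin s) := ⟨k⟩
  obtain ⟨i, hi⟩ := Finite.exists_max fun i => V.valuation (v i)
  have h2 : 0 < V.valuation (v i) :=
    (zero_lt_iff.2 ((Valuation.ne_zero_iff _).2 hk)).trans_le (hi k)
  have h3 : (μ - 1) * v i = ∑ j, (y - 1) i j * v j := by
    have h4 := congrFun h1 i
    change _ = ((y - 1) *ᵥ v) i
    simp only [Matrix.sub_mulVec, Matrix.smul_mulVec, Matrix.one_mulVec, Pi.sub_apply,
      Pi.smul_apply, smul_eq_mul, Pi.zero_apply] at h4 ⊢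
    linear_combination h4
  refine lt_one_of_mul_lt_left (b := V.valuation (v i)) ?_
  rw [← map_mul, h3]
  refine Valuation.map_sum_lt _ h2.ne' fun j _ => ?_
  rw [map_mul]
  exact (mul_le_mul_right (hi j) _).trans_lt (mul_lt_of_lt_one_left h2 (h i j))

/-- Let `A = Algebra.adjoin ℤ` of `m⁻¹` and the entries of `σ a`, `σ a⁻¹` (`a` in a finite
generating set) and their images under `τ`; all entries of `σ x` and their images under `τ` lie in `A` (closure induction). Take a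
maximal ideal `𝔪` of `A`; `A ⧸ 𝔪` is a finite field (`finite_of_finite_type_of_isJacobsonRing`; a
field that is finite over `ℤ` is finite), `p` its characteristic, `¬ p ∣ m` as `m` is a unit.
`H` is the kernel of the reduction `x ↦ (σ x, τ (σ x))` modulo `𝔪` (`MonoidHom.toHomUnits`,
`Subgroup.finiteIndex_ker`). Let `𝔫` be a prime of the integral closure `Ā` of `A` in `ℂ` over `𝔪`
(`Ideal.exists_ideal_over_maximal_of_isIntegral`) and `U = {z ∈ Ā | z - 1 ∈ 𝔫}`. If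
`z ^ m' = w ^ m'` then `(z - w) * ∑ z ^ i * w ^ (m' - 1 - i) = 0` and the sum is `m'` modulo `𝔫`,
so it is not zero. An eigenvalue `μ` of a matrix `y` over `A` with `y = 1` modulo `𝔪` is a root of
the monic `charpoly y`, so `μ ∈ Ā`, and modulo `𝔫` we get `(μ - 1) ^ s = 0`. For `τ μ` use
`Matrix.charpoly_map`. -/
theorem exists_cong [Group.FG G] (σ : G →* Mt s) (τ : ℂ →+* ℂ) {m : ℕ} (hm : 0 < m) :
    ∃ (p : ℕ) (U : Submonoid ℂ) (H : Subgroup G), p.Prime ∧ ¬ p ∣ m ∧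
      (∀ m' : ℕ, ¬ p ∣ m' → ∀ z ∈ U, ∀ w ∈ U, z ^ m' = w ^ m' → z = w) ∧ H.Normal ∧
      H.FiniteIndex ∧ ∀ x ∈ H, ∀ μ ∈ spectrum ℂ (σ x), μ ∈ U ∧ τ μ ∈ U := by
  obtain ⟨S, hS, hS'⟩ := Monoid.fg_iff.1 (Group.fg_iff_monoid_fg.1 ‹_›)
  let σ' : G →* Mt s := τ.mapMatrix.toMonoidHom.comp σ
  have hfin : ∀ ρ : G →* Mt s, (Set.image2 (fun x (q : Fin s × Fin s) => ρ x q.1 q.2) S
    Set.univ).Finite := fun ρ => hS'.image2 _ Set.finite_univ
  obtain ⟨p, V, A, I, hp, hT, hA, hV, hfi, hI⟩ :=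
    cong_val (((hfin σ).union (hfin σ')).insert (m : ℂ)⁻¹)
  have hmem : ∀ ρ : G →* Mt s, (∀ x ∈ S, ∀ i j, ρ x i j ∈ A) → ∀ x i j, ρ x i j ∈ A := by
    intro ρ h x
    have hx : x ∈ Submonoid.closure S := hS ▸ Submonoid.mem_top x
    induction hx using Submonoid.closure_induction with
    | mem x hx => exact h x hx
    | one =>
      intro i j
      rw [map_one, Matrix.one_apply]
      split_ifs
      exacts [one_mem _, zero_mem _]
    | mul x y _ _ hx hy =>
      intro i j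
      rw [map_mul, Matrix.mul_apply]
      exact sum_mem fun k _ => mul_mem (hx i k) (hy k j)
  obtain ⟨H, a1, a2, a3⟩ := cong_ker σ hI
    (hmem σ fun x hx i j => hT (Or.inr (Or.inl ⟨x, hx, (i, j), trivial, rfl⟩)))
  obtain ⟨H', b1, b2, b3⟩ := cong_ker σ' hI
    (hmem σ' fun x hx i j => hT (Or.inr (Or.inr ⟨x, hx, (i, j), trivial, rfl⟩)))
  have hint : ∀ (k : ℤ) (z : ℂ), V.valuation z < 1 → V.valuation (k * z) < 1 := fun k z hz => by
    rw [map_mul]
    exact (mul_le_of_le_one_left' (hA k (intCast_mem A k))).trans_lt hz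
  let U : Submonoid ℂ :=
    { carrier := {z | V.valuation (z - 1) < 1}
      one_mem' := by simp
      mul_mem' := fun {z w} (hz : _ < _) (hw : _ < _) => by
        change V.valuation _ < 1
        rw [show z * w - 1 = (z - 1) * (w - 1) + ((z - 1) + (w - 1)) by ring]
        refine V.valuation.map_add_lt ?_ (V.valuation.map_add_lt hz hw)
        rw [map_mul]
        exact (mul_le_of_le_one_left' hz.le).trans_lt hw }
  refine ⟨p, U, H ⊓ H', hp, ?_, fun m' hm' z hz w hw e => ?_, inferInstance, inferInstance,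
    fun x hx μ hμ => ?_⟩
  · rintro ⟨k, rfl⟩
    have h1 := hA _ (hT (Set.mem_insert _ _))
    rw [map_inv₀, inv_le_one₀ (zero_lt_iff.2 ((Valuation.ne_zero_iff _).2
      (Nat.cast_ne_zero.2 hm.ne')))] at h1
    exact h1.not_gt (by simpa [mul_comm] using hint k p hV)
  · by_contra hne
    have h1 := geom_sum₂_mul z w m'
    rw [e, sub_self, mul_eq_zero_iff_right (sub_ne_zero.2 hne)] at h1
    have h2 : V.valuation (∑ i ∈ Finset.range m', (z ^ i * w ^ (m' - 1 - i) - 1)) < 1 :=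
      Valuation.map_sum_lt _ one_ne_zero fun i _ => U.mul_mem (pow_mem hz _) (pow_mem hw _)
    rw [Finset.sum_sub_distrib, h1, zero_sub, Valuation.map_neg, Finset.sum_const,
      Finset.card_range, nsmul_one] at h2
    obtain ⟨a, b, h3⟩ := Nat.isCoprime_iff_coprime.2 (hp.coprime_iff_not_dvd.2 hm')
    have h4 : (a : ℂ) * p + b * m' = 1 := by exact_mod_cast h3
    simpa [h4] using V.valuation.map_add_lt (hint a p hV) (hint b m' h2)
  · rw [spectrum.mem_iff, Matrix.isUnit_iff_isUnit_det, isUnit_iff_ne_zero, not_not,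
      Algebra.algebraMap_eq_smul_one] at hμ
    refine ⟨cong_eig (a3 x hx.1) hμ, cong_eig (b3 x hx.2) ?_⟩
    rw [← map_zero τ, ← hμ, RingHom.map_det]
    congr 1
    ext i j
    simp [σ', Matrix.one_apply, apply_ite τ]

/-- Use `exists_cong` with `m = 1` (prime `p`, index `e`) and with `m = p` (prime `q ≠ p`, index
`e'`). `x ^ e ∈ H` (`Subgroup.pow_index_mem`), so `μ ^ e ∈ U` (`spectrum.pow_mem_pow`); write the
order of `μ ^ e` as `p ^ a * m'`: `(μ ^ e) ^ p ^ a = 1`. In the same way `(μ ^ e') ^ q ^ b = 1`, so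
`μ ^ (e * e') = 1`. -/
theorem exists_expo [Group.FG G] (σ : G →* Mt s) :
    ∃ E : ℕ, 0 < E ∧ ∀ x, ∀ μ ∈ spectrum ℂ (σ x), IsOfFinOrder μ → μ ^ E = 1 := by
  have key : ∀ m : ℕ, 0 < m → ∃ p e : ℕ, p.Prime ∧ ¬ p ∣ m ∧ 0 < e ∧
      ∀ x, ∀ μ ∈ spectrum ℂ (σ x), IsOfFinOrder μ → ∃ a : ℕ, (μ ^ e) ^ p ^ a = 1 := fun m hm => by
    obtain ⟨p, U, H, hp, h1, h2, _, _, h3⟩ := exists_cong σ (RingHom.id ℂ) hm
    refine ⟨p, H.index, hp, h1, Nat.pos_of_ne_zero Subgroup.FiniteIndex.index_ne_zero,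
      fun x μ hμ ho => ?_⟩
    have h4 := (h3 _ (H.pow_index_mem x) _
      (by rw [map_pow]; exact spectrum.pow_mem_pow _ _ hμ)).1
    obtain ⟨a, m', h5, h6⟩ :=
      Nat.exists_eq_pow_mul_and_not_dvd (ho.pow (n := H.index)).orderOf_pos.ne' p hp.ne_one
    exact ⟨a, h2 m' h5 _ (U.pow_mem h4 _) 1 U.one_mem
      (by rw [← pow_mul, ← h6, pow_orderOf_eq_one, one_pow])⟩
  obtain ⟨p, e, hp, -, he, h1⟩ := key 1 one_pos
  obtain ⟨q, f, hq, hpq, hf, h2⟩ := key p hp.pos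
  refine ⟨e * f, mul_pos he hf, fun x μ hμ ho => ?_⟩
  obtain ⟨a, ha⟩ := h1 x μ hμ ho
  obtain ⟨b, hb⟩ := h2 x μ hμ ho
  refine (pow_eq_one_iff_of_coprime
    (Nat.Coprime.pow b a ((Nat.Prime.coprime_iff_not_dvd hq).2 hpq))).1 ⟨?_, ?_⟩
  · rw [mul_comm, pow_mul, pow_right_comm, hb, one_pow]
  · rw [pow_mul, pow_right_comm, ha, one_pow]

end Pool.Agent.GR
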