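import Pool.Agent.Lib.MP_aa40d3_nt.MG.Defs

/-! The eigenvalues of the adjoint action. -/

open Matrix

namespace Pool.Agent.GR

variable {s : ℕ} {G : Type} [Group G] {σ : G →* Mt s}

/-- Write `σ' x = (σ x).map τ`. Take a basis `σ (y k)` of the matrices with `y k ∈ H` and let `θ` be
linear with `θ (σ (y k)) = σ' (y k)`. As `tr (σ' x * σ' y) = τ (tr (σ (x * y))) = tr (σ x * σ y)`
on `H`, `θ` preserves the trace form, so it is injective, hence bijective, and
`θ (σ x) = σ' x` for all `x ∈ H` (pair with the `σ' (y k)`, which span). So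
`θ (σ c * b * σ c⁻¹) = σ' c * θ b * σ' c⁻¹` for all `b` (true on `σ '' H`, `H` normal). If
`σ c * b * σ c⁻¹ = δ • b` then `σ' c * b.map τ * σ' c⁻¹ = τ δ • b.map τ`; take `θ⁻¹ (b.map τ)`. -/
theorem adS_map (H : Subgroup G) [H.Normal] (hH : spR σ H = ⊤) (τ : ℂ →+* ℂ)
    (h : ∀ x ∈ H, τ (σ x).trace = (σ x).trace) (c : G) {δ : ℂ} (hδ : δ ∈ AdS σ c) :
    τ δ ∈ AdS σ c := by
  let W : Submodule ℂ (Mt s × Mt s) :=
    Submodule.span ℂ ((fun x => (σ x, (σ x).map τ)) '' (H : Set G))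
  have h1 : ∀ x ∈ H, ∀ p ∈ W, (p.2 * (σ x).map τ).trace = (p.1 * σ x).trace := by
    intro x hx p hp
    induction hp using Submodule.span_induction with
    | mem p hp =>
      obtain ⟨y, hy, rfl⟩ := hp
      rw [← Matrix.map_mul, ← map_mul, ← AddMonoidHom.map_trace, h _ (H.mul_mem hy hx)]
    | zero => simp
    | add p q _ _ hp hq => simp only [Prod.fst_add, Prod.snd_add, add_mul, trace_add, hp, hq]
    | smul a p _ hp => simp only [Prod.smul_fst, Prod.smul_snd, smul_mul_assoc, trace_smul, hp]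
  have h2 : ∀ p ∈ W, p.2 = 0 → p.1 = 0 := by
    intro p hp h0
    refine Matrix.ext_iff_trace_mul_right.2 fun b => ?_
    have hb : b ∈ spR σ H := hH ▸ Submodule.mem_top
    induction hb using Submodule.span_induction with
    | mem b hb =>
      obtain ⟨x, hx, rfl⟩ := hb
      rw [← h1 x hx p hp, h0, zero_mul, zero_mul]
    | zero => simp
    | add a b _ _ ha hb => simp only [mul_add, trace_add, ha, hb]
    | smul a b _ hb => simp only [mul_smul_comm, trace_smul, hb]
  have h3 : ∀ p ∈ W, (σ c * p.1 * σ c⁻¹, (σ c).map τ * p.2 * (σ c⁻¹).map τ) ∈ W := by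
    intro p hp
    induction hp using Submodule.span_induction with
    | mem p hp =>
      obtain ⟨y, hy, rfl⟩ := hp
      refine Submodule.subset_span ⟨c * y * c⁻¹, ‹H.Normal›.conj_mem y hy c, ?_⟩
      simp only [map_mul, Matrix.map_mul]
    | zero =>
      simp only [Prod.fst_zero, Prod.snd_zero, mul_zero, zero_mul]
      exact W.zero_mem
    | add p q _ _ hp hq =>
      simp only [Prod.fst_add, Prod.snd_add, mul_add, add_mul]
      exact W.add_mem hp hq
    | smul a p _ hp =>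
      simp only [Prod.smul_fst, Prod.smul_snd, mul_smul_comm, smul_mul_assoc]
      exact W.smul_mem a hp
  have f1 : Function.Surjective ((LinearMap.fst ℂ _ _).comp W.subtype) := by
    rw [← LinearMap.range_eq_top, LinearMap.range_comp, Submodule.range_subtype, Submodule.map_span,
      Set.image_image]
    exact hH
  have f2 : Function.Injective ((LinearMap.snd ℂ _ _).comp W.subtype) :=
    (injective_iff_map_eq_zero _).2 fun p hp => Subtype.ext (Prod.ext (h2 _ p.2 hp) hp)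
  have hd := le_antisymm (LinearMap.finrank_le_finrank_of_injective f2)
    (LinearMap.finrank_le_finrank_of_surjective f1)
  obtain ⟨b, hb, hb'⟩ := hδ
  obtain ⟨p, hp⟩ := (LinearMap.injective_iff_surjective_of_finrank_eq_finrank hd).1 f2 (b.map τ)
  have hp' : p.1.2 = b.map τ := hp
  refine ⟨p.1.1, fun h0 => hb ?_,
    sub_eq_zero.1 (h2 _ (W.sub_mem (h3 _ p.2) (W.smul_mem (τ δ) p.2)) ?_)⟩
  · have h4 : p = 0 := (injective_iff_map_eq_zero _).1
      ((LinearMap.injective_iff_surjective_of_finrank_eq_finrank hd).2 f1) p h0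
    rw [h4] at hp'
    ext i j
    exact τ.injective ((congrFun (congrFun hp' i) j).symm.trans τ.map_zero.symm)
  · show _ - τ δ • p.1.2 = 0
    rw [hp', ← Matrix.map_mul, ← Matrix.map_mul, hb', sub_eq_zero]
    ext i j
    simp

/-- The members of `AdS σ c` are eigenvalues of an endomorphism of a space of dimension `s * s`
(roots of its characteristic polynomial, or `Module.End.eigenvectors_linearIndependent`). -/
theorem adS_card (σ : G →* Mt s) (c : G) (T : Finset ℂ) (hT : ∀ δ ∈ T, δ ∈ AdS σ c) :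
    T.card ≤ s * s := by
  choose b h0 hb using hT
  have h := Module.End.eigenvectors_linearIndependent'
    (LinearMap.mulRight ℂ (σ c⁻¹) ∘ₗ LinearMap.mulLeft ℂ (σ c)) (fun δ : T => δ.1)
    Subtype.val_injective (fun δ => b δ.1 δ.2)
    fun δ => ⟨Module.End.mem_eigenspace_iff.2 (hb δ.1 δ.2), h0 δ.1 δ.2⟩
  simpa [Module.finrank_matrix] using h.fintype_card_le_finrank

/-- Take `v ≠ 0` with `σ c *ᵥ v = μ • v` and `w ≠ 0` with `w ᵥ* σ c = ν • w`
(`Matrix.exists_mulVec_eq_zero_iff`, `Matrix.exists_vecMul_eq_zero_iff`); `ν ≠ 0` as `σ c` is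
invertible; `b = vecMulVec v w`. -/
theorem adS_ratio (σ : G →* Mt s) (c : G) {μ ν : ℂ} (hμ : μ ∈ spectrum ℂ (σ c))
    (hν : ν ∈ spectrum ℂ (σ c)) : ν ≠ 0 ∧ μ / ν ∈ AdS σ c := by
  have key : ∀ a ∈ spectrum ℂ (σ c), (a • (1 : Mt s) - σ c).det = 0 := fun a ha => by
    rwa [spectrum.mem_iff, Matrix.isUnit_iff_isUnit_det, isUnit_iff_ne_zero, not_not,
      Algebra.algebraMap_eq_smul_one] at ha
  obtain ⟨v, hv, h1⟩ := Matrix.exists_mulVec_eq_zero_iff.2 (key μ hμ)
  obtain ⟨w, hw, h2⟩ := Matrix.exists_vecMul_eq_zero_iff.2 (key ν hν)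
  rw [Matrix.sub_mulVec, Matrix.smul_mulVec, Matrix.one_mulVec, sub_eq_zero] at h1
  rw [Matrix.vecMul_sub, Matrix.vecMul_smul, Matrix.vecMul_one, sub_eq_zero] at h2
  have h3 : ν • w ᵥ* σ c⁻¹ = w := by
    rw [← Matrix.smul_vecMul, h2, Matrix.vecMul_vecMul, rep_mul_inv, Matrix.vecMul_one]
  have h0 : ν ≠ 0 := fun h => hw (by rw [← h3, h, zero_smul])
  refine ⟨h0, vecMulVec v w, Matrix.vecMulVec_ne_zero hv hw, ?_⟩
  rw [Matrix.mul_vecMulVec, Matrix.vecMulVec_mul, ← h1, (eq_inv_smul_iff₀ h0).2 h3,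
    Matrix.smul_vecMulVec, Matrix.vecMulVec_smul, smul_smul, div_eq_mul_inv]

end Pool.Agent.GR
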