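import Pool.Agent.Lib.MP_aa40d3_nt.MG.Eig
import Pool.Agent.Lib.MP_aa40d3_nt.MG.Cong
import Pool.Agent.Lib.MP_aa40d3_nt.MG.Burn
import Pool.Agent.Lib.MP_aa40d3_nt.MG.Theta

/-! The unramified and the ramified case. -/

open Matrix

namespace Pool.Agent.GR

variable {s : ℕ} {G : Type} [Group G] [Group.FG G] {σ : G →* Mt s}

theorem cases_finOrd {ι : Type} [Finite ι] (τ : ℂ →+* ℂ)
    (hτ : ∀ z : ℂ, (Set.range fun k : ℕ => τ^[k] z).Finite) {l : ℕ} (hl : 2 ≤ l) (w : ι → ℂ)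
    (hw : ∀ i, ∃ j, τ (w j) = w i ^ l) (i : ι) (hi : w i ≠ 0) : IsOfFinOrder (w i) := by
  have h1 : ∀ k : ℕ, ∃ j, τ^[k] (w j) = w i ^ l ^ k := by
    intro k
    induction k with
    | zero => exact ⟨i, by simp⟩
    | succ k ih =>
      obtain ⟨j, hj⟩ := ih
      obtain ⟨j', hj'⟩ := hw j
      refine ⟨j', ?_⟩
      rw [Function.iterate_succ_apply, hj', iterate_map_pow, hj, ← pow_mul, pow_succ]
  have h2 : (⋃ j, Set.range fun k : ℕ => τ^[k] (w j)).Finite :=
    Set.finite_iUnion fun j => hτ (w j)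
  have h3 : ∀ k : ℕ, w i ^ l ^ k ∈ ⋃ j, Set.range fun k : ℕ => τ^[k] (w j) := by
    intro k
    obtain ⟨j, hj⟩ := h1 k
    exact Set.mem_iUnion.mpr ⟨j, k, hj⟩
  obtain ⟨k, k', hlt, he⟩ := h2.exists_lt_map_eq_of_forall_mem h3
  have h4 : l ^ k < l ^ k' := Nat.pow_lt_pow_right hl hlt
  refine isOfFinOrder_iff_pow_eq_one.mpr ⟨l ^ k' - l ^ k, Nat.sub_pos_of_lt h4, ?_⟩
  have h5 : w i ^ l ^ k * w i ^ (l ^ k' - l ^ k) = w i ^ l ^ k * 1 := by
    rw [← pow_add, Nat.add_sub_cancel' h4.le, mul_one, he]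
  exact mul_left_cancel₀ (pow_ne_zero _ hi) h5

/-- Let `x ∈ N` with eigenvalues `v i` (`exists_eig`) and `w i = v i ^ a`. Apply `h` to `x ^ m`:
`∑ (τ (w i)) ^ m = ∑ (w i ^ l) ^ m`, so each `w i ^ l` is some `τ (w j)` (`psum_mem`), and by
induction `w i ^ l ^ k` is some `τ^[k] (w j)`. These lie in a finite set, `v i ≠ 0` (determinant
one), so `v i` has finite order and `v i ^ E = 1` (`exists_expo`). The traces on `N` lie in a
finite set; `spR_top`, `finite_of_tracesR`, `finite_of_normal`. -/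
theorem caseU [NeZero s] (hi : Function.Injective σ) (hd : ∀ x, (σ x).det = 1) (hS : SimpR σ)
    (τ : ℂ →+* ℂ) (hτ : ∀ z : ℂ, (Set.range fun k : ℕ => τ^[k] z).Finite) {a l : ℕ} (ha : 0 < a)
    (hl : 2 ≤ l)
    (N : Subgroup G) [N.Normal] (hN : ∃ x ∈ N, ¬ Scl (σ x))
    (h : ∀ x ∈ N, τ (σ x ^ a).trace = (σ x ^ (a * l)).trace) : Finite G := by
  obtain ⟨E, hE, hexp⟩ := exists_expo σ
  have key : ∀ x ∈ N, ∃ v : Fin s → ℂ, (σ x).trace = ∑ i, v i ∧ ∀ i, v i ^ E = 1 := by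
    intro x hx
    obtain ⟨v, hv, hdet, hsp⟩ := exists_eig (σ x)
    refine ⟨v, by simpa using hv 1, fun i => hexp x (v i) (hsp i) ?_⟩
    have h1 : ∀ m : ℕ, ∑ i, (τ (v i ^ a)) ^ m = ∑ i, ((v i ^ a) ^ l) ^ m := by
      intro m
      have h2 := h (x ^ m) (N.pow_mem hx m)
      rw [map_pow, ← pow_mul, ← pow_mul, hv, hv, map_sum] at h2
      simp only [← map_pow, ← pow_mul]
      rw [mul_comm a m, mul_assoc a l m, show a * (l * m) = m * (a * l) by ring]
      exact h2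
    have hne : v i ≠ 0 := by
      have h3 : ∏ j, v j ≠ 0 := by
        rw [← hdet, hd]
        exact one_ne_zero
      exact Finset.prod_ne_zero_iff.mp h3 i (Finset.mem_univ i)
    have h4 := cases_finOrd τ hτ hl (fun j => v j ^ a) (psum_mem h1) i (pow_ne_zero a hne)
    exact h4.of_pow ha.ne'
  have hT : ((fun v : Fin s → ℂ => ∑ i, v i) ''
      (Set.pi Set.univ fun _ : Fin s => {z : ℂ | z ^ E = 1})).Finite := by
    refine Set.Finite.image _ (Set.Finite.pi fun _ => ?_)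
    refine (Polynomial.nthRootsFinset E (1 : ℂ)).finite_toSet.subset fun z hz => ?_
    exact (Polynomial.mem_nthRootsFinset hE 1).mpr hz
  have hfin : Finite N := by
    refine finite_of_tracesR hi N (spR_top hS N hN) hT fun x hx => ?_
    obtain ⟨v, h1, h2⟩ := key x hx
    exact ⟨v, fun i _ => h2 i, h1.symm⟩
  exact finite_of_normal hi hd hS N hN

/-- Take `p, U, H` from `exists_cong` with `m = l`. For `x ∈ N ⊓ H` with eigenvalues `v i`:
`∑ (τ (v i) ^ l) ^ m = ∑ (v i ^ l) ^ m`; `psum` with a function `φ` such that `φ (z ^ l) = z` on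
`U` gives `τ (tr x) = tr x`. If `N ⊓ H` is scalar it is finite (`finite_of_scl`), so `N` is finite
(finite index) and `G` is finite (`finite_of_normal`). Otherwise `spR_top` and `adS_map`. -/
theorem caseR [NeZero s] (hi : Function.Injective σ) (hd : ∀ x, (σ x).det = 1) (hS : SimpR σ)
    (τ : ℂ →+* ℂ) {l : ℕ} (hl : 0 < l)
    (N : Subgroup G) [N.Normal] (hN : ∃ x ∈ N, ¬ Scl (σ x))
    (h : ∀ x ∈ N, τ (σ x ^ l).trace = (σ x ^ l).trace) (hG : ¬ Finite G) (c : G) {δ : ℂ}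
    (hδ : δ ∈ AdS σ c) : τ δ ∈ AdS σ c := by
  obtain ⟨p, U, H, -, hpl, hU, hHn, hHf, hH⟩ := exists_cong σ τ hl
  have htr : ∀ x ∈ N ⊓ H, τ (σ x).trace = (σ x).trace := by
    intro x hx
    obtain ⟨v, hv, -, hsp⟩ := exists_eig (σ x)
    have hinv : ∀ z ∈ U, Function.invFunOn (fun z : ℂ => z ^ l) U (z ^ l) = z := fun z hz =>
      Set.InjOn.leftInvOn_invFunOn (f := fun z : ℂ => z ^ l) (fun z hz w hw => hU l hpl z hz w hw) hz
    have h1 := psum (a := fun i => τ (v i) ^ l) (b := fun i => v i ^ l) (fun m => by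
      have h2 := h _ (pow_mem hx.1 m)
      rw [map_pow, ← pow_mul, hv, map_sum] at h2
      simpa only [map_pow, ← pow_mul, mul_comm l] using h2)
      (Function.invFunOn (fun z : ℂ => z ^ l) U)
    rw [Finset.sum_congr rfl fun i _ => hinv _ (hH x hx.2 _ (hsp i)).2,
      Finset.sum_congr rfl fun i _ => hinv _ (hH x hx.2 _ (hsp i)).1] at h1
    have h3 := hv 1
    simp only [pow_one] at h3
    rw [h3, map_sum, h1]
  by_cases hs : ∃ x ∈ N ⊓ H, ¬ Scl (σ x)
  · exact adS_map (N ⊓ H) (spR_top hS _ hs) τ htr c hδ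
  push Not at hs
  have h4 : Finite (H.subgroupOf N) :=
    finite_of_scl (σ := σ.comp N.subtype) (hi.comp Subtype.val_injective) one_pos
      (fun x => (pow_one _).trans (hd x)) _ fun x hx => hs x ⟨x.2, hx⟩
  have : Finite N := (Subgroup.finite_iff_finite_and_finiteIndex _).2 ⟨h4, inferInstance⟩
  exact absurd (finite_of_normal hi hd hS N hN) hG

end Pool.Agent.GR
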