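import Pool.Agent.Lib.MP_aa40d3_nt.MG.Tau
import Pool.Agent.Lib.MP_aa40d3_nt.MG.Cases

/-! The arithmetic step for simple representations of determinant one. -/

open Matrix

namespace Pool.Agent.GR

theorem abs_trace {s : ℕ} (x : Mt s) (τ : ℂ →+* ℂ) {b l : ℕ}
    (h : ∀ μ ∈ spectrum ℂ x, τ (μ ^ b) = μ ^ l) : τ (x ^ b).trace = (x ^ l).trace := by
  obtain ⟨v, h1, -, h3⟩ := exists_eig x
  rw [h1, h1, map_sum]
  exact Finset.sum_congr rfl fun i _ => h _ (h3 i)

theorem abs_card {l M : ℕ} (hl : l.Prime) :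
    l ≤ ((Finset.range l).filter fun j => ¬ l ∣ 1 + j * M).card + 1 := by
  have h1 := Finset.card_filter_add_card_filter_not (s := Finset.range l) fun j => l ∣ 1 + j * M
  have h2 : ((Finset.range l).filter fun j => l ∣ 1 + j * M).card ≤ 1 := by
    have key : ∀ i j : ℕ, i ≤ j → j < l → l ∣ 1 + i * M → l ∣ 1 + j * M → i = j := by
      intro i j hij hj hi' hj'
      obtain ⟨k, rfl⟩ := Nat.exists_eq_add_of_le hij
      have h3 : l ∣ k * M := by
        rw [add_mul, ← add_assoc] at hj'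
        exact (Nat.dvd_add_right hi').1 hj'
      rcases (Nat.Prime.dvd_mul hl).1 h3 with h4 | h4
      · have := Nat.eq_zero_of_dvd_of_lt h4 (by omega)
        omega
      · exact absurd (Nat.dvd_one.1 ((Nat.dvd_add_left (h4.mul_left i)).1 hi')) hl.ne_one
    refine Finset.card_le_one.2 fun i hi j hj => ?_
    rw [Finset.mem_filter, Finset.mem_range] at hi hj
    rcases le_total i j with h3 | h3
    · exact key i j h3 hj.1 hi.2 hj.2
    · exact (key j i h3 hi.1 hj.2 hi.2).symm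
  rw [Finset.card_range] at h1
  omega

/-- All eigenvalues of the `σ x`, `x ∈ L`, are killed by the exponent of `exists_expo`; let `N₀` be
the least positive exponent that kills them. If `¬ l ∣ N₀` take `τ` from `exists_tau` with `t = l`,
`b = 1`, and use `caseU`. If `N₀ = l * M` there are `c ∈ L` and an eigenvalue `μ` with `μ ^ M ≠ 1`,
and then an eigenvalue `ν` with `(μ / ν) ^ M ≠ 1` (otherwise `μ ^ (M * s) = det ^ M = 1`, and `s` is
prime to `l`); `δ = μ / ν ∈ AdS σ c`, and `δ ^ M` has order `l`. For `j < l` with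
`¬ l ∣ 1 + j * M` (all but at most one) take `τ` with `t = 1 + j * M`, `b = l`; `caseR` gives
`δ ^ t ∈ AdS σ c`. These are at least `l - 1 > s * s` numbers, against `adS_card`. -/
theorem finite_abs {s : ℕ} [NeZero s] {G : Type} [Group G] [Group.FG G] {σ : G →* Mt s}
    (hi : Function.Injective σ) (hd : ∀ x, (σ x).det = 1) (hS : SimpR σ) {l : ℕ} (hl : l.Prime)
    (hsl : s * s + 1 < l) (L : Set G) (hL : ∀ x ∈ L, IsOfFinOrder x)
    (h : ∀ (τ : ℂ →+* ℂ) (b : ℕ), b = 1 ∨ b = l →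
      (∀ x ∈ L, τ (σ x ^ b).trace = (σ x ^ l).trace) →
      ∃ N : Subgroup G, N.Normal ∧ (∃ x ∈ N, ¬ Scl (σ x)) ∧ ∃ a : ℕ, 0 < a ∧
        ∀ x ∈ N, τ (σ x ^ (a * b)).trace = (σ x ^ (a * l)).trace) : Finite G := by
  classical
  have hex : ∃ N : ℕ, 0 < N ∧ ∀ x ∈ L, ∀ μ ∈ spectrum ℂ (σ x), μ ^ N = 1 := by
    obtain ⟨E, hE, h1⟩ := exists_expo σ
    refine ⟨E, hE, fun x hx μ hμ => h1 x μ hμ ?_⟩
    obtain ⟨m, hm, h2⟩ := isOfFinOrder_iff_pow_eq_one.1 (hL x hx)
    exact isOfFinOrder_iff_pow_eq_one.2 ⟨m, hm, eig_pow_one (by rw [← map_pow, h2, map_one]) hμ⟩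
  obtain ⟨hN0, hN1⟩ := Nat.find_spec hex
  have hmin := fun m => Nat.find_min hex (m := m)
  generalize Nat.find hex = N₀ at hN0 hN1 hmin
  by_cases hdv : l ∣ N₀
  swap
  · obtain ⟨τ, hτ1, hτ2⟩ := exists_tau hN0 ((Nat.Prime.coprime_iff_not_dvd hl).2 hdv)
    obtain ⟨N, hN, hs, a, ha, h1⟩ := h τ 1 (Or.inl rfl) fun x hx =>
      abs_trace _ τ fun μ hμ => by rw [pow_one, hτ1 μ (hN1 x hx μ hμ)]
    refine caseU hi hd hS τ hτ2 ha hl.two_le N hs fun x hx => ?_
    have h2 := h1 x hx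
    rwa [mul_one] at h2
  obtain ⟨M, rfl⟩ := hdv
  have : Fact l.Prime := ⟨hl⟩
  have hM : 0 < M := Nat.pos_of_mul_pos_left hN0
  have h1 := hmin M (lt_mul_left hM hl.one_lt)
  push Not at h1
  obtain ⟨c, hc, μ, hμ, hμM⟩ := h1 hM
  have hν : ∃ ν ∈ spectrum ℂ (σ c), (μ / ν) ^ M ≠ 1 := by
    by_contra hcon
    push Not at hcon
    obtain ⟨v, -, h2, h3⟩ := exists_eig (σ c)
    have h4 : ∀ i, v i ^ M = μ ^ M := fun i => by
      have h5 := hcon _ (h3 i)
      rw [div_pow, div_eq_one_iff_eq (pow_ne_zero M (adS_ratio σ c hμ (h3 i)).1)] at h5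
      exact h5.symm
    have h5 : (μ ^ M) ^ s = 1 := by
      have h6 : (∏ i, v i) ^ M = 1 := by rw [← h2, hd, one_pow]
      rw [← Finset.prod_pow, Finset.prod_congr rfl fun i _ => h4 i, Finset.prod_const,
        Finset.card_univ, Fintype.card_fin] at h6
      exact h6
    have h6 : (μ ^ M) ^ l = 1 := by rw [← pow_mul, mul_comm, hN1 c hc μ hμ]
    have hs0 : 0 < s := Nat.pos_of_ne_zero (NeZero.ne s)
    have hs1 : s < l := by nlinarith
    have h7 : Nat.Coprime l s :=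
      (Nat.Prime.coprime_iff_not_dvd hl).2 fun h8 => absurd (Nat.le_of_dvd hs0 h8) (not_le.2 hs1)
    exact hμM (orderOf_eq_one_iff.1 (Nat.eq_one_of_dvd_coprimes h7
      (orderOf_dvd_of_pow_eq_one h6) (orderOf_dvd_of_pow_eq_one h5)))
  obtain ⟨ν, hν, hδM⟩ := hν
  have hδ := (adS_ratio σ c hμ hν).2
  have hδN : (μ / ν) ^ (l * M) = 1 := by rw [div_pow, hN1 c hc μ hμ, hN1 c hc ν hν, div_one]
  generalize μ / ν = δ at hδM hδ hδN
  have hδ0 : δ ≠ 0 := by
    rintro rfl
    rw [zero_pow hN0.ne'] at hδN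
    exact zero_ne_one hδN
  have hord : orderOf (δ ^ M) = l := orderOf_eq_prime (by rw [← pow_mul, mul_comm, hδN]) hδM
  by_contra hG
  have h2 := adS_card σ c (((Finset.range l).filter fun j => ¬ l ∣ 1 + j * M).image
    fun j => δ ^ (1 + j * M)) fun z hz => by
      obtain ⟨j, hj, rfl⟩ := Finset.mem_image.1 hz
      have hco : Nat.Coprime (1 + j * M) (l * M) :=
        Nat.Coprime.mul_right ((Nat.Prime.coprime_iff_not_dvd hl).2 (Finset.mem_filter.1 hj).2).symm
          (by simp)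
      obtain ⟨τ, hτ1, -⟩ := exists_tau hN0 hco
      obtain ⟨N, hN, hs, a, ha, h3⟩ := h τ l (Or.inr rfl) fun x hx =>
        abs_trace _ τ fun w hw => by
          have h4 := hN1 x hx w hw
          rw [map_pow, hτ1 w h4, ← pow_mul, show (1 + j * M) * l = l + l * M * j by ring, pow_add,
            pow_mul w (l * M), h4, one_pow, mul_one]
      rw [← hτ1 δ hδN]
      exact caseR hi hd hS τ (Nat.mul_pos ha hl.pos) N hs h3 hG c hδ
  rw [Finset.card_image_of_injOn] at h2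
  · have h3 := abs_card (M := M) hl
    omega
  · intro i hi' j hj' hij
    have h3 : δ * (δ ^ M) ^ i = δ * (δ ^ M) ^ j := by
      rw [← pow_mul, ← pow_mul, ← pow_succ', ← pow_succ', mul_comm M, mul_comm M, add_comm _ 1,
        add_comm _ 1]
      exact hij
    refine pow_injOn_Iio_orderOf ?_ ?_ (mul_left_cancel₀ hδ0 h3)
    · rw [hord]
      exact Finset.mem_range.1 (Finset.mem_filter.1 hi').1
    · rw [hord]
      exact Finset.mem_range.1 (Finset.mem_filter.1 hj').1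

end Pool.Agent.GR
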