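import Pool.Agent.Lib.MP_aa40d3_nt.MG.Defs

/-! The escape lemma. -/

namespace Pool.Agent.GR

variable {n : ℕ} {G : Type} [Group G] {Mov : Finset (Fin n)} {L0 : List (Fin n)} {g : Fin n → G}

section
variable {A : Type} [Ring A] [Algebra ℂ A]

/-- The linear span of the image of a subgroup. -/
def escSp (ρ : G →* A) (H : Subgroup G) : Submodule ℂ A := Submodule.span ℂ (ρ '' (H : Set G))

/-- Conjugation as a linear map. -/
def escCj (ρ : G →* A) (γ : G) : A ≃ₗ[ℂ] A where
  toFun x := ρ γ * x * ρ γ⁻¹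
  invFun x := ρ γ⁻¹ * x * ρ γ
  map_add' a b := by rw [mul_add, add_mul]
  map_smul' c a := by rw [mul_smul_comm, smul_mul_assoc, RingHom.id_apply]
  left_inv x := by
    simp only [← mul_assoc, ← map_mul, inv_mul_cancel, map_one, one_mul]
    rw [mul_assoc, ← map_mul, inv_mul_cancel, map_one, mul_one]
  right_inv x := by
    simp only [← mul_assoc, ← map_mul, mul_inv_cancel, map_one, one_mul]
    rw [mul_assoc, ← map_mul, mul_inv_cancel, map_one, mul_one]

theorem escCj_apply (ρ : G →* A) (γ : G) (x : A) : escCj ρ γ x = ρ γ * x * ρ γ⁻¹ := rfl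

theorem esc_cj (ρ : G →* A) (γ : G) (H : Subgroup G) :
    escSp ρ (cj γ H) = (escSp ρ H).map (escCj ρ γ).toLinearMap := by
  rw [escSp, escSp, Submodule.map_span, cj, Subgroup.coe_map, Set.image_image, Set.image_image]
  congr 1
  refine Set.image_congr fun x _ => ?_
  change ρ (γ * x * γ⁻¹) = ρ γ * ρ x * ρ γ⁻¹
  rw [map_mul, map_mul]

theorem esc_lev [FiniteDimensional ℂ A] (ρ : G →* A) {D : ℕ} (hD : Module.finrank ℂ A ≤ D)
    (P : G → Prop) (hP : ∀ γ x, P x → P (γ * x * γ⁻¹)) :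
    Lev Mov L0 g (fun H => ∃ x ∈ H, P x) (fun H => Module.finrank ℂ (escSp ρ H)) (escSp ρ)
      (fun γ S => S.map (escCj ρ γ).toLinearMap) D := by
  have mono : ∀ H H' : Subgroup G, H ≤ H' → escSp ρ H ≤ escSp ρ H' := fun H H' h =>
    Submodule.span_mono (Set.image_mono h)
  refine ⟨fun S => ?_, fun a b S => ?_, ?_, fun γ H _ => ?_, fun γ H _ => esc_cj ρ γ H,
    fun H _ => (escSp ρ H).finrank_le.trans hD,
    fun H H' _ _ h => Submodule.finrank_mono (mono H H' h),
    fun H H' _ _ h e => Submodule.eq_of_le_of_finrank_eq (mono H H' h) e, ?_⟩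
  · have e : (escCj ρ 1).toLinearMap = LinearMap.id := by
      ext x
      simp [escCj_apply]
    rw [e, Submodule.map_id]
  · have e : (escCj ρ (a * b)).toLinearMap =
        (escCj ρ a).toLinearMap ∘ₗ (escCj ρ b).toLinearMap := by
      ext x
      simp [escCj_apply, mul_assoc]
    rw [e, Submodule.map_comp]
  · rintro γ H ⟨x, hx, hx'⟩
    exact ⟨γ * x * γ⁻¹, ⟨x, hx, rfl⟩, hP γ x hx'⟩
  · rw [esc_cj, LinearEquiv.finrank_map_eq]
  · rintro L₁ B C L₂ h - - - ⟨x, hx, hx'⟩ -
    exact ⟨x, cl_mono (fun a ha => List.mem_append_left C ha) hx, hx'⟩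

/-- The span of the products over sublists. -/
def escV (ρ : G →* A) (h : Fin n → G) (M : List (Fin n)) : Submodule ℂ A :=
  Submodule.span ℂ {x | ∃ l : List (Fin n), l.Sublist M ∧ x = ρ (l.map h).prod}

theorem escV_mono (ρ : G →* A) (h : Fin n → G) {M M' : List (Fin n)} (hM : M.Sublist M') :
    escV ρ h M ≤ escV ρ h M' :=
  Submodule.span_mono fun _ ⟨l, hl, e⟩ => ⟨l, hl.trans hM, e⟩

theorem esc_chain [FiniteDimensional ℂ A] {D : ℕ} (hD : Module.finrank ℂ A ≤ D)
    (V : ℕ → Submodule ℂ A) (hV : ∀ j, V j ≤ V (j + 1)) : ∃ j ≤ D, V (j + 1) ≤ V j := by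
  by_contra hc
  push Not at hc
  have key : ∀ j ≤ D + 1, j ≤ Module.finrank ℂ (V j) := by
    intro j
    induction j with
    | zero => exact fun _ => Nat.zero_le _
    | succ j ih =>
      intro hj
      have h1 := ih (by omega)
      have h2 := Submodule.finrank_lt_finrank_of_lt (lt_of_le_not_ge (hV j) (hc j (by omega)))
      omega
  have h1 := key (D + 1) le_rfl
  have h2 := (V (D + 1)).finrank_le
  omega

/-- The elements that map a subspace into itself by right multiplication. -/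
def escK [FiniteDimensional ℂ A] (ρ : G →* A) (V : Submodule ℂ A) : Subgroup G where
  carrier := {γ | ∀ x ∈ V, x * ρ γ ∈ V}
  one_mem' := fun x hx => by rwa [map_one, mul_one]
  mul_mem' := fun {a b} ha hb x hx => by
    rw [map_mul, ← mul_assoc]
    exact hb _ (ha x hx)
  inv_mem' := fun {a} ha x hx => by
    have hinj : Function.Injective (LinearMap.mulRight ℂ (ρ a)) := fun y z e => by
      have e' := congrArg (· * ρ a⁻¹) e
      simpa [mul_assoc, ← map_mul] using e'
    have hle : V.map (LinearMap.mulRight ℂ (ρ a)) ≤ V := by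
      rintro _ ⟨y, hy, rfl⟩
      exact ha y hy
    have heq := Submodule.eq_of_le_of_finrank_eq hle
      (LinearEquiv.finrank_eq (Submodule.equivMapOfInjective _ hinj V)).symm
    obtain ⟨y, hy, e⟩ := heq.ge hx
    rw [← e, LinearMap.mulRight_apply, mul_assoc, ← map_mul, mul_inv_cancel, map_one, mul_one]
    exact hy

theorem esc_le [FiniteDimensional ℂ A] (ρ : G →* A) (h : Fin n → G) {M B : List (Fin n)}
    (hV : escV ρ h (M ++ B) ≤ escV ρ h M) : escSp ρ (cl h B) ≤ escV ρ h M := by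
  have h1 : cl h B ≤ escK ρ (escV ρ h M) := by
    refine (Subgroup.closure_le _).2 ?_
    rintro _ ⟨a, ha, rfl⟩ x hx
    induction hx using Submodule.span_induction with
    | mem y hy =>
      obtain ⟨l, hl, rfl⟩ := hy
      refine hV (Submodule.subset_span ⟨l ++ [a], hl.append (List.singleton_sublist.2 ha), ?_⟩)
      rw [List.map_append, List.prod_append, map_mul]
      simp
    | zero => simp
    | add y z _ _ hy hz =>
      rw [add_mul]
      exact Submodule.add_mem _ hy hz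
    | smul c y _ hy =>
      rw [smul_mul_assoc]
      exact Submodule.smul_mem _ c hy
  refine Submodule.span_le.2 ?_
  rintro _ ⟨γ, hγ, rfl⟩
  have h2 := h1 hγ 1 (Submodule.subset_span ⟨[], List.nil_sublist _, by simp⟩)
  rwa [one_mul] at h2

theorem escSp_mul (ρ : G →* A) (H : Subgroup G) {a b : A} (ha : a ∈ escSp ρ H)
    (hb : b ∈ escSp ρ H) : a * b ∈ escSp ρ H := by
  have := Submodule.mul_mem_mul ha hb
  rw [escSp, Submodule.span_mul_span] at this
  refine Submodule.span_mono ?_ this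
  rintro _ ⟨_, ⟨y, hy, rfl⟩, _, ⟨z, hz, rfl⟩, rfl⟩
  exact ⟨y * z, H.mul_mem hy hz, map_mul ρ y z⟩

/-- The elements whose image and inverse image lie in the span. -/
def escN (ρ : G →* A) (H : Subgroup G) : Subgroup G where
  carrier := {x | ρ x ∈ escSp ρ H ∧ ρ x⁻¹ ∈ escSp ρ H}
  one_mem' := by
    have h1 : ρ 1 ∈ escSp ρ H := Submodule.subset_span ⟨1, H.one_mem, rfl⟩
    exact ⟨h1, by rwa [inv_one]⟩
  mul_mem' := fun {a b} ha hb => ⟨by
    rw [map_mul]
    exact escSp_mul ρ H ha.1 hb.1, by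
    rw [mul_inv_rev, map_mul]
    exact escSp_mul ρ H hb.2 ha.2⟩
  inv_mem' := fun {a} ha => ⟨ha.2, by
    rw [inv_inv]
    exact ha.1⟩

end

theorem esc_loop (h0 : L0.Nodup) {M R l : List (Fin n)} {h : Fin n → G}
    (hs : St Mov L0 g (M ++ R) h) (hM : ∀ a ∈ M, a ∈ Mov) (hl : l.Sublist M) :
    IsLoop Mov L0 g (l.map h).prod := by
  have hfl : ∀ l : List (Fin n), (l.map fun a => [a]).flatten = l := fun l => by
    induction l with
    | nil => rfl
    | cons a l ih => simp [ih]
  have hm : ∀ B ∈ l.map fun a => [a], ∀ a ∈ B, a ∈ Mov := by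
    intro B hB a ha
    obtain ⟨b, hb, rfl⟩ := List.mem_map.1 hB
    rw [List.mem_singleton.1 ha]
    exact hM b (hl.subset hb)
  obtain ⟨R', h', k1, k2⟩ := St.sel (g := g) (h := h) (L₁ := []) (R := R) h0
    (hl.map fun a => [a]) hm (by rw [hfl, List.nil_append]; exact hs)
  rw [hfl, List.nil_append] at k1 k2
  exact ⟨l, R', h', k1, fun a ha => hM a (hl.subset ha), by
    rw [List.map_congr_left k2]⟩

/-- Write `φ x = f (ρ x)` with `ρ : G →* A`. Use `doubling` with `Y = Submodule ℂ A`, `inv H = span (ρ '' H)`, `ν H = finrank (inv H)`,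
`act γ S = S.map (x ↦ ρ γ * x * ρ γ⁻¹)`, `Ok H = ∃ x ∈ H, P x`, `Lm = D`, `m = D + 1`
(`front_init` gives the start; `levA` in `MR/Span.lean` is a model). This gives clusters `As` of
length `D + 1` at the front of a state `h`. Let `V j` be the span of the `ρ (l.map h).prod` with
`l` a sublist of `(As.take j).flatten`. These products are loops (`St.sel` with the singletons of
`l`, as in `front_init`), so `f` vanishes on `V j`. The `D + 2` spaces `V 0 ≤ ... ≤ V (D + 1)`
have dimension at most `D`, so `V j = V (j + 1)` for some `j ≤ D`. Then `V j` is mapped into itself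
by right multiplication by `ρ (h a)`, `a ∈ As[j]` (`l ++ [a]` is a sublist), hence onto itself
(injective, finite dimension), so it is stable under `ρ` of `H = cl h As[j]`; `1 ∈ V j`, so
`S = span (ρ '' H) ≤ V j`. `S` is closed under products and fixed by all conjugations. Take
`N = {x | ρ x ∈ S ∧ ρ x⁻¹ ∈ S}`. -/
theorem escape (h0 : L0.Nodup) (hall : ∀ a, a ∈ L0) (hg : Subgroup.closure (Set.range g) = ⊤)
    (P : G → Prop) (hP : ∀ γ x, P x → P (γ * x * γ⁻¹)) (hPa : ∀ a ∈ Mov, P (g a)) {D : ℕ}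
    (hk : Kf (D + 1) (D + 1) ≤ Mov.card) {φ : G → ℂ} (hφ : RepC D φ)
    (hf : ∀ x, IsLoop Mov L0 g x → φ x = 0) :
    ∃ N : Subgroup G, N.Normal ∧ (∃ x ∈ N, P x) ∧ ∀ x ∈ N, φ x = 0 := by
  obtain ⟨A, _, _, _, hD, ρ, f, hρ⟩ := hφ
  obtain ⟨As, R, h, hs, hlen, hA⟩ := doubling h0 hall (esc_lev ρ hD P hP) (D + 1)
    (front_init h0 hall hk fun a ha => ⟨g a, mem_cl (List.mem_singleton_self a), hPa a ha⟩)
  have hsub : ∀ j, (As.take j).flatten.Sublist As.flatten := fun j =>
    (List.take_sublist j As).flatten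
  obtain ⟨j, hj, hV⟩ := esc_chain hD (fun j => escV ρ h (As.take j).flatten) fun j =>
    escV_mono ρ h (List.take_sublist_take_left (Nat.le_succ j)).flatten
  have hj' : j < As.length := by omega
  simp only [List.take_succ_eq_append_getElem hj', List.flatten_append, List.flatten_cons,
    List.flatten_nil, List.append_nil] at hV
  obtain ⟨-, ⟨x, hx, hPx⟩, hinv⟩ := hA As[j] (List.getElem_mem hj')
  have hker : escV ρ h (As.take j).flatten ≤ LinearMap.ker f := by
    refine Submodule.span_le.2 ?_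
    rintro _ ⟨l, hl, rfl⟩
    have h1 := hf _ (esc_loop h0 hs (fun a ha => by
      obtain ⟨B, hB, haB⟩ := List.mem_flatten.1 ha
      exact (hA B hB).1 a haB) (hl.trans (hsub j)))
    rwa [hρ] at h1
  have hcj : ∀ γ y, ρ y ∈ escSp ρ (cl h As[j]) → ρ (γ * y * γ⁻¹) ∈ escSp ρ (cl h As[j]) := by
    intro γ y hy
    rw [map_mul, map_mul]
    exact (hinv γ (hg ▸ Subgroup.mem_top γ)).le ⟨ρ y, hy, rfl⟩
  refine ⟨escN ρ (cl h As[j]), ⟨fun y hy γ => ⟨hcj γ y hy.1, ?_⟩⟩,
    ⟨x, ⟨Submodule.subset_span ⟨x, hx, rfl⟩, Submodule.subset_span ⟨x⁻¹, inv_mem hx, rfl⟩⟩, hPx⟩,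
    fun y hy => ?_⟩
  · have h1 := hcj γ y⁻¹ hy.2
    rwa [← conj_inv] at h1
  · rw [hρ]
    exact hker (esc_le ρ h hV hy.1)

end Pool.Agent.GR
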