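import Pool.Agent.Lib.MP_aa40d3_nt.MG.Defs

/-! Matrix coefficients of representations of bounded dimension. -/

namespace Pool.Agent.GR

variable {s D D' : ℕ} {G : Type} [Group G] {φ φ' : G → ℂ}

/-- Induction on `a`: `A 0 = ℂ`, `A (a + 1) = A a ⊗[ℂ] A₀`, `P' x = P x ⊗ₜ x`,
`μ' = LinearMap.mul' ℂ A₀ ∘ₗ TensorProduct.map μ LinearMap.id`. -/
theorem alg_pow (A₀ : Type) [Ring A₀] [Algebra ℂ A₀] [FiniteDimensional ℂ A₀] (a : ℕ) :
    ∃ (A : Type) (_ : Ring A) (_ : Algebra ℂ A) (_ : FiniteDimensional ℂ A),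
      Module.finrank ℂ A ≤ Module.finrank ℂ A₀ ^ a ∧ ∃ (P : A₀ →* A) (μ : A →ₗ[ℂ] A₀),
        (∀ (c : ℂ) x, P (c • x) = c ^ a • P x) ∧ ∀ x, μ (P x) = x ^ a := by
  induction a with
  | zero =>
    exact ⟨ℂ, inferInstance, inferInstance, inferInstance, by simp, 1, Algebra.linearMap ℂ A₀,
      fun c x => by simp, fun x => by simp⟩
  | succ a ih =>
    obtain ⟨A, _, _, _, hA, P, μ, h1, h2⟩ := ih
    refine ⟨TensorProduct ℂ A A₀, inferInstance, inferInstance, inferInstance, ?_,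
      { toFun := fun x => TensorProduct.tmul ℂ (P x) x
        map_one' := by rw [map_one, Algebra.TensorProduct.one_def]
        map_mul' := fun x y => by rw [map_mul, Algebra.TensorProduct.tmul_mul_tmul] },
      LinearMap.mul' ℂ A₀ ∘ₗ TensorProduct.map μ LinearMap.id, fun c x => ?_, fun x => ?_⟩
    · rw [Module.finrank_tensorProduct, pow_succ]
      exact Nat.mul_le_mul_right _ hA
    · change TensorProduct.tmul ℂ (P (c • x)) (c • x) = c ^ (a + 1) • TensorProduct.tmul ℂ (P x) x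
      rw [h1, TensorProduct.smul_tmul_smul, pow_succ]
    · change LinearMap.mul' ℂ A₀ (TensorProduct.map μ LinearMap.id
        (TensorProduct.tmul ℂ (P x) x)) = _
      rw [TensorProduct.map_tmul, LinearMap.mul'_apply, h2, pow_succ, LinearMap.id_apply]

theorem RepC.mono (h : RepC D φ) (hD : D ≤ D') : RepC D' φ := by
  obtain ⟨A, _, _, _, hA, hρ⟩ := h
  exact ⟨A, inferInstance, inferInstance, inferInstance, hA.trans hD, hρ⟩

/-- The product of the two algebras. -/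
theorem RepC.sub (h : RepC D φ) (h' : RepC D' φ') : RepC (D + D') fun x => φ x - φ' x := by
  obtain ⟨A, _, _, _, hA, ρ, f, h1⟩ := h
  obtain ⟨B, _, _, _, hB, ρ', f', h2⟩ := h'
  refine ⟨A × B, inferInstance, inferInstance, inferInstance, ?_, ρ.prod ρ',
    f ∘ₗ LinearMap.fst ℂ A B - f' ∘ₗ LinearMap.snd ℂ A B, fun x => ?_⟩
  · rw [Module.finrank_prod]
    exact Nat.add_le_add hA hB
  · simp [h1, h2]

/-- `alg_pow`. -/
theorem RepC.pow (h : RepC D φ) (a : ℕ) : RepC (D ^ a) fun x => φ (x ^ a) := by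
  obtain ⟨A, _, _, _, hA, ρ, f, h1⟩ := h
  obtain ⟨B, _, _, _, hB, P, μ, -, h2⟩ := alg_pow A a
  refine ⟨B, inferInstance, inferInstance, inferInstance, hB.trans (Nat.pow_le_pow_left hA a),
    P.comp ρ, f ∘ₗ μ, fun x => ?_⟩
  simp [h1, h2]

/-- `alg_pow` for `Mt s`: `x ↦ P (u x)` is a homomorphism. -/
theorem repC_proj (u : G → Mt s) (m : ℕ) (h1 : ∃ c : ℂ, c ^ m = 1 ∧ u 1 = c • (1 : Mt s))
    (hm : ∀ x y, ∃ c : ℂ, c ^ m = 1 ∧ u (x * y) = c • (u x * u y)) :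
    RepC ((s * s) ^ m) fun x => (u x ^ m).trace := by
  obtain ⟨B, _, _, _, hB, P, μ, h2, h3⟩ := alg_pow (Mt s) m
  refine ⟨B, inferInstance, inferInstance, inferInstance, ?_,
    { toFun := fun x => P (u x)
      map_one' := by
        obtain ⟨c, hc, e⟩ := h1
        rw [e, h2, hc, one_smul, map_one]
      map_mul' := fun x y => by
        obtain ⟨c, hc, e⟩ := hm x y
        rw [e, h2, hc, one_smul, map_mul] },
    Matrix.traceLinearMap (Fin s) ℂ ℂ ∘ₗ μ, fun x => ?_⟩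
  · simpa [Module.finrank_matrix] using hB
  · change _ = (μ (P (u x))).trace
    rw [h3]

/-- The dual numbers `TrivSqZeroExt ℂ ℂ`, `x ↦ 1 + ψ x • ε`. -/
theorem repC_add (ψ : G →* Multiplicative ℂ) : RepC 2 fun x => (ψ x).toAdd := by
  refine ⟨TrivSqZeroExt ℂ ℂ, inferInstance, inferInstance,
    inferInstanceAs (FiniteDimensional ℂ (ℂ × ℂ)), ?_,
    { toFun := fun x => 1 + TrivSqZeroExt.inr (ψ x).toAdd
      map_one' := by simp
      map_mul' := fun x y => by ext <;> simp [add_comm] },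
    TrivSqZeroExt.sndHom ℂ ℂ, fun x => by simp⟩
  change Module.finrank ℂ (ℂ × ℂ) ≤ 2
  simp

theorem rep_ext (G₁ : Subgroup G) {A : Type} [Ring A] (ρ : G₁ →* A) :
    ∃ e : G → A, (∀ x : G₁, e x = ρ x) ∧ (∀ x, x ∉ G₁ → e x = 0) ∧
      ∀ a ∈ G₁, ∀ b, e a * e b = e (a * b) := by
  classical
  refine ⟨fun g => if h : g ∈ G₁ then ρ ⟨g, h⟩ else 0, fun x => dif_pos x.2,
    fun x hx => dif_neg hx, fun a ha b => ?_⟩
  by_cases hb : b ∈ G₁
  · simp only [dif_pos ha, dif_pos hb, dif_pos (G₁.mul_mem ha hb), ← map_mul]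
    rfl
  · have hab : a * b ∉ G₁ := fun h => hb ((G₁.mul_mem_cancel_left ha).1 h)
    simp only [dif_neg hb, dif_neg hab, mul_zero]

/-- The induced representation in `Matrix (G ⧸ G₁) (G ⧸ G₁) A`: the entry at `q, q'` is
`ρ (q.out⁻¹ * x * q'.out)` if this lies in `G₁` and zero otherwise. With `w = (1 : G ⧸ G₁).out`,
which lies in `G₁`, take the functional `M ↦ f (ρ w * M 1 1 * ρ w⁻¹)`. -/
theorem RepC.ind (G₁ : Subgroup G) [G₁.FiniteIndex] {ψ : G₁ → ℂ} (h : RepC D ψ) :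
    ∃ φ : G → ℂ, RepC (G₁.index * G₁.index * D) φ ∧ ∀ x : G₁, φ x = ψ x := by
  classical
  obtain ⟨A, _, _, _, hA, ρ, f, hf⟩ := h
  obtain ⟨e, he, he0, hem⟩ := rep_ext G₁ ρ
  have := Fintype.ofFinite (G ⧸ G₁)
  have hiff : ∀ (g : G) (r : G ⧸ G₁), g⁻¹ * r.out ∈ G₁ ↔ r = (g : G ⧸ G₁) := fun g r => by
    rw [← QuotientGroup.eq, QuotientGroup.out_eq', eq_comm]
  let R : G →* Matrix (G ⧸ G₁) (G ⧸ G₁) A :=
    { toFun := fun x => Matrix.of fun q q' => e (q.out⁻¹ * x * q'.out)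
      map_one' := by
        ext q q'
        rw [Matrix.of_apply, mul_one, Matrix.one_apply]
        split_ifs with hq
        · rw [hq, inv_mul_cancel]
          exact (he 1).trans (map_one ρ)
        · refine he0 _ fun hm => hq ?_
          rw [(hiff _ _).1 hm, QuotientGroup.out_eq']
      map_mul' := fun x y => by
        ext q q'
        have key : ∀ r : G ⧸ G₁, q.out⁻¹ * x * r.out ∈ G₁ ↔ r = ((x⁻¹ * q.out : G) : G ⧸ G₁) :=
          fun r => by rw [← hiff, mul_inv_rev, inv_inv]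
        rw [Matrix.mul_apply, Finset.sum_eq_single ((x⁻¹ * q.out : G) : G ⧸ G₁)]
        · simp only [Matrix.of_apply]
          rw [hem _ ((key _).2 rfl)]
          congr 1
          group
        · intro r _ hr
          simp only [Matrix.of_apply]
          rw [he0 _ fun hm => hr ((key r).1 hm), zero_mul]
        · intro hr
          exact absurd (Finset.mem_univ _) hr }
  have hw : (((1 : G) : G ⧸ G₁)).out ∈ G₁ := by
    have := (hiff 1 ((1 : G) : G ⧸ G₁)).2 rfl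
    rwa [inv_one, one_mul] at this
  let F : Matrix (G ⧸ G₁) (G ⧸ G₁) A →ₗ[ℂ] ℂ :=
    { toFun := fun M => f (ρ ⟨_, hw⟩ * M ((1 : G) : G ⧸ G₁) ((1 : G) : G ⧸ G₁) * ρ ⟨_, hw⟩⁻¹)
      map_add' := fun M N => by rw [Matrix.add_apply, mul_add, add_mul, map_add]
      map_smul' := fun c M => by
        rw [Matrix.smul_apply, mul_smul_comm, smul_mul_assoc, map_smul, RingHom.id_apply] }
  refine ⟨fun x => F (R x), ⟨Matrix (G ⧸ G₁) (G ⧸ G₁) A, inferInstance, inferInstance,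
    inferInstance, ?_, R, F, fun _ => rfl⟩, fun x => ?_⟩
  · rw [Module.finrank_matrix, ← Nat.card_eq_fintype_card, ← Subgroup.index_eq_card]
    exact Nat.mul_le_mul_left _ hA
  · have h1 : R x ((1 : G) : G ⧸ G₁) ((1 : G) : G ⧸ G₁) = ρ (⟨_, hw⟩⁻¹ * x * ⟨_, hw⟩) :=
      he ((⟨_, hw⟩ : G₁)⁻¹ * x * (⟨_, hw⟩ : G₁))
    change f (ρ ⟨_, hw⟩ * R x ((1 : G) : G ⧸ G₁) ((1 : G) : G ⧸ G₁) * ρ ⟨_, hw⟩⁻¹) = ψ x
    rw [h1, ← map_mul, ← map_mul, hf]
    congr 2
    group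

/-- `RepC.ind`, `RepC.mono`, `RepC.pow` and `Subgroup.pow_mem_of_index_ne_zero_of_dvd`. -/
theorem RepC.ind_pow (G₁ : Subgroup G) [G₁.FiniteIndex] {d : ℕ} (hd : G₁.index ≤ d) {ψ : G₁ → ℂ}
    (h : RepC D ψ) : (∀ x : G, x ^ d.factorial ∈ G₁) ∧ ∃ φ : G → ℂ,
      RepC ((d * d * D) ^ d.factorial) φ ∧ ∀ (x : G) (y : G₁), x ^ d.factorial = y → φ x = ψ y := by
  obtain ⟨φ, hφ, he⟩ := h.ind G₁
  refine ⟨fun x => G₁.pow_mem_of_index_ne_zero_of_dvd Subgroup.FiniteIndex.index_ne_zero x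
    fun m hm hle => Nat.dvd_factorial hm (hle.trans hd), fun x => φ (x ^ d.factorial),
    (hφ.mono (Nat.mul_le_mul_right _ (Nat.mul_le_mul hd hd))).pow _, fun x y hxy => ?_⟩
  rw [← he y, ← hxy]

end Pool.Agent.GR
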