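import Pool.Agent.Lib.MP_aa40d3_nt.MG.MinA
import Pool.Agent.Lib.MP_aa40d3_nt.MG.Esc
import Pool.Agent.Lib.MP_aa40d3_nt.MG.Rep
import Pool.Agent.Lib.MP_aa40d3_nt.MG.Abs

/-! The case of a block of size at least two. -/

open Matrix

namespace Pool.Agent.GR

theorem caseb_pow {s : ℕ} {u u' : Mt s} {c : ℂ} (hc : c ^ s = 1) (h : u = c • u') (m : ℕ) :
    u ^ (s * m) = u' ^ (s * m) := by
  rw [h, smul_pow, pow_mul c, hc, one_pow, one_smul]

theorem caseb_map_smul {s : ℕ} (τ : ℂ →+* ℂ) (c : ℂ) (u : Mt s) :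
    τ.mapMatrix (c • u) = τ c • τ.mapMatrix u := by
  ext i j
  simp

theorem caseb_trace {s : ℕ} (τ : ℂ →+* ℂ) (u : Mt s) : (τ.mapMatrix u).trace = τ u.trace := by
  simp [Matrix.trace]

/-- Choose a lift `u γ` for `γ` in the stabiliser; `repC_proj` for `u` and for `(u γ).map τ`
(`Blk.Lf.unique`), `RepC.sub`, `RepC.ind_pow` with `d = r * r`, `RepC.mono` with `s ≤ r`. -/
theorem blk_repC {r s : ℕ} {G : Type} [Group G] {σ : G →* Mt r} {A : Subalgebra ℂ (Mt r)}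
    (b : Blk A s) (hA : InvR σ A) (τ : ℂ →+* ℂ) {c l : ℕ} (hc : c ≤ l) :
    (∀ x : G, x ^ (r * r).factorial ∈ stabR σ (b.φ 1)) ∧ ∃ φ : G → ℂ,
      RepC ((r * r * (r * r) * ((r * r) ^ (r * l) + (r * r) ^ (r * l))) ^ (r * r).factorial) φ ∧
      ∀ x u, b.Lf σ (x ^ (r * r).factorial) u →
        φ x = τ (u.val ^ (s * c)).trace - (u.val ^ (s * l)).trace := by
  obtain ⟨hfi, hidx⟩ := orth_index (σ := σ) b.ne_zero b.idem (b.orth hA)
  have hex : ∀ γ : stabR σ (b.φ 1), ∃ u, b.Lf σ γ u := fun γ => b.exists_lift hA γ.2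
  choose u hu using hex
  have e1 : ∃ a : ℂ, a ^ s = 1 ∧ (u 1).val = a • (1 : Mt s) := (hu 1).unique Blk.Lf.one
  have em : ∀ x y, ∃ a : ℂ, a ^ s = 1 ∧ (u (x * y)).val = a • ((u x).val * (u y).val) :=
    fun x y => (hu (x * y)).unique ((hu x).mul (hu y))
  have p1 : RepC ((s * s) ^ (s * l)) fun x => ((u x).val ^ (s * l)).trace := by
    refine repC_proj (fun x => (u x).val) (s * l) ?_ fun x y => ?_
    · obtain ⟨a, h1, h2⟩ := e1
      exact ⟨a, by rw [pow_mul, h1, one_pow], h2⟩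
    · obtain ⟨a, h1, h2⟩ := em x y
      exact ⟨a, by rw [pow_mul, h1, one_pow], h2⟩
  have p2 : RepC ((s * s) ^ (s * c)) fun x => (τ.mapMatrix (u x).val ^ (s * c)).trace := by
    refine repC_proj (fun x => τ.mapMatrix (u x).val) (s * c) ?_ fun x y => ?_
    · obtain ⟨a, h1, h2⟩ := e1
      exact ⟨τ a, by rw [pow_mul, ← map_pow, h1, map_one, one_pow],
        by rw [h2, caseb_map_smul, map_one]⟩
    · obtain ⟨a, h1, h2⟩ := em x y
      exact ⟨τ a, by rw [pow_mul, ← map_pow, h1, map_one, one_pow],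
        by rw [h2, caseb_map_smul, map_mul]⟩
  have hs : s ≤ r := b.le
  have hr : 0 < r * r := Nat.mul_pos (b.pos.trans_le hs) (b.pos.trans_le hs)
  have hb : ∀ m ≤ l, (s * s) ^ (s * m) ≤ (r * r) ^ (r * l) := fun m hm =>
    (Nat.pow_le_pow_left (Nat.mul_le_mul hs hs) _).trans
      (Nat.pow_le_pow_right hr (Nat.mul_le_mul hs hm))
  obtain ⟨h1, φ, h2, h3⟩ := RepC.ind_pow (stabR σ (b.φ 1)) hidx
    ((p2.sub p1).mono (Nat.add_le_add (hb c hc) (hb l le_rfl)))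
  refine ⟨h1, φ, h2, fun x v hv => ?_⟩
  obtain ⟨a, ha, hav⟩ := (hu ⟨_, h1 x⟩).unique hv
  rw [h3 x ⟨_, h1 x⟩ rfl, ← map_pow, caseb_trace, caseb_pow ha hav, caseb_pow ha hav]

theorem caseb_conj {r : ℕ} {G : Type} [Group G] {σ : G →* Mt r} {A : Subalgebra ℂ (Mt r)}
    (hA : InvR σ A) (γ x : G) (h : ∃ y ∈ A, σ x * y ≠ y * σ x) :
    ∃ y ∈ A, σ (γ * x * γ⁻¹) * y ≠ y * σ (γ * x * γ⁻¹) := by
  obtain ⟨y, hy, h⟩ := h
  refine ⟨_, hA γ y hy, fun h1 => h ?_⟩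
  have h2 : ∀ z : Mt r, σ γ⁻¹ * (σ γ * z) = z := fun z => by
    rw [← Matrix.mul_assoc, rep_inv_mul, Matrix.one_mul]
  have h3 := congrArg (fun z => σ γ⁻¹ * z * σ γ) h1
  simpa only [map_mul, Matrix.mul_assoc, h2, rep_inv_mul, Matrix.mul_one] using h3

/-- The members of `Γ` that lift a member of `N`. -/
def casebN {r s : ℕ} {G : Type} [Group G] (σ : G →* Mt r) {A : Subalgebra ℂ (Mt r)}
    (b : Blk A s) (Γ : Subgroup (GLr s)) (N : Subgroup G) : Subgroup Γ where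
  carrier := {u | ∃ γ ∈ N, b.Lf σ γ u.val}
  one_mem' := ⟨1, N.one_mem, Blk.Lf.one⟩
  mul_mem' := fun ⟨γ, h, hu⟩ ⟨γ', h', hu'⟩ => ⟨γ * γ', N.mul_mem h h', hu.mul hu'⟩
  inv_mem' := fun ⟨γ, h, hu⟩ => ⟨γ⁻¹, N.inv_mem h, hu.inv⟩

/-- Take a prime `l > r * r + 1` and `k = Kf (D + 1) (D + 1)` with `D` as in `blk_repC`, `e = (r * r)!`.
`G` is finitely generated; take `Γ` from `Blk.exists_group` and apply `finite_abs` to `incl Γ`
(`Blk.simp`, `Blk.le`) with `L = {u ^ s | u ∈ Γ lifts c ^ e for a loop c}` (`Blk.Lf.fin`). Given `τ`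
and the exponent, the function `φ` of `blk_repC` vanishes on loops; `escape` with
`P x = ∃ y ∈ A, σ x * y ≠ y * σ x` gives `N`; the members of `Γ` that lift a member of `N` form a
normal subgroup with an element that is not scalar (`Blk.moves`, `Blk.Lf.scl_iff`), and
`a = e * s`. Finally `Blk.comm_of_finite`. -/
theorem caseB (r : ℕ) : ∃ k : ℕ, ∀ (n : ℕ) (Mov : Finset (Fin n)) (L0 : List (Fin n)) (G : Type)
    [Group G] (g : Fin n → G) (σ : G →* Mt r), L0.Nodup → (∀ a, a ∈ L0) →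
    Subgroup.closure (Set.range g) = ⊤ → (∀ x, IsLoop Mov L0 g x → IsOfFinOrder x) →
    ∀ (A : Subalgebra ℂ (Mt r)) (s : ℕ) (b : Blk A s), 2 ≤ s → InvR σ A →
    (∀ A' ≤ A, InvR σ A' → CommA A' ∨ A' = A) →
    (∀ A', InvR σ A' → CommA A' → ∀ x ∈ A, ∀ y ∈ A', x * y = y * x) → k ≤ Mov.card →
    (∀ a ∈ Mov, ∃ x ∈ A, σ (g a) * x ≠ x * σ (g a)) →
    ∃ H : Subgroup G, H.FiniteIndex ∧ ∀ γ ∈ H, ∀ y, σ γ * b.φ y = b.φ y * σ γ := by
  obtain ⟨l, hl1, hl⟩ := Nat.exists_infinite_primes (r * r + 2)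
  refine ⟨Kf ((r * r * (r * r) * ((r * r) ^ (r * l) + (r * r) ^ (r * l))) ^ (r * r).factorial + 1)
    ((r * r * (r * r) * ((r * r) ^ (r * l) + (r * r) ^ (r * l))) ^ (r * r).factorial + 1), ?_⟩
  intro n Mov L0 G _ g σ h0 hall hg hfin A s b hs hA hm hcc hk hP
  have : Group.FG G := Group.fg_iff.2 ⟨Set.range g, hg, Set.finite_range g⟩
  obtain ⟨Γ, hΓ, hΓ1, hΓ2⟩ := b.exists_group hA
  have : NeZero s := ⟨by omega⟩
  have hsl : s * s + 1 < l := by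
    have := Nat.mul_le_mul b.le b.le
    omega
  have : Finite Γ := by
    refine finite_abs (incl_inj Γ) (fun x => (hΓ1 x.1 x.2).choose_spec.1) (b.simp hA hm hcc hΓ2) hl
      hsl {x | ∃ (u : Γ) (c : G), IsLoop Mov L0 g c ∧ b.Lf σ (c ^ (r * r).factorial) u.val ∧
        x = u ^ s} ?_ ?_
    · rintro _ ⟨u, c, hc, hu, rfl⟩
      exact (Γ.subtype_injective.isOfFinOrder_iff.1 (hu.fin (hfin c hc).pow)).pow
    · intro τ c hc hL
      have hcl : c ≤ l := by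
        rcases hc with rfl | rfl
        exacts [hl.one_lt.le, le_rfl]
      obtain ⟨he, φ, hφ, hφ'⟩ := blk_repC b hA τ hcl
      obtain ⟨N, hN, hNP, hN0⟩ := escape h0 hall hg (fun x => ∃ y ∈ A, σ x * y ≠ y * σ x)
        (caseb_conj hA) hP hk hφ fun x hx => by
          obtain ⟨u, hu, hxu⟩ := hΓ2 _ (he x)
          have h1 := hL _ ⟨⟨u, hu⟩, x, hx, hxu, rfl⟩
          rw [map_pow, incl_apply, ← pow_mul, ← pow_mul] at h1
          rw [hφ' x u hxu, h1, sub_self]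
      refine ⟨casebN σ b Γ N, ⟨?_⟩, ?_, (r * r).factorial * s,
        Nat.mul_pos (Nat.factorial_pos _) b.pos, ?_⟩
      · rintro u ⟨γ, hγ, hu⟩ v
        obtain ⟨δ, hv⟩ := hΓ1 v.1 v.2
        exact ⟨δ * γ * δ⁻¹, hN.conj_mem γ hγ δ, (hv.mul hu).mul hv.inv⟩
      · obtain ⟨γ, hγ, hγ1, y, hy⟩ := b.moves hs hA hm N hNP
        obtain ⟨u, hu, hγu⟩ := hΓ2 γ hγ1
        exact ⟨⟨u, hu⟩, ⟨γ, hγ, hγu⟩, fun h => hy (hγu.scl_iff.1 h y)⟩
      · rintro u ⟨γ, hγ, hu⟩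
        have h1 := hφ' γ _ (hu.pow _)
        rw [hN0 γ hγ, Units.val_pow_eq_pow_val, ← pow_mul, ← pow_mul, ← mul_assoc,
          ← mul_assoc] at h1
        exact sub_eq_zero.1 h1.symm
  exact b.comm_of_finite hA hΓ2

end Pool.Agent.GR
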