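import Pool.Agent.Lib.MP_aa40d3_nt.MG.Defs

/-! Invariant subalgebras are products of matrix algebras. -/

open Matrix

namespace Pool.Agent.GR

variable {r : ℕ} {G : Type} [Group G] {σ : G →* Mt r}

theorem wed_nil {R : Type} [Ring R] [IsArtinianRing R]
    (h : ∀ x ∈ Ring.jacobson R, (∀ y ∈ Ring.jacobson R, x * y = 0) → x = 0) :
    IsSemisimpleRing R := by
  rw [IsArtinianRing.isSemisimpleRing_iff_jacobson]
  obtain ⟨n, hn⟩ := IsArtinianRing.isNilpotent_jacobson_bot (R := R)
  rw [Ideal.jacobson_bot] at hn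
  have key : ∀ k, Ring.jacobson R ^ (k + 1) = ⊥ → Ring.jacobson R = ⊥ := by
    intro k
    induction k with
    | zero => intro h0; rwa [zero_add, Submodule.pow_one] at h0
    | succ k ih =>
      intro h0
      refine ih ((Submodule.eq_bot_iff _).2 fun x hx => ?_)
      refine h x (Ideal.pow_le_self k.succ_ne_zero hx) fun y hy => ?_
      have h2 := Ideal.mul_mem_mul hx hy
      rw [← Submodule.pow_succ, h0] at h2
      exact h2
  refine key n ?_
  rw [Submodule.pow_succ, hn]
  exact Ideal.bot_mul _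

theorem wed_mul_inv (γ : G) : σ γ * σ γ⁻¹ = 1 := by rw [← map_mul, mul_inv_cancel, map_one]

theorem wed_inv_mul (γ : G) : σ γ⁻¹ * σ γ = 1 := by rw [← map_mul, inv_mul_cancel, map_one]

/-- Conjugation as a ring homomorphism of an invariant subalgebra. -/
def wed_cj {A : Subalgebra ℂ (Mt r)} (hA : InvR σ A) (γ : G) : A →+* A where
  toFun x := ⟨σ γ * x.1 * σ γ⁻¹, hA γ _ x.2⟩
  map_one' := Subtype.ext (by simp [wed_mul_inv])
  map_mul' x y := Subtype.ext (by
    simp only [MulMemClass.coe_mul, mul_assoc]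
    rw [← mul_assoc (σ γ⁻¹), wed_inv_mul, one_mul])
  map_zero' := Subtype.ext (by simp)
  map_add' x y := Subtype.ext (by simp [mul_add, add_mul])

theorem wed_jac {A : Subalgebra ℂ (Mt r)} (hA : InvR σ A) (γ : G) {x : A}
    (hx : x ∈ Ring.jacobson A) : wed_cj hA γ x ∈ Ring.jacobson A := by
  have : RingHomSurjective (wed_cj hA γ) := ⟨fun y => ⟨wed_cj hA γ⁻¹ y, Subtype.ext (by
    change σ γ * (σ γ⁻¹ * y.1 * σ γ⁻¹⁻¹) * σ γ⁻¹ = y.1
    rw [inv_inv, mul_assoc (σ γ⁻¹), ← mul_assoc (σ γ), wed_mul_inv, one_mul, mul_assoc,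
      wed_mul_inv, mul_one])⟩⟩
  exact Ring.le_comap_jacobson (wed_cj hA γ) hx

/-- `A` is Artinian (`IsArtinianRing.of_finite`), so `J = Ring.jacobson A` is nilpotent; it is
mapped into itself by the ring automorphisms of `A` given by conjugation. The vectors killed by
all members of `J` form an invariant subspace; it is not zero if `r ≠ 0` (apply a longest nonzero
product of members of `J`, or use that `J` kills a simple submodule), so it is everything and
`J = ⊥`; `IsArtinianRing.isSemisimpleRing_iff_jacobson`. -/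
theorem wed_semi (hI : IrrR σ) (A : Subalgebra ℂ (Mt r)) (hA : InvR σ A) : IsSemisimpleRing A := by
  have : IsArtinianRing A := IsArtinianRing.of_finite ℂ A
  refine wed_nil fun x hx hxy => Subtype.ext (toLin'.injective (LinearMap.ext fun v => ?_))
  rw [toLin'_apply, toLin'_apply, ZeroMemClass.coe_zero, zero_mulVec]
  rcases hI (Submodule.span ℂ {w | ∃ y ∈ Ring.jacobson A, ∃ u, w = y.1 *ᵥ u}) (fun γ w hw => by
    induction hw using Submodule.span_induction with
    | mem w h =>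
      obtain ⟨y, hy, u, rfl⟩ := h
      refine Submodule.subset_span ⟨_, wed_jac hA γ hy, σ γ *ᵥ u, ?_⟩
      change _ = (σ γ * y.1 * σ γ⁻¹) *ᵥ σ γ *ᵥ u
      rw [mulVec_mulVec, mulVec_mulVec, mul_assoc, wed_inv_mul, mul_one]
    | zero => rw [mulVec_zero]; exact zero_mem _
    | add a b _ _ ha hb => rw [mulVec_add]; exact add_mem ha hb
    | smul c a _ ha => rw [mulVec_smul]; exact Submodule.smul_mem _ c ha) with h | h
  · exact (Submodule.eq_bot_iff _).1 h _ (Submodule.subset_span ⟨x, hx, v, rfl⟩)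
  · have h1 : Submodule.span ℂ {w | ∃ y ∈ Ring.jacobson A, ∃ u, w = y.1 *ᵥ u} ≤
        LinearMap.ker (toLin' x.1) := by
      refine Submodule.span_le.2 ?_
      rintro _ ⟨y, hy, u, rfl⟩
      have h2 : x.1 * y.1 = 0 := congrArg Subtype.val (hxy y hy)
      rw [SetLike.mem_coe, LinearMap.mem_ker, toLin'_apply, mulVec_mulVec, h2, zero_mulVec]
    exact h1 (h ▸ Submodule.mem_top)

/-- The factor `i` of a product decomposition as a non-unital homomorphism. -/
noncomputable def wedFac {A : Subalgebra ℂ (Mt r)} {d : ℕ} {s : Fin d → ℕ}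
    (e : A ≃ₐ[ℂ] ∀ i, Mt (s i)) (i : Fin d) : Mt (s i) →ₙₐ[ℂ] Mt r where
  toFun y := (e.symm (Pi.single i y) : A)
  map_smul' c y := by
    rw [Pi.single_smul, map_smul]
    rfl
  map_zero' := by
    rw [Pi.single_zero, map_zero]
    rfl
  map_add' x y := by
    rw [Pi.single_add, map_add]
    rfl
  map_mul' x y := by
    rw [Pi.single_mul, map_mul]
    rfl

theorem wedFac_apply {A : Subalgebra ℂ (Mt r)} {d : ℕ} {s : Fin d → ℕ}
    (e : A ≃ₐ[ℂ] ∀ i, Mt (s i)) (i : Fin d) (y : Mt (s i)) :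
    wedFac e i y = ((e.symm (Pi.single i y) : A) : Mt r) := rfl

theorem wed_left {A : Subalgebra ℂ (Mt r)} {d : ℕ} {s : Fin d → ℕ}
    (e : A ≃ₐ[ℂ] ∀ i, Mt (s i)) (i : Fin d) (x : A) :
    wedFac e i (e x i) = wedFac e i 1 * x := by
  have h : (Pi.single i (e x i) : ∀ j, Mt (s j)) = Pi.single i 1 * e x := by
    funext j
    by_cases hj : j = i
    · subst hj
      simp
    · simp [Pi.single_eq_of_ne hj]
  rw [wedFac_apply, wedFac_apply, h, map_mul, AlgEquiv.symm_apply_apply]
  rfl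

theorem wed_right {A : Subalgebra ℂ (Mt r)} {d : ℕ} {s : Fin d → ℕ}
    (e : A ≃ₐ[ℂ] ∀ i, Mt (s i)) (i : Fin d) (x : A) :
    wedFac e i (e x i) = x * wedFac e i 1 := by
  have h : (Pi.single i (e x i) : ∀ j, Mt (s j)) = e x * Pi.single i 1 := by
    funext j
    by_cases hj : j = i
    · subst hj
      simp
    · simp [Pi.single_eq_of_ne hj]
  rw [wedFac_apply, wedFac_apply, h, map_mul, AlgEquiv.symm_apply_apply]
  rfl

/-- `IsSemisimpleRing.exists_algEquiv_pi_matrix_of_isAlgClosed`; the factor `i` is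
`y ↦ e.symm (Pi.single i y)`. -/
theorem exists_blocks (hI : IrrR σ) (A : Subalgebra ℂ (Mt r)) (hA : InvR σ A) :
    ∃ (d : ℕ) (s : Fin d → ℕ) (b : ∀ i, Blk A (s i)), ∑ i, (b i).φ 1 = 1 := by
  have := wed_semi hI A hA
  obtain ⟨d, s, hs, ⟨e⟩⟩ := IsSemisimpleRing.exists_algEquiv_pi_matrix_of_isAlgClosed ℂ A
  refine ⟨d, s, fun i =>
    { φ := wedFac e i
      pos := Nat.pos_of_ne_zero (hs i).out
      inj := fun x y h => ?_
      mem := fun y => (e.symm (Pi.single i y)).2
      onto := fun x hx => ⟨e ⟨x, hx⟩ i, wed_left e i ⟨x, hx⟩⟩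
      cen := fun x hx => (wed_left e i ⟨x, hx⟩).symm.trans (wed_right e i ⟨x, hx⟩) }, ?_⟩
  · rw [wedFac_apply, wedFac_apply] at h
    exact Pi.single_injective i (e.symm.injective (Subtype.ext h))
  · have h1 : ∑ i, (Pi.single i 1 : ∀ j, Mt (s j)) = 1 :=
      Finset.univ_sum_single (1 : ∀ j, Mt (s j))
    have h2 : ∑ i, e.symm (Pi.single i 1) = 1 := by
      rw [← map_sum, h1, map_one]
    have h3 := congrArg A.val h2
    rw [map_sum, map_one] at h3
    exact h3

end Pool.Agent.GR
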