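import Pool.Agent.Lib.MP_aa40d3_nt.MG.Wed
import Pool.Agent.Lib.MP_aa40d3_nt.MG.Burn

/-! Blocks and their stabilisers. -/

open Matrix

namespace Pool.Agent.GR

variable {r s : ℕ} {G : Type} [Group G] {σ : G →* Mt r} {A : Subalgebra ℂ (Mt r)}

theorem Blk.idem (b : Blk A s) : b.φ 1 * b.φ 1 = b.φ 1 := by
  rw [← map_mul, mul_one]

theorem Blk.ne_zero (b : Blk A s) : b.φ 1 ≠ 0 := by
  have : Nonempty (Fin s) := ⟨⟨0, b.pos⟩⟩
  intro h
  exact one_ne_zero (b.inj (h.trans (map_zero b.φ).symm))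

/-- Compare dimensions. -/
theorem Blk.le (b : Blk A s) : s ≤ r := by
  have h := LinearMap.finrank_le_finrank_of_injective
    (f := (⟨⟨b.φ, map_add b.φ⟩, map_smul b.φ⟩ : Mt s →ₗ[ℂ] Mt r)) b.inj
  simp only [Module.finrank_matrix, Fintype.card_fin, Module.finrank_self, mul_one] at h
  exact Nat.mul_self_le_mul_self_iff.1 h

/-- If `s = 1` every member of `A` acts on the block by a scalar. -/
theorem Blk.scalar (b : Blk A s) (hs : s = 1) {x : Mt r} (hx : x ∈ A) :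
    ∃ c : ℂ, x * b.φ 1 = c • b.φ 1 := by
  subst hs
  obtain ⟨y, hy⟩ := b.onto x hx
  have h : y = y 0 0 • (1 : Mt 1) := by
    ext i j
    rw [Subsingleton.elim i 0, Subsingleton.elim j 0]
    simp
  exact ⟨y 0 0, by rw [← b.cen x hx, ← hy, ← map_smul, ← h]⟩

/-- If the image of `φ` is commutative then `s = 1`. -/
theorem Blk.eq_one (b : Blk A s) (h : ∀ y z, b.φ y * b.φ z = b.φ z * b.φ y) : s = 1 := by
  by_contra hs
  have hp := b.pos
  obtain ⟨i, j, hij⟩ : ∃ i j : Fin s, j ≠ i :=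
    ⟨⟨0, hp⟩, ⟨1, by omega⟩, fun h => one_ne_zero (congrArg Fin.val h)⟩
  have h1 := h (single i j 1) (single j j 1)
  rw [← map_mul, ← map_mul] at h1
  have h2 := b.inj h1
  rw [single_mul_single_same, single_mul_single_of_ne _ _ _ _ hij] at h2
  simpa using congrFun (congrFun h2 i) j

theorem blk_orth (b : Blk A s) (hA : InvR σ A) (γ : G) :
    b.φ 1 * (σ γ * b.φ 1 * σ γ⁻¹) = 0 ∨ b.φ 1 * (σ γ * b.φ 1 * σ γ⁻¹) = b.φ 1 := by
  obtain ⟨f, hf⟩ : ∃ f, f = σ γ * b.φ 1 * σ γ⁻¹ := ⟨_, rfl⟩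
  have hfA : f ∈ A := hf ▸ hA γ _ (b.mem 1)
  have hff : f * f = f := by
    rw [hf]
    simp only [Matrix.mul_assoc]
    rw [← Matrix.mul_assoc (σ γ⁻¹), rep_inv_mul, Matrix.one_mul, ← Matrix.mul_assoc (b.φ 1), b.idem]
  have hfc : ∀ x ∈ A, f * x = x * f := by
    intro x hx
    have h1 := b.cen _ (hA γ⁻¹ x hx)
    rw [inv_inv] at h1
    calc f * x = σ γ * (b.φ 1 * (σ γ⁻¹ * x * σ γ)) * σ γ⁻¹ := by
          rw [hf]
          simp only [Matrix.mul_assoc, rep_mul_inv, Matrix.mul_one]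
      _ = x * f := by
          rw [h1, hf]
          simp only [← Matrix.mul_assoc, rep_mul_inv, Matrix.one_mul]
  rw [← hf]
  obtain ⟨y, hy⟩ := b.onto f hfA
  obtain ⟨c, hc⟩ := (mem_range_scalar_iff_commute_single' (M := y)).2 fun i j => b.inj (by
    rw [map_mul, map_mul, hy, Matrix.mul_assoc, hfc _ (b.mem _), ← Matrix.mul_assoc,
      ← Matrix.mul_assoc, b.cen _ (b.mem _)])
  have h1 : b.φ 1 * f = c • b.φ 1 := by
    rw [← hy, ← hc, ← map_smul, scalar_apply, smul_one_eq_diagonal]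
  have h2 : b.φ 1 * f * (b.φ 1 * f) = b.φ 1 * f := by
    rw [Matrix.mul_assoc, ← Matrix.mul_assoc f, ← b.cen f hfA, Matrix.mul_assoc, hff,
      ← Matrix.mul_assoc, b.idem]
  rw [h1, Matrix.smul_mul, Matrix.mul_smul, b.idem, smul_smul, ← sub_eq_zero, ← sub_smul,
    smul_eq_zero] at h2
  have h3 : c * (c - 1) = 0 := by linear_combination h2.resolve_right b.ne_zero
  rw [h1]
  rcases mul_eq_zero.1 h3 with h | h
  · exact Or.inl (by rw [h, zero_smul])
  · exact Or.inr (by rw [sub_eq_zero.1 h, one_smul])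

/-- With `e = φ 1`, the conjugate `f` is a central idempotent of `A`; `e * f = φ y` with `y` a
central idempotent of `Mt s`, so `e * f = 0` or `e * f = e`. The same for `γ⁻¹` gives `f * e = 0` or
`f * e = f`. -/
theorem Blk.orth (b : Blk A s) (hA : InvR σ A) (γ : G) :
    σ γ * b.φ 1 * σ γ⁻¹ = b.φ 1 ∨ b.φ 1 * (σ γ * b.φ 1 * σ γ⁻¹) = 0 := by
  have hc := b.cen _ (hA γ _ (b.mem 1))
  rcases blk_orth b hA γ with h1 | h1
  · exact Or.inr h1
  have h2 : σ γ * (b.φ 1 * (σ γ⁻¹ * b.φ 1 * σ γ⁻¹⁻¹)) * σ γ⁻¹ =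
      σ γ * b.φ 1 * σ γ⁻¹ * b.φ 1 := by
    rw [inv_inv]
    simp only [Matrix.mul_assoc, rep_mul_inv, Matrix.mul_one]
  rcases blk_orth b hA γ⁻¹ with h3 | h3
  · rw [h3, Matrix.mul_zero, Matrix.zero_mul, ← hc] at h2
    exact Or.inr h2.symm
  · rw [h3, ← hc, h1] at h2
    exact Or.inl h2

theorem blk_conj_eq_iff (γ : G) (x : Mt r) : σ γ * x * σ γ⁻¹ = x ↔ σ γ * x = x * σ γ := by
  constructor
  · intro h
    calc σ γ * x = σ γ * x * σ γ⁻¹ * σ γ := by
          rw [Matrix.mul_assoc (σ γ * x), rep_inv_mul, Matrix.mul_one]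
      _ = x * σ γ := by rw [h]
  · intro h
    rw [h, Matrix.mul_assoc, rep_mul_inv, Matrix.mul_one]

theorem blk_conj_conj (γ δ : G) (x : Mt r) :
    σ γ * (σ δ * x * σ δ⁻¹) * σ γ⁻¹ = σ (γ * δ) * x * σ (γ * δ)⁻¹ := by
  rw [_root_.mul_inv_rev, map_mul, map_mul]
  simp only [Matrix.mul_assoc]

theorem blk_conj_mul (γ : G) (x y : Mt r) :
    σ γ * (x * y) * σ γ⁻¹ = (σ γ * x * σ γ⁻¹) * (σ γ * y * σ γ⁻¹) := by
  have h : σ γ⁻¹ * (σ γ * (y * σ γ⁻¹)) = y * σ γ⁻¹ := by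
    rw [← Matrix.mul_assoc, rep_inv_mul, Matrix.one_mul]
  simp only [Matrix.mul_assoc, h]

theorem blk_conj_one (x : Mt r) : σ 1 * x * σ (1 : G)⁻¹ = x := by
  rw [inv_one, map_one, Matrix.one_mul, Matrix.mul_one]

/-- The conjugates of `e`, indexed by `G ⧸ stabR σ e`, are nonzero orthogonal idempotents, so they
are linearly independent. -/
theorem orth_index {e : Mt r} (h0 : e ≠ 0) (h1 : e * e = e)
    (ho : ∀ γ, σ γ * e * σ γ⁻¹ = e ∨ e * (σ γ * e * σ γ⁻¹) = 0) :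
    (stabR σ e).FiniteIndex ∧ (stabR σ e).index ≤ r * r := by
  let f : G ⧸ stabR σ e → Mt r := fun q => σ q.out * e * σ q.out⁻¹
  have hne : ∀ q, f q ≠ 0 := by
    intro q hq
    apply h0
    have h := blk_conj_conj (σ := σ) q.out⁻¹ q.out e
    rw [inv_mul_cancel, blk_conj_one] at h
    rw [← h]
    change σ q.out⁻¹ * f q * _ = 0
    rw [hq, Matrix.mul_zero, Matrix.zero_mul]
  have hid : ∀ q, f q * f q = f q := by
    intro q
    change (σ q.out * e * σ q.out⁻¹) * (σ q.out * e * σ q.out⁻¹) = σ q.out * e * σ q.out⁻¹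
    rw [← blk_conj_mul, h1]
  have hor : ∀ p q, p ≠ q → f p * f q = 0 := by
    intro p q hpq
    rcases ho (p.out⁻¹ * q.out) with h | h
    · refine absurd ?_ hpq
      rw [← QuotientGroup.out_eq' p, ← QuotientGroup.out_eq' q, QuotientGroup.eq]
      exact mem_stabR.2 ((blk_conj_eq_iff _ _).1 h)
    · have h2 := blk_conj_conj (σ := σ) p.out (p.out⁻¹ * q.out) e
      rw [mul_inv_cancel_left] at h2
      change (σ p.out * e * σ p.out⁻¹) * (σ q.out * e * σ q.out⁻¹) = 0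
      rw [← h2, ← blk_conj_mul, h, Matrix.mul_zero, Matrix.zero_mul]
  have hli : LinearIndependent ℂ f := by
    rw [linearIndependent_iff']
    intro t c hs q hq
    have h5 := congrArg (fun w => w * f q) hs
    simp only [Finset.sum_mul, Matrix.smul_mul, Matrix.zero_mul] at h5
    rw [Finset.sum_eq_single q (fun b _ hb => by rw [hor b q hb, smul_zero])
      (fun h => absurd hq h), hid] at h5
    exact (smul_eq_zero.1 h5).resolve_right (hne q)
  have hfin : Finite (G ⧸ stabR σ e) := hli.finite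
  refine ⟨Subgroup.finiteIndex_of_finite_quotient, ?_⟩
  have := Fintype.ofFinite (G ⧸ stabR σ e)
  have h6 := hli.fintype_card_le_finrank
  rw [Module.finrank_matrix, Fintype.card_fin, Module.finrank_self, mul_one] at h6
  rw [Subgroup.index, Nat.card_eq_fintype_card]
  exact h6

/-- The set of the conjugates of `y` by `N` is finite (two elements of `N` in the same coset of
`stabR σ e` give the same conjugate); `z` is its sum. A conjugate that differs from `y` comes from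
an element outside `stabR σ e` and is killed by `e`. -/
theorem orbit_sum (N : Subgroup G) {e y : Mt r} [(stabR σ e).FiniteIndex]
    (ho : ∀ γ, σ γ * e * σ γ⁻¹ = e ∨ e * (σ γ * e * σ γ⁻¹) = 0) (hy : e * y = y)
    (hN : ∀ γ ∈ N, γ ∈ stabR σ e → σ γ * y = y * σ γ) :
    ∃ z ∈ Submodule.span ℂ {x : Mt r | ∃ γ ∈ N, x = σ γ * y * σ γ⁻¹},
      (∀ γ ∈ N, σ γ * z = z * σ γ) ∧ e * z = y := by
  classical
  set T : Set (Mt r) := {x : Mt r | ∃ γ ∈ N, x = σ γ * y * σ γ⁻¹} with hT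
  have hfin : T.Finite := by
    have hx : ∀ x : T, ∃ γ ∈ N, (x : Mt r) = σ γ * y * σ γ⁻¹ := fun x => x.2
    choose c hc hc' using hx
    refine Finite.of_injective (fun x : T => (c x : G ⧸ stabR σ e)) ?_
    intro x x' hxx
    have h1 : (c x)⁻¹ * c x' ∈ stabR σ e := QuotientGroup.eq.1 hxx
    have h2 := (blk_conj_eq_iff _ _).2 (hN _ (N.mul_mem (N.inv_mem (hc x)) (hc x')) h1)
    have h3 := blk_conj_conj (σ := σ) (c x) ((c x)⁻¹ * c x') y
    rw [mul_inv_cancel_left, h2] at h3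
    exact Subtype.ext (by rw [hc' x, hc' x', h3])
  have hmem : ∀ γ ∈ N, ∀ x ∈ hfin.toFinset, σ γ * x * σ γ⁻¹ ∈ hfin.toFinset := by
    intro γ hγ x hx
    rw [Set.Finite.mem_toFinset] at hx ⊢
    obtain ⟨δ, hδ, rfl⟩ := hx
    exact ⟨γ * δ, N.mul_mem hγ hδ, blk_conj_conj _ _ _⟩
  refine ⟨∑ x ∈ hfin.toFinset, x, Submodule.sum_mem _ fun x hx =>
    Submodule.subset_span (hfin.mem_toFinset.1 hx), fun γ hγ => ?_, ?_⟩
  · rw [← blk_conj_eq_iff, Finset.mul_sum, Finset.sum_mul]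
    refine Finset.sum_nbij' (fun x => σ γ * x * σ γ⁻¹) (fun x => σ γ⁻¹ * x * σ γ⁻¹⁻¹)
      (hmem γ hγ) (hmem γ⁻¹ (N.inv_mem hγ)) (fun x _ => ?_) (fun x _ => ?_) (fun x _ => rfl)
    · rw [blk_conj_conj, inv_mul_cancel, blk_conj_one]
    · rw [blk_conj_conj, mul_inv_cancel, blk_conj_one]
  · rw [Finset.mul_sum, Finset.sum_eq_single y, hy]
    · intro x hx hxy
      obtain ⟨γ, hγ, rfl⟩ := hfin.mem_toFinset.1 hx
      rcases ho γ with h | h
      · exact absurd ((blk_conj_eq_iff _ _).2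
          (hN γ hγ (mem_stabR.2 ((blk_conj_eq_iff _ _).1 h)))) hxy
      · rw [← hy, blk_conj_mul, ← Matrix.mul_assoc, h, Matrix.zero_mul]
    · intro h
      exact absurd (hfin.mem_toFinset.2 ⟨1, N.one_mem, (blk_conj_one y).symm⟩) h

theorem blkc_comm {d : ℕ} {t : Fin d → ℕ} (b : ∀ i, Blk A (t i)) (hb : ∑ i, (b i).φ 1 = 1)
    (ht : ∀ i, t i = 1) {w : Mt r} (hw : ∀ i, w * (b i).φ 1 = (b i).φ 1 * w) {y : Mt r}
    (hy : y ∈ A) : w * y = y * w := by
  choose c hc using fun i => (b i).scalar (ht i) hy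
  have e : y = ∑ i, c i • (b i).φ 1 := by
    rw [← Matrix.mul_one y, ← hb, Finset.mul_sum]
    exact Finset.sum_congr rfl fun i _ => hc i
  rw [e, Finset.mul_sum, Finset.sum_mul]
  exact Finset.sum_congr rfl fun i _ => by rw [mul_smul_comm, smul_mul_assoc, hw]

/-- All blocks have size one (`Blk.eq_one`), so `A` is spanned by the `(b i).φ 1`; take the
intersection of their stabilisers. -/
theorem comm_index (hI : IrrR σ) (hA : InvR σ A) (hc : CommA A) :
    ∃ H : Subgroup G, H.FiniteIndex ∧ ∀ γ ∈ H, ∀ y ∈ A, σ γ * y = y * σ γ := by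
  obtain ⟨d, t, b, hb⟩ := exists_blocks hI A hA
  refine ⟨⨅ i, stabR σ ((b i).φ 1), Subgroup.finiteIndex_iInf fun i =>
    (orth_index (b i).ne_zero (b i).idem ((b i).orth hA)).1, fun γ hγ y hy => ?_⟩
  exact blkc_comm b hb (fun i => (b i).eq_one fun y z => hc _ ((b i).mem y) _ ((b i).mem z))
    (fun i => Subgroup.mem_iInf.1 hγ i) hy

/-- If all blocks have size one, `x = ∑ x * (b i).φ 1` is a combination of central elements. -/
theorem exists_big_block (hI : IrrR σ) (hA : InvR σ A) (hc : ¬ CommA A) :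
    ∃ s, 2 ≤ s ∧ Nonempty (Blk A s) := by
  obtain ⟨d, t, b, hb⟩ := exists_blocks hI A hA
  by_contra h
  refine hc fun x hx y hy => blkc_comm b hb (fun i => ?_) (fun i => ((b i).cen x hx).symm) hy
  have h1 := (b i).pos
  have h2 : ¬ 2 ≤ t i := fun k => h ⟨_, k, ⟨b i⟩⟩
  omega

end Pool.Agent.GR
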