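import Pool.Agent.Lib.MP_aa40d3_nt.MG.TorA
import Pool.Agent.Lib.MP_aa40d3_nt.MG.Esc
import Pool.Agent.Lib.MP_aa40d3_nt.MG.Rep

/-! The commutative case. -/

open Matrix

namespace Pool.Agent.GR

theorem casea_tors {x : Multiplicative ℂ} (h : IsOfFinOrder x) : x.toAdd = 0 := by
  obtain ⟨k, hk, e⟩ := isOfFinOrder_iff_pow_eq_one.1 h
  have h1 := congrArg Multiplicative.toAdd e
  rw [toAdd_pow, toAdd_one, nsmul_eq_mul] at h1
  exact (mul_eq_zero.1 h1).resolve_left (Nat.cast_ne_zero.2 hk.ne')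

/-- The elements that fix all conjugates of `ψ` on `H`. -/
def caseaC {G : Type} [Group G] (H : Subgroup G) (hH : H.Normal) (ψ : G → ℂ) : Subgroup G where
  carrier := {γ | ∀ d, ∀ h ∈ H, ψ (d⁻¹ * (γ⁻¹ * h * γ) * d) = ψ (d⁻¹ * h * d)}
  one_mem' := fun d h _ => by rw [inv_one, one_mul, mul_one]
  mul_mem' := by
    intro x y hx hy d h hh
    rw [show (x * y)⁻¹ * h * (x * y) = y⁻¹ * (x⁻¹ * h * x) * y by group,
      hy d _ (hH.conj_mem' h hh x), hx d h hh]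
  inv_mem' := by
    intro x hx d h hh
    have h1 := hx d _ (hH.conj_mem h hh x)
    rw [show x⁻¹ * (x * h * x⁻¹) * x = h by group] at h1
    rw [inv_inv, h1]

theorem caseaC_normal {G : Type} [Group G] (H : Subgroup G) (hH : H.Normal) (ψ : G → ℂ) :
    (caseaC H hH ψ).Normal := ⟨fun x hx y d h hh => by
  have h1 := hx (y⁻¹ * d) _ (hH.conj_mem' h hh y)
  rw [show (y⁻¹ * d)⁻¹ * (y⁻¹ * h * y) * (y⁻¹ * d) = d⁻¹ * h * d by group] at h1
  rw [← h1]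
  congr 1
  group⟩

/-- `k = Kf (D + 1) (D + 1)` with `D = (r * r * (r * r) * 2) ^ (r * r)!`. All blocks of `B` have size
one; if all the scalars of `Blk.scalar` have finite order use `tor_finite`. Otherwise let
`σ h₀ * e = c₀ • e` with `c₀` of infinite order, `v` from `exists_addchar`, `δ, m` from
`exists_detchar`, `ψ = v ∘ δ` on `G₁ = stabR σ e ≥ H`, extended by `ψ' x = 0` outside `G₁`. Let `C` be
the normal subgroup of the `γ` with `ψ' (d⁻¹ * γ⁻¹ * h * γ * d) = ψ' (d⁻¹ * h * d)` for all `d` and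
all `h ∈ H`, and `Z` the members of `B` that commute with `σ '' C`. `Z` is not scalar: the orbit sum
`z` of `e` under `C` has `e * z = e`, so it would be `1`; by `tor_spec` every eigenvalue `μ` of
`σ h₀` has `σ (γ⁻¹ * h₀ * γ) * e = μ • e` for some `γ ∈ C`, so `m * v μ = ψ h₀`; with `exists_eig`,
`m * v (det) = r * ψ h₀ ≠ 0`, but the determinant has finite order. The function `φ` of
`RepC.ind_pow` for `repC_add ψ` vanishes on loops; `escape` (for `M`, `IsLoop.mono`) with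
`P x = ∃ y ∈ Z, σ x * y ≠ y * σ x` gives `N` with `ψ = 0` on `N ⊓ G₁`; commutators of `N` and `H` lie
in `N ⊓ H`, so `N ≤ C`, against `P`. -/
theorem caseA (r : ℕ) [NeZero r] : ∃ k : ℕ, ∀ (n : ℕ) (Mov : Finset (Fin n)) (L0 : List (Fin n))
    (G : Type) [Group G] (g : Fin n → G) (σ : G →* Mt r), L0.Nodup → (∀ a, a ∈ L0) →
    Subgroup.closure (Set.range g) = ⊤ → Function.Injective σ → IrrR σ →
    (∀ x, IsOfFinOrder (σ x).det) → (∀ x, IsLoop Mov L0 g x → IsOfFinOrder x) →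
    (∀ Z : Subalgebra ℂ (Mt r), InvR σ Z → (∃ x ∈ Z, ¬ Scl x) →
      ∃ M ⊆ Mov, k ≤ M.card ∧ ∀ a ∈ M, ∃ x ∈ Z, σ (g a) * x ≠ x * σ (g a)) →
    ∀ (H : Subgroup G) (B : Subalgebra ℂ (Mt r)), H.Normal → H.FiniteIndex → InvR σ B → CommA B →
    (∀ γ ∈ H, σ γ ∈ B) → Finite G := by
  classical
  refine ⟨Kf ((r * r * (r * r) * 2) ^ (r * r).factorial + 1)
    ((r * r * (r * r) * 2) ^ (r * r).factorial + 1),
    fun n Mov L0 G _ g σ h0 hall hg hi hI hd hl hZ H B hHn hHf hB hc hHB => ?_⟩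
  have : Group.FG G := ⟨⟨Finset.univ.image g, by
    rw [Finset.coe_image, Finset.coe_univ, Set.image_univ, hg]⟩⟩
  obtain ⟨d, s, b, hb⟩ := exists_blocks hI B hB
  have hs : ∀ i, s i = 1 := fun i => (b i).eq_one fun y z => hc _ ((b i).mem y) _ ((b i).mem z)
  by_cases hfin : ∀ γ ∈ H, ∀ i, ∃ c : ℂ, IsOfFinOrder c ∧ σ γ * (b i).φ 1 = c • (b i).φ 1
  · exact tor_finite hi H _ (fun i => (b i).ne_zero) hb hfin
  exfalso
  push Not at hfin
  obtain ⟨h₀, hh₀, i, hni⟩ := hfin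
  obtain ⟨c₀, hc₀⟩ := (b i).scalar (hs i) (hHB _ hh₀)
  have hsc : ∀ γ ∈ H, ∃ c : ℂ, σ γ * (b i).φ 1 = c • (b i).φ 1 := fun γ hγ =>
    (b i).scalar (hs i) (hHB _ hγ)
  have he0 := (b i).ne_zero
  have he1 := (b i).idem
  have heo := (b i).orth hB
  have heB := (b i).mem 1
  have hn0 := fun h => hni c₀ h hc₀
  generalize (b i).φ 1 = e at hc₀ hsc he0 he1 heo heB
  have hc0 := (tor_eig he0 hc₀).1
  obtain ⟨v, hv⟩ := exists_addchar (z := Units.mk0 c₀ hc0) fun h => hn0 (Units.isOfFinOrder_val.2 h)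
  obtain ⟨δ, m, hm, hδ⟩ := exists_detchar σ he0
  obtain ⟨hfi, hidx⟩ := orth_index he0 he1 heo
  have hHG : ∀ γ ∈ H, γ ∈ stabR σ e := fun γ hγ => hc _ (hHB γ hγ) _ heB
  obtain ⟨hpow, φ, hφ, hφe⟩ := RepC.ind_pow (stabR σ e) hidx (repC_add (v.comp δ))
  obtain ⟨ψ, hψ⟩ : ∃ ψ : G → ℂ, ∀ x (h : x ∈ stabR σ e), ψ x = (v (δ ⟨x, h⟩)).toAdd :=
    ⟨fun x => if h : x ∈ stabR σ e then (v (δ ⟨x, h⟩)).toAdd else 0, fun x h => dif_pos h⟩
  have hψm : ∀ x ∈ stabR σ e, ∀ y ∈ stabR σ e, ψ (x * y) = ψ x + ψ y := fun x hx y hy => by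
    rw [hψ x hx, hψ y hy, hψ _ (mul_mem hx hy), ← toAdd_mul, ← map_mul, ← map_mul]
    rfl
  have hψc : ∀ x ∈ H, ∀ c : ℂˣ, σ x * e = (c : ℂ) • e → ψ x = m * (v c).toAdd :=
    fun x hx c h => by
      rw [hψ x (hHG x hx), hδ ⟨x, hHG x hx⟩ c h, map_pow, toAdd_pow, nsmul_eq_mul]
  have hCn := caseaC_normal H hHn ψ
  set C := caseaC H hHn ψ with hC
  let Z : Subalgebra ℂ (Mt r) := B ⊓ Subalgebra.centralizer ℂ (σ '' (C : Set G))
  have hZm : ∀ x, x ∈ Z ↔ x ∈ B ∧ ∀ γ ∈ C, σ γ * x = x * σ γ := fun x => by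
    simp only [Z, Algebra.mem_inf, Subalgebra.mem_centralizer_iff, Set.forall_mem_image,
      SetLike.mem_coe]
  have hZi : InvR σ Z := fun γ x hx => by
    obtain ⟨k1, k2⟩ := (hZm x).1 hx
    refine (hZm _).2 ⟨hB γ x k1, fun c hcC => ?_⟩
    have k3 := k2 _ (hCn.conj_mem' c hcC γ)
    calc σ c * (σ γ * x * σ γ⁻¹) = σ γ * (σ (γ⁻¹ * c * γ) * x) * σ γ⁻¹ := by
          rw [← Matrix.mul_assoc, ← Matrix.mul_assoc, ← Matrix.mul_assoc, ← map_mul, ← map_mul]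
          congr 3
          group
      _ = σ γ * x * σ γ⁻¹ * σ c := by
          rw [k3, Matrix.mul_assoc, Matrix.mul_assoc, Matrix.mul_assoc, Matrix.mul_assoc, ← map_mul,
            ← map_mul]
          congr 3
          group
  have hZn : ∃ x ∈ Z, ¬ Scl x := by
    obtain ⟨z, k1, k2, k3⟩ := orbit_sum (σ := σ) C heo he1 fun γ _ h => h
    have hSB : ∀ f ∈ {x : Mt r | ∃ γ ∈ C, x = σ γ * e * σ γ⁻¹}, f ∈ B := by
      rintro _ ⟨γ, -, rfl⟩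
      exact hB γ e heB
    refine ⟨z, (hZm z).2 ⟨(Submodule.span_le (p := Subalgebra.toSubmodule B)).2 hSB k1, k2⟩, ?_⟩
    rintro ⟨a, rfl⟩
    have ha : a = 1 := by
      rw [Matrix.mul_smul, Matrix.mul_one] at k3
      exact smul_left_injective ℂ he0 (k3.trans (one_smul ℂ e).symm)
    rw [ha, one_smul] at k1
    obtain ⟨w, -, w2, w3⟩ := exists_eig (σ h₀)
    have key : ∀ j, ∃ u : ℂˣ, (u : ℂ) = w j ∧ (v u).toAdd = (v (Units.mk0 c₀ hc0)).toAdd := by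
      intro j
      obtain ⟨_, ⟨γ, hγ, rfl⟩, k4⟩ :=
        tor_spec k1 (fun f hf => hc _ (hHB _ hh₀) _ (hSB f hf)) (w3 j)
      have k5 := hHn.conj_mem' h₀ hh₀ γ
      obtain ⟨c, k6⟩ := hsc _ k5
      have k7 : c = w j := k4 c (by
        rw [← Matrix.smul_mul, ← Matrix.mul_smul, ← k6, ← Matrix.mul_assoc, ← Matrix.mul_assoc,
          ← Matrix.mul_assoc, ← map_mul, ← map_mul]
        congr 3
        group)
      refine ⟨Units.mk0 c (tor_eig he0 k6).1, k7, ?_⟩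
      have k8 := hγ 1 h₀ hh₀
      rw [inv_one, one_mul, mul_one, one_mul, mul_one, hψc _ k5 (Units.mk0 c (tor_eig he0 k6).1) k6,
        hψc _ hh₀ (Units.mk0 c₀ hc0) hc₀] at k8
      exact mul_left_cancel₀ (Nat.cast_ne_zero.2 hm.ne') k8
    choose u u1 u2 using key
    have k4 : IsOfFinOrder (∏ j, u j) := by
      refine Units.isOfFinOrder_val.1 ?_
      rw [Units.coe_prod, Finset.prod_congr rfl fun j _ => u1 j, ← w2]
      exact hd h₀
    have k5 := casea_tors (v.isOfFinOrder k4)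
    rw [map_prod, toAdd_prod, Finset.sum_congr rfl fun j _ => u2 j, Finset.sum_const,
      Finset.card_univ, Fintype.card_fin, nsmul_eq_mul] at k5
    exact hv (toAdd_eq_zero.1 ((mul_eq_zero.1 k5).resolve_left (Nat.cast_ne_zero.2 (NeZero.ne r))))
  obtain ⟨M, hM1, hM2, hM3⟩ := hZ Z hZi hZn
  obtain ⟨N, hN, ⟨x, hx, y, hy, hne⟩, hN0⟩ := escape (Mov := M) h0 hall hg
    (fun x => ∃ y ∈ Z, σ x * y ≠ y * σ x) (by
      rintro γ x ⟨y, hy, hne⟩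
      refine ⟨_, hZi γ y hy, fun h => hne ?_⟩
      have k1 := congrArg (fun w => σ γ⁻¹ * w * σ γ) h
      simp only [map_mul, Matrix.mul_assoc, rep_inv_mul, Matrix.mul_one] at k1
      simpa only [← Matrix.mul_assoc, rep_inv_mul, Matrix.one_mul] using k1) hM3 hM2 hφ
    (fun x hx => by
      rw [hφe x ⟨_, hpow x⟩ rfl]
      refine casea_tors ((v.comp δ).isOfFinOrder ?_)
      exact (stabR σ e).subtype_injective.isOfFinOrder_iff.1 ((hl x (hx.mono hM1)).pow))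
  refine hne (((hZm y).1 hy).2 x fun d h hh => ?_)
  have k1 := hHn.conj_mem' h hh d
  have k2 := hN.conj_mem' x hx d
  have k3 : (d⁻¹ * x * d)⁻¹ * (d⁻¹ * h * d) * (d⁻¹ * x * d) * (d⁻¹ * h * d)⁻¹ ∈ H :=
    mul_mem (hHn.conj_mem' _ k1 _) (inv_mem k1)
  have k4 : (d⁻¹ * x * d)⁻¹ * (d⁻¹ * h * d) * (d⁻¹ * x * d) * (d⁻¹ * h * d)⁻¹ ∈ N := by
    rw [mul_assoc, mul_assoc, ← mul_assoc (d⁻¹ * h * d)]
    exact mul_mem (inv_mem k2) (hN.conj_mem _ k2 _)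
  have k5 : d⁻¹ * (x⁻¹ * h * x) * d = (d⁻¹ * x * d)⁻¹ * (d⁻¹ * h * d) * (d⁻¹ * x * d) *
      (d⁻¹ * h * d)⁻¹ * (d⁻¹ * h * d) := by group
  rw [k5, hψm _ (hHG _ k3) _ (hHG _ k1), add_eq_right]
  generalize (d⁻¹ * x * d)⁻¹ * (d⁻¹ * h * d) * (d⁻¹ * x * d) * (d⁻¹ * h * d)⁻¹ = κ at k3 k4
  have k6 := hN0 κ k4
  rw [hφe κ (⟨κ, hHG κ k3⟩ ^ (r * r).factorial) rfl, map_pow, toAdd_pow, nsmul_eq_mul] at k6
  rw [hψ κ (hHG κ k3)]
  exact (mul_eq_zero.1 k6).resolve_left (Nat.cast_ne_zero.2 (Nat.factorial_ne_zero _))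

end Pool.Agent.GR
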