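import Pool.Agent.Lib.MP_aa40d3_nt.MG.CaseA
import Pool.Agent.Lib.MP_aa40d3_nt.MG.CaseB
import Pool.Agent.Lib.MP_aa40d3_nt.MR.Link

/-! The monodromy group is finite. -/

open Matrix

namespace Pool.Agent.GR

theorem group_finiteR (r : ℕ) [NeZero r] : ∃ k : ℕ, ∀ (n : ℕ) (Mov : Finset (Fin n))
    (g : Fin n → GLr r) (ε : Fin n → Fin r → ℂ) (ρ : Fin n → ℝ), Function.Injective ρ →
    (∀ a, IsOfFinOrder (g a)) → IrrT g → LoopsM Mov ρ g ε →
    (∀ Z : Subalgebra ℂ (Mt r),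
      (∀ γ ∈ Subgroup.closure (Set.range g), ∀ x ∈ Z, γ.val * x * (γ⁻¹).val ∈ Z) →
      (∃ x ∈ Z, ¬ Scl x) →
      ∃ M ⊆ Mov, k ≤ M.card ∧ ∀ a ∈ M, ∃ x ∈ Z, (g a).val * x ≠ x * (g a).val) →
    Finite (Subgroup.closure (Set.range g)) := by
  classical
  obtain ⟨k₁, hA⟩ := caseA r
  obtain ⟨k₂, hB⟩ := caseB r
  refine ⟨max k₁ k₂, fun n Mov g ε ρ hρ hfo hI ho hZ => ?_⟩
  obtain ⟨L0, h1, h2⟩ := exists_lowerL hρ Finset.univ fun _ _ _ _ => Finset.mem_univ _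
  have h0 : L0.Nodup := h1.1.imp fun hab e => hab.ne (congrArg _ e)
  have hall : ∀ a, a ∈ L0 := fun a => List.mem_toFinset.1 (h2 ▸ Finset.mem_univ a)
  have hS := ho.loopsS h1
  set Γ := Subgroup.closure (Set.range g) with hΓ
  let g' : Fin n → Γ := fun a => ⟨g a, Subgroup.subset_closure ⟨a, rfl⟩⟩
  have hg : Subgroup.closure (Set.range g') = ⊤ := by
    apply Subgroup.map_injective Γ.subtype_injective
    rw [MonoidHom.map_closure, ← Set.range_comp, ← MonoidHom.range_eq_map, Subgroup.range_subtype]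
    rfl
  have hI' : IrrR (incl Γ) := fun U hU => hI U fun a => hU (g' a)
  have hl : ∀ x, IsLoop Mov L0 g' x → IsOfFinOrder x := fun x hx => by
    obtain ⟨l, R, h, k1, k2, k3⟩ := hx.map Γ.subtype
    have k4 := (hS l R h k1 k2).1
    rw [← k3] at k4
    exact (incl_inj Γ).isOfFinOrder_iff.1 k4
  have hd : ∀ x, IsOfFinOrder (incl Γ x).det := fun x => by
    have hx : x ∈ Subgroup.closure (Set.range g') := hg ▸ Subgroup.mem_top x
    induction hx using Subgroup.closure_induction with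
    | mem y hy =>
      obtain ⟨a, rfl⟩ := hy
      exact (detMonoidHom.comp (Units.coeHom (Mt r))).isOfFinOrder (hfo a)
    | one => rw [map_one, det_one]; exact IsOfFinOrder.one
    | mul y z _ _ hy hz => rw [map_mul, det_mul]; exact hy.mul hz
    | inv y _ hy =>
      obtain ⟨m, hm, e⟩ := isOfFinOrder_iff_pow_eq_one.1 hy
      refine isOfFinOrder_iff_pow_eq_one.2 ⟨m, hm, ?_⟩
      have h3 := congrArg (fun w => w.det ^ m) (rep_mul_inv (incl Γ) y)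
      simpa only [det_mul, mul_pow, e, one_mul, det_one, one_pow] using h3
  have hZ' : ∀ Z : Subalgebra ℂ (Mt r), InvR (incl Γ) Z → (∃ x ∈ Z, ¬ Scl x) →
      ∃ M ⊆ Mov, max k₁ k₂ ≤ M.card ∧
        ∀ a ∈ M, ∃ x ∈ Z, incl Γ (g' a) * x ≠ x * incl Γ (g' a) :=
    fun Z h3 h4 => hZ Z (fun γ hγ => h3 ⟨γ, hγ⟩) h4
  obtain ⟨H, hH1, hH2, hH3⟩ := exists_coreR (incl Γ)
  obtain ⟨B, hBm⟩ := spR_alg (incl Γ) H
  have hBi : InvR (incl Γ) B := fun γ x hx => (hBm _).2 (spR_inv H γ ((hBm x).1 hx))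
  by_cases hc : CommA B
  · refine hA n Mov L0 Γ g' (incl Γ) h0 hall hg (incl_inj Γ) hI' hd hl (fun Z h3 h4 => ?_) H B hH1
      hH2 hBi hc fun γ hγ => (hBm _).2 (Submodule.subset_span ⟨γ, hγ, rfl⟩)
    obtain ⟨M, k1, k2, k3⟩ := hZ' Z h3 h4
    exact ⟨M, k1, (le_max_left _ _).trans k2, k3⟩
  · exfalso
    obtain ⟨A, a1, a2, a3, a4⟩ := exists_minA B hBi hc
    obtain ⟨s, hs, ⟨b⟩⟩ := exists_big_block hI' a2 a3
    obtain ⟨M, k1, k2, k3⟩ := hZ' A a2 (by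
      by_contra h3
      push Not at h3
      refine a3 fun x hx y _ => ?_
      obtain ⟨c, rfl⟩ := h3 x hx
      rw [Matrix.smul_mul, Matrix.mul_smul, Matrix.one_mul, Matrix.mul_one])
    obtain ⟨H', k4, k5⟩ := hB n M L0 Γ g' (incl Γ) h0 hall hg (fun x hx => hl x (hx.mono k1)) A s b
      hs a2 a4 (fun A' k6 k7 x hx y hy => by
        obtain ⟨H'', k8, k9⟩ := comm_index hI' k6 k7
        exact spR_comm (fun γ hγ => k9 γ hγ y hy) (hH3 H'' k8 ((hBm x).1 (a1 hx))))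
      ((le_max_right _ _).trans k2) k3
    have h3 := b.eq_one fun y z =>
      spR_comm (fun γ hγ => k5 γ hγ z) (hH3 H' k4 ((hBm _).1 (a1 (b.mem y))))
    omega

end Pool.Agent.GR
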