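import Pool.Agent.Lib.MP_aa40d3_nt.MG.Stmt
import Pool.Agent.Lib.MP_aa40d3_nt.MR.PrimA

/-! Affine changes of the variable. -/

open Polynomial Matrix

namespace Pool.Agent.GR

variable {n r : ℕ}

/-- Model: `Prim.aff` (`MR/PrimA.lean`). With `M = φ.mapMatrix` take `W = {Φ | M Φ ∈ W'}`; the value
of `M Φ` at `t' i` is the value of `Φ` at `t i`. -/
theorem ManyRam.aff {k : ℕ} {M : Finset (Fin n)} {t t' : Fin n → ℂ} {c b : ℂ} (hc : c ≠ 0)
    (ht : ∀ i, t i = c * t' i + b) {A : Fin n → Matrix (Fin r) (Fin r) ℂ} (h : ManyRam k M t A) :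
    ManyRam k M t' A := by
  intro W' hW' hns
  have : Invertible c := invertibleOfNonzero hc
  let φ : ℂ[X] →+* ℂ[X] := compRingHom (C c * X + C b)
  have hφ : ∀ q, φ q = q.comp (C c * X + C b) := fun q => rfl
  have hψ : ∀ q : ℂ[X], algEquivCMulXAddC c b q = φ q := fun q => by
    rw [algEquivCMulXAddC_apply, hφ, comp_eq_aeval]
  let N : Matrix (Fin r) (Fin r) ℂ[X] →+* Matrix (Fin r) (Fin r) ℂ[X] := φ.mapMatrix
  have hN : ∀ Φ x y, N Φ x y = φ (Φ x y) := fun Φ x y => rfl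
  have hsm : ∀ (q : ℂ[X]) Φ, N (q • Φ) = φ q • N Φ := fun q Φ => Matrix.ext fun x y => by
    rw [hN, Matrix.smul_apply, Matrix.smul_apply, smul_eq_mul, smul_eq_mul, map_mul, hN]
  have hs : ∀ Ψ, ∃ Φ, N Φ = Ψ := fun Ψ =>
    ⟨Ψ.map (algEquivCMulXAddC c b).symm, Matrix.ext fun x y => by
      rw [hN, Matrix.map_apply, ← hψ, AlgEquiv.apply_symm_apply]⟩
  have h2 : (C c : ℂ[X]) • N (pm t A) = (C c ^ n : ℂ[X]) • pm t' A :=
    Matrix.ext fun x y => aff_pm ht A x y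
  have h3 : ∀ Φ, (N Φ).map derivative = (C c : ℂ[X]) • N (Φ.map derivative) := fun Φ =>
    Matrix.ext fun x y => by
      rw [Matrix.map_apply, Matrix.smul_apply, hN, hN, Matrix.map_apply, hφ, hφ, derivative_comp,
        derivative_add, derivative_C, derivative_C_mul_X, add_zero, smul_eq_mul]
  let W : Subalgebra ℂ[X] (Matrix (Fin r) (Fin r) ℂ[X]) :=
    { W'.toSubsemiring.comap N with
      algebraMap_mem' := fun q => by
        change N (algebraMap _ _ q) ∈ W'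
        rw [Algebra.algebraMap_eq_smul_one, hsm, map_one]
        exact W'.smul_mem W'.one_mem _ }
  have hmem : ∀ Φ, Φ ∈ W ↔ N Φ ∈ W' := fun Φ => Iff.rfl
  obtain ⟨Ψ, hΨ, hΨ'⟩ := hns
  obtain ⟨Φ, rfl⟩ := hs Ψ
  obtain ⟨M', hM', hk, hr⟩ := h W ⟨fun Φ hΦ => by
    rw [hmem] at hΦ ⊢
    have h1 := W'.smul_mem (W'.smul_mem (hW'.1 _ hΦ) (C c ^ n)) (C c⁻¹)
    have e : (C c ^ n : ℂ[X]) • (dl t' • (N Φ).map derivative - (pm t' A * N Φ - N Φ * pm t' A)) =
        (C c : ℂ[X]) • N (dl t • Φ.map derivative - (pm t A * Φ - Φ * pm t A)) := by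
      rw [map_sub, map_sub, map_mul, map_mul, hsm, hφ, aff_dl ht, h3, smul_sub, smul_sub, smul_sub,
        smul_sub, ← Matrix.smul_mul, ← Matrix.smul_mul (C c), ← Matrix.mul_smul,
        ← Matrix.mul_smul _ (C c), h2, smul_smul, smul_smul, smul_smul, mul_comm (C c)]
    rwa [e, smul_smul, ← map_mul, inv_mul_cancel₀ hc, map_one, one_smul] at h1,
    fun f Φ hf hΦ => by
      rw [hmem] at hΦ ⊢
      rw [hsm] at hΦ
      refine hW'.2 _ _ (fun h0 => hf ?_) hΦ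
      exact (algEquivCMulXAddC c b).injective (by rw [hψ, h0, map_zero])⟩
    ⟨Φ, hΨ, fun q hq => hΨ' (φ q) (by rw [hq, hsm, map_one])⟩
  refine ⟨M', hM', hk, fun i hi => ?_⟩
  obtain ⟨Θ, hΘ, hΘ'⟩ := hr i hi
  refine ⟨N Θ, hΘ, ?_⟩
  have e : (N Θ).map (eval (t' i)) = Θ.map (eval (t i)) := Matrix.ext fun x y => by
    rw [Matrix.map_apply, Matrix.map_apply, hN, hφ, eval_comp, ht i, eval_add, eval_mul, eval_C,
      eval_X, eval_C]
  rwa [e]

end Pool.Agent.GR
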