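import Pool.Agent.Lib.MP_aa40d3_nt.MR.PrimT

/-! Commutation with the local monodromy passes to the singular point. -/

open Polynomial Matrix Set Filter Topology
open scoped Matrix.Norms.Operator

namespace Pool.Agent.GR

variable {n r : ℕ} [NeZero r]

theorem raml_cont {𝔸 : Type} [NormedRing 𝔸] [NormedAlgebra ℂ 𝔸] {g : ℝ → C(unitInterval, ℂ)}
    {B : ℝ → 𝔸} (hg : ContinuousAt g 0) (hB : ContinuousAt B 0) (hu : IsUnit (g 0)) :
    ContinuousAt (fun ρ => (Ring.inverse (g ρ) • ContinuousMap.const unitInterval (B ρ) :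
      C(unitInterval, 𝔸))) 0 := by
  obtain ⟨u, hu⟩ := hu
  have h1 : ContinuousAt (Ring.inverse : C(unitInterval, ℂ) → C(unitInterval, ℂ)) (g 0) := by
    rw [← hu]
    exact NormedRing.inverse_continuousAt u
  have h2 : ContinuousAt (fun ρ => Ring.inverse (g ρ)) 0 := ContinuousAt.comp (f := g) h1 hg
  let L : C(unitInterval, ℂ) →L[ℂ] C(unitInterval, 𝔸) :=
    (ContinuousLinearMap.toSpanSingleton ℂ (1 : 𝔸)).compLeftContinuous ℂ unitInterval
  let K : 𝔸 →L[ℂ] C(unitInterval, 𝔸) := ContinuousLinearMap.const ℂ unitInterval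
  have h3 := (L.continuous.continuousAt.comp h2).mul (K.continuous.continuousAt.comp hB)
  refine h3.congr (Filter.Eventually.of_forall fun y => ?_)
  ext s
  show ((Ring.inverse (g y) : C(unitInterval, ℂ)) s • (1 : 𝔸)) * B y =
    (Ring.inverse (g y) : C(unitInterval, ℂ)) s • B y
  rw [smul_mul_assoc, one_mul]

theorem raml_inv {g : C(unitInterval, ℂ)} (hg : IsUnit g) (s : unitInterval) :
    (Ring.inverse g : C(unitInterval, ℂ)) s = (g s)⁻¹ :=
  eq_inv_of_mul_eq_one_left (DFunLike.congr_fun (Ring.inverse_mul_cancel _ hg) s)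

theorem raml_side {𝔸 : Type} [NormedRing 𝔸] [NormedAlgebra ℂ 𝔸] [CompleteSpace 𝔸]
    {t : Fin n → ℂ} (ht : Function.Injective t) (A : Fin n → 𝔸) (i : Fin n) {a b : ℂ}
    (ha : a ≠ 0) (hb : b = Complex.I * a) :
    Tendsto (fun ρ : ℝ => T t A (t i + ρ * a) (t i + ρ * b)) (𝓝[>] 0)
      (𝓝 (T ![0] ![A i] (0 + 1 * a) (0 + 1 * b))) := by
  classical
  have hl : ∀ s, lin a b s ≠ 0 := fun s => holo_ne (b := b) ha (by rw [sub_zero, sub_zero, hb]) (by
    rw [segment_eq_image']
    exact ⟨s, s.2, by simp [lin]⟩)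
  have hu : IsUnit (lin a b) := (ContinuousMap.isUnit_iff_forall_ne_zero _).2 hl
  let F : Fin n → ℝ → C(unitInterval, 𝔸) := fun j ρ =>
    if j = i then Ring.inverse (lin a b) • ContinuousMap.const unitInterval ((b - a) • A i)
    else Ring.inverse ((ρ : ℂ) • lin a b + ContinuousMap.const unitInterval (t i - t j)) •
      ContinuousMap.const unitInterval (((ρ : ℂ) * (b - a)) • A j)
  have hF : ∀ j, ContinuousAt (F j) 0 := fun j => by
    by_cases hj : j = i
    · simp only [F, if_pos hj]
      exact continuousAt_const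
    · simp only [F, if_neg hj]
      refine raml_cont (by fun_prop) (by fun_prop) ?_
      rw [ContinuousMap.isUnit_iff_forall_ne_zero]
      intro s
      simpa [sub_eq_zero] using fun h => hj (ht h).symm
  have h0 : ∑ j, F j 0 = coef ![0] ![A i] (0 + 1 * a) (0 + 1 * b) := by
    rw [Finset.sum_eq_single i (fun j _ hj => ?_) (by simp)]
    · simp [F, coef]
    · simp only [F, if_neg hj]
      ext s
      simp
  have h1 : ContinuousAt (fun ρ => ∑ j, F j ρ) 0 := tendsto_finsetSum _ fun j _ => hF j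
  have h2 := ((differentiable_Tr (𝔸 := 𝔸)).continuous.continuousAt.comp h1).tendsto
  simp only [Function.comp_def, h0] at h2
  refine (h2.mono_left nhdsWithin_le_nhds).congr' ?_
  filter_upwards [self_mem_nhdsWithin] with ρ hρ
  have hρ' : (ρ : ℂ) ≠ 0 := Complex.ofReal_ne_zero.2 (ne_of_gt hρ)
  unfold T coef
  congr 1
  refine Finset.sum_congr rfl fun j _ => ?_
  have e1 : lin (t i + ρ * a) (t i + ρ * b) - ContinuousMap.const unitInterval (t j) =
      (ρ : ℂ) • lin a b + ContinuousMap.const unitInterval (t i - t j) := by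
    ext s
    show t i + ρ * a + (s : ℝ) * (t i + ρ * b - (t i + ρ * a)) - t j =
      ρ * (a + (s : ℝ) * (b - a)) + (t i - t j)
    ring
  have e2 : t i + ρ * b - (t i + ρ * a) = ρ * (b - a) := by ring
  rw [e1, e2]
  by_cases hj : j = i
  · subst hj
    simp only [F, if_true]
    have hu' : IsUnit ((ρ : ℂ) • lin a b + ContinuousMap.const unitInterval (t j - t j)) := by
      rw [ContinuousMap.isUnit_iff_forall_ne_zero]
      intro s
      simpa using ⟨ne_of_gt hρ, hl s⟩
    ext s
    show (Ring.inverse (lin a b) : C(unitInterval, ℂ)) s • ((b - a) • A j) =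
      (Ring.inverse ((ρ : ℂ) • lin a b + ContinuousMap.const unitInterval (t j - t j)) :
        C(unitInterval, ℂ)) s • (((ρ : ℂ) * (b - a)) • A j)
    rw [raml_inv hu, raml_inv hu', smul_smul, smul_smul]
    congr 1
    have := hl s
    simp only [sub_self, ContinuousMap.add_apply, ContinuousMap.smul_apply,
      ContinuousMap.const_apply, smul_eq_mul, add_zero]
    field_simp
  · simp only [F, if_neg hj]

/-- On the side from `t i + ρ * a` to `t i + ρ * b` the coefficient `coef` is the coefficient of the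
Euler system `![t i], ![A i]` for `ρ = 1` plus `ρ` times terms that are continuous at `ρ = 0`
(`coef_apply`, `NormedRing.inverse_continuousAt`, or a direct uniform estimate); `Tr` is continuous
(`differentiable_Tr`); `sqLoop_euler`. -/
theorem sqLoop_tendsto {t : Fin n → ℂ} (ht : Function.Injective t) (A : Fin n → Mat r) (i : Fin n) :
    Tendsto (fun ρ : ℝ => sqLoop t A (t i) ρ) (𝓝[>] 0)
      (𝓝 (NormedSpace.exp ((2 * Real.pi * Complex.I : ℂ) • A i))) := by
  have h0 : NormedSpace.exp ((2 * Real.pi * Complex.I : ℂ) • A i) = sqLoop ![0] ![A i] 0 1 :=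
    (sqLoop_euler (A i) 0 one_ne_zero).symm
  rw [h0]
  have n1 : (-1 - Complex.I : ℂ) ≠ 0 := by intro h; have := congrArg Complex.re h; simp at this
  have n2 : (1 - Complex.I : ℂ) ≠ 0 := by intro h; have := congrArg Complex.re h; simp at this
  have n3 : (1 + Complex.I : ℂ) ≠ 0 := by intro h; have := congrArg Complex.re h; simp at this
  have n4 : (-1 + Complex.I : ℂ) ≠ 0 := by intro h; have := congrArg Complex.re h; simp at this
  have hI : Complex.I * Complex.I = -1 := Complex.I_mul_I
  unfold sqLoop loop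
  exact (((raml_side ht A i n4 (by linear_combination -hI)).mul
    (raml_side ht A i n3 (by linear_combination -hI))).mul
    (raml_side ht A i n2 (by linear_combination hI))).mul
    (raml_side ht A i n1 (by linear_combination hI))

omit [NeZero r] in
theorem raml2_diff (Φ : Matrix (Fin r) (Fin r) ℂ[X]) (x : ℂ) :
    DifferentiableAt ℂ (fun y => (Φ.map (eval y) : Mat r)) x :=
  (hasDerivAt_mat.2 fun a b => (Φ a b).hasDerivAt x : HasDerivAt
    (fun y => (Φ.map (eval y) : Mat r)) ((Φ.map derivative).map (eval x)) x).differentiableAt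

/-- The function `y ↦ adjugate (Yb y) * Φ y * Yb y * g - g * adjugate (Yb y) * Φ y * Yb y` is analytic
at the points of the vertical line through `x` (`differentiableAt_Yb` on the open set of the `y`
with `(t j).re ≠ y.re`), and it vanishes below all singular points (`Yb_eq_T`);
`AnalyticOnNhd.eqOn_zero_of_preconnected_of_eventuallyEq_zero` on the line. -/
theorem comm_vertical {t : Fin n → ℂ} (A : Fin n → Mat r) {H : ℝ} (hb : InBox (pp t) H)
    (Φ : Matrix (Fin r) (Fin r) ℂ[X]) (g : Mat r)
    (h : ∀ y : ℂ, (∀ j, y.im < (t j).im) → ∃ z : Mat r, g * z = z * g ∧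
      Φ.map (eval y) * T t A (cpt (-H, -H)) y = T t A (cpt (-H, -H)) y * z)
    {x : ℂ} (hx : ∀ j, (t j).re ≠ x.re) :
    ∃ z : Mat r, g * z = z * g ∧ Φ.map (eval x) * Yb t A H x = Yb t A H x * z := by
  have hu : ∀ y, IsUnit (Yb t A H y) := fun y => Units.isUnit _
  let W : ℂ → Mat r := fun y => Ring.inverse (Yb t A H y) * (Φ.map (eval y) * Yb t A H y)
  have ho : IsOpen {y : ℂ | ∀ j, (t j).re ≠ y.re} := by
    rw [Set.ofPred_forall]
    exact isOpen_iInter_of_finite fun j => isOpen_ne_fun continuous_const Complex.continuous_re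
  have hd : DifferentiableOn ℂ (fun y => g * W y - W y * g) {y : ℂ | ∀ j, (t j).re ≠ y.re} := by
    intro y hy
    have h1 := differentiableAt_Yb A hb (x := y) fun j e => absurd e (hy j)
    have h2 : DifferentiableAt ℂ W y := (h1.inverse (hu y)).mul ((raml2_diff Φ y).mul h1)
    exact ((h2.const_mul g).sub (h2.mul_const g)).differentiableWithinAt
  have hc : Convex ℝ (Complex.reLm ⁻¹' {x.re}) := (convex_singleton _).linear_preimage _
  have hs : Complex.reLm ⁻¹' {x.re} ⊆ {y : ℂ | ∀ j, (t j).re ≠ y.re} :=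
    fun y hy j e => hx j (e.trans hy)
  have h0 := ((hd.analyticOnNhd ho).mono hs).eqOn_zero_of_preconnected_of_eventuallyEq_zero
    hc.isPreconnected (z₀ := ⟨x.re, -H - 1⟩) rfl (by
      filter_upwards [(isOpen_lt Complex.continuous_im continuous_const).mem_nhds
        (show (⟨x.re, -H - 1⟩ : ℂ).im < -H from sub_one_lt _)] with y hy
      have h1 : ∀ j, y.im < (t j).im := fun j => lt_trans hy (abs_lt.1 (hb j).2).1
      obtain ⟨z, h2, h3⟩ := h y h1
      rw [← Yb_eq_T A hb h1] at h3
      simp only [W, h3, Ring.inverse_mul_cancel_left _ _ (hu y), h2, sub_self, Pi.zero_apply])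
  exact ⟨W x, sub_eq_zero.1 (h0 (x := x) rfl), (Ring.mul_inverse_cancel_left _ _ (hu x)).symm⟩

/-- As in `isRefl_vt`: for small `ρ > 0`, `vt_eq_RL` and `RL_TT` show that `sqLoop t A (t i) ρ` is
the conjugate of the local monodromy by `Yb` at the corner `t i + ρ * (-1 - I)`; by `comm_vertical`
it commutes with the value of `Φ` there. Let `ρ` tend to zero. -/
theorem comm_exp {t : Fin n → ℂ} (ht : Function.Injective fun i => (t i).re) (A : Fin n → Mat r)
    {H : ℝ} (hb : InBox (pp t) H) (Φ : Matrix (Fin r) (Fin r) ℂ[X]) (i : Fin n)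
    (h : ∀ y : ℂ, (∀ j, y.im < (t j).im) → ∃ z : Mat r,
      (vt (TT t A) (pp t) H i).val * z = z * (vt (TT t A) (pp t) H i).val ∧
      Φ.map (eval y) * T t A (cpt (-H, -H)) y = T t A (cpt (-H, -H)) y * z) :
    Commute (NormedSpace.exp ((2 * Real.pi * Complex.I : ℂ) • A i)) (Φ.map (eval (t i))) := by
  have hti : Function.Injective t := fun i j hij => ht (by simp only [hij])
  obtain ⟨ε, hε, hval⟩ := exists_validAt ht i
  have him : |(t i).im| < H := (hb i).2
  have h1 := sqLoop_tendsto hti A i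
  have h2 : Tendsto (fun ρ : ℝ => (Φ.map (eval (t i + ρ * (-1 - Complex.I))) : Mat r)) (𝓝[>] 0)
      (𝓝 (Φ.map (eval (t i)))) := by
    refine (raml2_diff Φ (t i)).continuousAt.tendsto.comp (tendsto_nhdsWithin_of_tendsto_nhds ?_)
    have : Continuous fun ρ : ℝ => t i + ρ * (-1 - Complex.I) := by fun_prop
    simpa using this.tendsto 0
  refine tendsto_nhds_unique_of_eventuallyEq (h1.mul h2) (h2.mul h1) ?_
  filter_upwards [Ioo_mem_nhdsGT (lt_min hε (sub_pos.2 him))] with ρ hρ
  have hρ0 := hρ.1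
  have hρ1 := hρ.2.trans_le (min_le_left _ _)
  have hρ2 := hρ.2.trans_le (min_le_right _ _)
  have hv : ValidAt (fun j => (pp t j).1) i ((t i).re - ρ) ((t i).re + ρ) :=
    hval _ _ (by linarith) (by linarith) (by linarith) (by linarith)
  have l1 := le_abs_self (t i).im
  have l2 := neg_abs_le (t i).im
  have hvt := vt_eq_RL (rectT_TT t A) hb hv (y1 := (t i).im - ρ) (y2 := (t i).im + ρ)
    (by linarith) (by show _ < (t i).im; linarith) (by show (t i).im < _; linarith) (by linarith)
  have e0 : cpt ((t i).re - ρ, (t i).im - ρ) = t i + ρ * (-1 - Complex.I) := by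
    apply Complex.ext <;> simp [cpt] <;> ring
  obtain ⟨z, h3, h4⟩ := comm_vertical A hb Φ _ h (x := cpt ((t i).re - ρ, (t i).im - ρ))
    fun j e => by
      by_cases hj : j = i
      · exact hv.1.ne' (hj ▸ e)
      · exact hv.2.2 j hj ⟨e.ge, e.le.trans (hv.1.trans hv.2.1).le⟩
  set u := Ybot (TT t A) H ((t i).re - ρ, (t i).im - ρ)
  change Φ.map (eval (cpt ((t i).re - ρ, (t i).im - ρ))) * u.val = u.val * z at h4
  rw [hvt, Units.val_mul, Units.val_mul, RL_TT] at h3
  rw [← e0, (Units.eq_mul_inv_iff_mul_eq u).2 h4]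
  calc _ = u.val * ((u⁻¹).val * sqLoop t A (t i) ρ * u.val * z) * (u⁻¹).val := by
        simp only [mul_assoc, Units.mul_inv_cancel_left]
    _ = _ := by
        rw [h3]
        simp only [mul_assoc, Units.mul_inv, mul_one]

end Pool.Agent.GR
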