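import Pool.Agent.Lib.MP_aa40d3_nt.GR2.Final
import Pool.Agent.Lib.MP_aa40d3_nt.MG.Main
import Pool.Agent.Lib.MP_aa40d3_nt.MG.RamA
import Pool.Agent.Lib.MP_aa40d3_nt.MG.RamL
import Pool.Agent.Lib.MP_aa40d3_nt.MG.RamW
import Pool.Agent.Lib.MP_aa40d3_nt.MR.Path3
import Pool.Agent.Lib.MP_aa40d3_nt.MR.ModelEx3

/-! The theorem for irreducible systems that are ramified at many generic points. -/

open Polynomial Matrix Set
open scoped Matrix.Norms.Operator

namespace Pool.Agent.GR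

theorem core5 (r : ℕ) [NeZero r] : ∃ k : ℕ, ∀ (n : ℕ) (Mov : Finset (Fin n)) (t : Fin n → ℂ)
    (A : Fin n → Matrix (Fin r) (Fin r) ℂ), Gen Mov t → (Function.Injective fun i => (t i).re) →
    Irred t A → ManyRam k Mov t A → PC t A → AlgSol t A := by
  classical
  obtain ⟨k, hk⟩ := group_finiteR r
  refine ⟨k, fun n Mov t A ht hre hpr hq hpc => ?_⟩
  have hinj : Function.Injective t := fun i j h => hre (by simp only [h])
  obtain ⟨D, a, hD, hch⟩ := exps_rat2 hinj hpc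
  obtain ⟨M, w, θ, hMD, hMa, hZ, hF, hG, hw, hA⟩ :=
    exists_model3 hinj ht hD hch (cycH_ne_zero_of_irred hpr) hpc
  obtain ⟨κ, H0, hκ, hH0, hc, hb⟩ := exists_core Mov t
  generalize hHe : (1 + κ) * H0 = H at hb
  have hH : 0 < H := hHe ▸ mul_pos (by linarith) hH0
  have hwt : (fun i => w (Sum.inl i)) = t := funext hw
  have hmon : mon2 M.toModel2 H (w, θ) = vt (TT t A) (pp t) H := by
    simp only [mon2, hwt, hA]
  have hcham : w ∈ Cham M.m (fun i => (t i).re) H := by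
    refine ⟨by rw [hwt]; exact hb, fun a b hab => ?_⟩
    rw [hw, hw]; exact hab
  have ho : LoopsM Mov (fun i => (t i).re) (vt (TT t A) (pp t) H) M.toModel2.ε := by
    intro μ hμ l hl hM
    have := path3 M hκ hH0 hHe.le hZ (by rw [hwt]; exact hc) μ hre
      (fun a b _ _ hab => by rw [hw, hw]; exact hab) hμ hl hM (Sl.refl Mov w) hcham hG hF
    rwa [hmon] at this
  have h1 : ∀ i, OrrM M.toModel2.ε {i} (vt (TT t A) (pp t) H i).val := fun i => by
    have := arc3_single M hre i hcham hZ hG hF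
    rwa [hmon] at this
  obtain ⟨E, hE, hgE⟩ : ∃ E : ℕ, 0 < E ∧ ∀ i, (vt (TT t A) (pp t) H i).val ^ E = 1 := by
    choose k hk0 hk using fun i => isOfFinOrder_iff_pow_eq_one.1 (h1 i).1
    refine ⟨∏ i, k i, Finset.prod_pos fun i _ => hk0 i, fun i => ?_⟩
    obtain ⟨c, hc⟩ := Finset.dvd_prod_of_mem k (Finset.mem_univ i)
    rw [hc, pow_mul, hk, one_pow]
  set U : Set ℂ := {x | ∀ i, x.im < (t i).im} with hU
  have hUo : IsOpen U := by
    rw [hU, ofPred_forall]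
    exact isOpen_iInter_of_finite fun i => isOpen_lt Complex.continuous_im continuous_const
  have hUc : Convex ℝ U := by
    rw [hU, ofPred_forall]
    exact convex_iInter fun i => convex_halfSpace_im_lt _
  have hx₀ : cpt (-H, -H) ∈ U := fun i => by
    have := (hb i).2
    simp only [pp, cpt] at this ⊢
    exact (abs_lt.1 this).1
  have hY : ∀ x ∈ U, (∀ i, x ≠ t i) ∧ (T t A (cpt (-H, -H)) x).det ≠ 0 ∧
      HasDerivAt (T t A (cpt (-H, -H))) (sys t A x * T t A (cpt (-H, -H)) x) x := by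
    intro x hx
    refine ⟨fun i h => lt_irrefl _ (h ▸ hx i), ?_, hasDerivAt_T A fun i hi => ?_⟩
    · exact ((Matrix.isUnit_iff_isUnit_det _).1 (isUnit_Tr _)).ne_zero
    · exact lt_irrefl _ (hUc.segment_subset hx₀ hx hi i)
  have hext := extProp hre A hH.le hb
  have hi : IrrT (vt (TT t A) (pp t) H) :=
    irrT_of_irred2 hpr hE hgE hUo hx₀ (T_self _ _ _) hY hext
  have hfin : Finite (Subgroup.closure (Set.range (vt (TT t A) (pp t) H))) := by
    refine hk n Mov _ _ _ hre (fun i => Units.isOfFinOrder_val.1 (h1 i).1) hi ho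
      fun Z hZ ⟨z₀, hz₀, hns⟩ => ?_
    obtain ⟨W, hW, hWm⟩ := exists_subEnd hUo hY Z
    obtain ⟨Φ, hΦ, c, hc0, hΦc⟩ := primW_onto hE hgE hx₀ (hY _ hx₀).1 (T_self _ _ _) hext
      (Z := Subalgebra.toSubmodule Z) hZ hz₀
    obtain ⟨M', h2, h3, h4⟩ := hq W hW ⟨Φ, (hWm Φ).2 hΦ, fun q hq' => hns
      ⟨c⁻¹ * q.eval (cpt (-H, -H)), by
        rw [mul_smul, eq_inv_smul_iff₀ hc0, ← hΦc, hq']
        ext a b
        by_cases hab : a = b <;> simp [Matrix.one_apply, hab]⟩⟩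
    refine ⟨M', h2, h3, fun i hi => ?_⟩
    obtain ⟨Ψ, hΨ, hne⟩ := h4 i hi
    by_contra hcon
    push Not at hcon
    refine hne (comm_exp hre A hb Ψ i fun y hy => ?_)
    obtain ⟨z, hz, e⟩ := (hWm Ψ).1 hΨ y hy
    exact ⟨z, hcon z hz, e⟩
  obtain ⟨ε, hε, hball⟩ := Metric.isOpen_iff.1 hUo _ hx₀
  refine ⟨cpt (-H, -H), ε, T t A (cpt (-H, -H)), hε, fun x hx => ?_, fun a b => ?_⟩
  · obtain ⟨h1, h2, h3⟩ := hY x (hball hx)
    exact ⟨h1, h2, hasDerivAt_mat.1 h3⟩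
  · obtain ⟨P, hP, h⟩ := alg_of_finite hfin hext a b
    exact ⟨P, hP, fun x hx => h x (hball hx)⟩

theorem final5 (r : ℕ) (hr : 1 ≤ r) : ∃ k : ℕ, ∀ (n : ℕ) (R : Type) [CommRing R]
    [Algebra.FiniteType ℤ R] (ι : R →+* ℂ), Function.Injective ι → ∀ (t : Fin n → R)
    (A : Fin n → Matrix (Fin r) (Fin r) R) (M : Finset (Fin n)), Function.Injective t →
    (AlgebraicIndependent (IntermediateField.adjoin ℚ {x : ℂ | ∃ j, j ∉ M ∧ x = ι (t j)})
      fun i : M => ι (t i)) →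
    Irred (fun i => ι (t i)) (fun i => (A i).map ι) →
    ManyRam k M (fun i => ι (t i)) (fun i => (A i).map ι) →
    (∀ m : Ideal R, m.IsMaximal →
      HasFund (fun i => Ideal.Quotient.mk m (t i)) fun i => (A i).map (Ideal.Quotient.mk m)) →
    ∀ φ : R →+* ℂ, AlgSol (fun i => φ (t i)) fun i => (A i).map φ := by
  classical
  have : NeZero r := ⟨by omega⟩
  obtain ⟨k, hk⟩ := core5 r
  refine ⟨k, fun n R _ _ ι hι t A M ht hind hpr hq hp φ => ?_⟩
  have hinj : Function.Injective fun i => ι (t i) := hι.comp ht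
  have hgen : Gen M fun i => ι (t i) :=
    ⟨(IntermediateField.adjoin ℚ {x : ℂ | ∃ j, j ∉ M ∧ x = ι (t j)}).toSubalgebra.toSubring,
      fun j hj => IntermediateField.subset_adjoin ℚ _ ⟨j, hj, rfl⟩, hind⟩
  obtain ⟨t', c, hc, htt, hgen', hre⟩ := exists_rotation3 hinj hgen
  have hpc := pc_of_max ι hι hp
  exact AlgSol.spec ι φ hι t A (AlgSol.aff hc htt (hk n M t' _ hgen' hre (hpr.aff hc htt)
    (hq.aff hc htt) (hpc.aff hc htt)))

end Pool.Agent.GR
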