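import Pool.Agent.Lib.MP_aa40d3_nt.MR.Dbl

/-! Many points: definitions for the group theoretic part. -/

open Polynomial Matrix

namespace Pool.Agent.GR

/-- Complex square matrices. -/
abbrev Mt (s : ℕ) : Type := Matrix (Fin s) (Fin s) ℂ

variable {n s : ℕ} {G : Type} [Group G]

/-- The product of an initial movable cluster of a state. -/
def IsLoop (Mov : Finset (Fin n)) (L0 : List (Fin n)) (g : Fin n → G) (x : G) : Prop :=
  ∃ l R h, St Mov L0 g (l ++ R) h ∧ (∀ a ∈ l, a ∈ Mov) ∧ x = (l.map h).prod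

/-- A scalar matrix. -/
def Scl (x : Mt s) : Prop := ∃ c : ℂ, x = c • (1 : Mt s)

/-- A subalgebra that is invariant under conjugation. -/
def InvR (σ : G →* Mt s) (B : Subalgebra ℂ (Mt s)) : Prop :=
  ∀ γ, ∀ x ∈ B, σ γ * x * σ γ⁻¹ ∈ B

/-- Invariant subalgebras are scalar or everything. -/
def SimpR (σ : G →* Mt s) : Prop :=
  ∀ B : Subalgebra ℂ (Mt s), InvR σ B → (∀ x ∈ B, Scl x) ∨ B = ⊤

/-- No proper invariant subspace. -/
def IrrR (σ : G →* Mt s) : Prop :=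
  ∀ U : Submodule ℂ (Fin s → ℂ), (∀ γ, ∀ v ∈ U, σ γ *ᵥ v ∈ U) → U = ⊥ ∨ U = ⊤

/-- A matrix coefficient of a representation in an algebra of dimension at most `D`. -/
def RepC (D : ℕ) (φ : G → ℂ) : Prop :=
  ∃ (A : Type) (_ : Ring A) (_ : Algebra ℂ A) (_ : FiniteDimensional ℂ A),
    Module.finrank ℂ A ≤ D ∧ ∃ (ρ : G →* A) (f : A →ₗ[ℂ] ℂ), ∀ x, φ x = f (ρ x)

/-- The members of a subalgebra commute. -/
def CommA (B : Subalgebra ℂ (Mt s)) : Prop := ∀ x ∈ B, ∀ y ∈ B, x * y = y * x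

/-- The linear span of the image of a subgroup. -/
noncomputable def spR (σ : G →* Mt s) (H : Subgroup G) : Submodule ℂ (Mt s) :=
  Submodule.span ℂ (σ '' (H : Set G))

/-- The eigenvalues of conjugation by `σ c`. -/
def AdS (σ : G →* Mt s) (c : G) : Set ℂ := {δ | ∃ b : Mt s, b ≠ 0 ∧ σ c * b * σ c⁻¹ = δ • b}

section
variable {Mov : Finset (Fin n)} {L0 : List (Fin n)} {G' : Type} [Group G']

theorem mvT_map (φ : G →* G') (h : Fin n → G) (i : Fin n) (S : Finset (Fin n)) :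
    mvT (φ ∘ h) i S = φ ∘ mvT h i S := by
  funext c
  simp only [mvT, Function.comp]
  split_ifs <;> simp

theorem St.map (φ : G →* G') {g h : Fin n → G} {L : List (Fin n)} (hs : St Mov L0 g L h) :
    St Mov L0 (φ ∘ g) L (φ ∘ h) := by
  induction hs with
  | init => exact St.init
  | move _ hm ih =>
    rw [← mvT_map]
    exact ih.move hm

theorem St.lift (φ : G →* G') {g : Fin n → G} {h' : Fin n → G'} {L : List (Fin n)}
    (hs : St Mov L0 (φ ∘ g) L h') : ∃ h, St Mov L0 g L h ∧ h' = φ ∘ h := by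
  induction hs with
  | init => exact ⟨g, St.init, rfl⟩
  | move _ hm ih =>
    obtain ⟨h, h1, rfl⟩ := ih
    exact ⟨_, h1.move hm, mvT_map φ h _ _⟩

theorem St.mono {Mov' : Finset (Fin n)} (hM : Mov ⊆ Mov') {g h : Fin n → G} {L : List (Fin n)}
    (hs : St Mov L0 g L h) : St Mov' L0 g L h := by
  induction hs with
  | init => exact St.init
  | move _ hm ih => exact ih.move (hm.imp (fun H => hM H) fun H c hc => hM (H c hc))

theorem IsLoop.map (φ : G →* G') {g : Fin n → G} {x : G} (hx : IsLoop Mov L0 g x) :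
    IsLoop Mov L0 (φ ∘ g) (φ x) := by
  obtain ⟨l, R, h, h1, h2, rfl⟩ := hx
  exact ⟨l, R, φ ∘ h, h1.map φ, h2, by rw [map_list_prod, List.map_map]⟩

theorem IsLoop.lift (φ : G →* G') {g : Fin n → G} {y : G'} (hy : IsLoop Mov L0 (φ ∘ g) y) :
    ∃ x, IsLoop Mov L0 g x ∧ y = φ x := by
  obtain ⟨l, R, h', h1, h2, rfl⟩ := hy
  obtain ⟨h, h3, rfl⟩ := h1.lift φ
  exact ⟨_, ⟨l, R, h, h3, h2, rfl⟩, by rw [map_list_prod, List.map_map]⟩

theorem IsLoop.mono {Mov' : Finset (Fin n)} (hM : Mov ⊆ Mov') {g : Fin n → G} {x : G}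
    (hx : IsLoop Mov L0 g x) : IsLoop Mov' L0 g x := by
  obtain ⟨l, R, h, h1, h2, rfl⟩ := hx
  exact ⟨l, R, h, h1.mono hM, fun a ha => hM (h2 a ha), rfl⟩

end

theorem rep_mul_inv (σ : G →* Mt s) (x : G) : σ x * σ x⁻¹ = 1 := by
  rw [← map_mul, mul_inv_cancel, map_one]

theorem rep_inv_mul (σ : G →* Mt s) (x : G) : σ x⁻¹ * σ x = 1 := by
  rw [← map_mul, inv_mul_cancel, map_one]

theorem Scl.conj (σ : G →* Mt s) (γ : G) {x : Mt s} (h : Scl (σ γ * x * σ γ⁻¹)) : Scl x := by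
  obtain ⟨c, hc⟩ := h
  refine ⟨c, ?_⟩
  have h1 : x = σ γ⁻¹ * (σ γ * x * σ γ⁻¹) * σ γ := by
    rw [← Matrix.mul_assoc, ← Matrix.mul_assoc, rep_inv_mul, Matrix.one_mul, Matrix.mul_assoc,
      rep_inv_mul, Matrix.mul_one]
  rw [h1, hc, Matrix.mul_smul, Matrix.mul_one, Matrix.smul_mul, rep_inv_mul]

/-- The elements that commute with a matrix. -/
def stabR (σ : G →* Mt s) (e : Mt s) : Subgroup G where
  carrier := {γ | σ γ * e = e * σ γ}
  one_mem' := by
    change σ 1 * e = e * σ 1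
    rw [map_one, Matrix.one_mul, Matrix.mul_one]
  mul_mem' := by
    intro x y (hx : σ x * e = e * σ x) (hy : σ y * e = e * σ y)
    change σ (x * y) * e = e * σ (x * y)
    rw [map_mul, Matrix.mul_assoc, hy, ← Matrix.mul_assoc, hx, Matrix.mul_assoc]
  inv_mem' := by
    intro x (hx : σ x * e = e * σ x)
    change σ x⁻¹ * e = e * σ x⁻¹
    calc σ x⁻¹ * e = σ x⁻¹ * (e * σ x) * σ x⁻¹ := by
          rw [Matrix.mul_assoc, Matrix.mul_assoc, rep_mul_inv, Matrix.mul_one]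
      _ = e * σ x⁻¹ := by
          rw [← hx, ← Matrix.mul_assoc, rep_inv_mul, Matrix.one_mul]

theorem mem_stabR {σ : G →* Mt s} {e : Mt s} {γ : G} : γ ∈ stabR σ e ↔ σ γ * e = e * σ γ := Iff.rfl

/-- A simple factor of a subalgebra. -/
structure Blk {r : ℕ} (A : Subalgebra ℂ (Mt r)) (s : ℕ) where
  φ : Mt s →ₙₐ[ℂ] Mt r
  pos : 0 < s
  inj : Function.Injective φ
  mem : ∀ y, φ y ∈ A
  onto : ∀ x ∈ A, ∃ y, φ y = φ 1 * x
  cen : ∀ x ∈ A, φ 1 * x = x * φ 1

/-- `u` has determinant one and induces the same automorphism of the factor as `γ`. -/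
def Blk.Lf {r : ℕ} {A : Subalgebra ℂ (Mt r)} (b : Blk A s) (σ : G →* Mt r) (γ : G) (u : GLr s) :
    Prop :=
  u.val.det = 1 ∧ ∀ y, b.φ (u.val * y * (u⁻¹).val) = σ γ * b.φ y * σ γ⁻¹

/-- The inclusion of a group of matrices. -/
def incl (Γ : Subgroup (GLr s)) : Γ →* Mt s := (Units.coeHom (Mt s)).comp Γ.subtype

theorem incl_apply (Γ : Subgroup (GLr s)) (x : Γ) : incl Γ x = x.val.val := rfl

theorem incl_inj (Γ : Subgroup (GLr s)) : Function.Injective (incl Γ) :=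
  fun _ _ h => Subtype.ext (Units.ext h)

end Pool.Agent.GR
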