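import Pool.Agent.Lib.MP_aa40d3_nt.MG.Defs

/-! Eigenvalues and power sums. -/

open Polynomial Matrix

namespace Pool.Agent.GR

variable {s : ℕ}

theorem eig_enum {n : ℕ} (R : Multiset ℂ) (h : R.card = n) :
    ∃ v : Fin n → ℂ, R = Finset.univ.val.map v := by
  subst h
  induction R using Quotient.inductionOn with
  | _ l => exact ⟨l.get, ((Fin.univ_val_map l.get).trans (by rw [List.ofFn_get]; rfl)).symm⟩

theorem eig_roots {x : Mt s} {v : Fin s → ℂ} (h : x.charpoly = ∏ i, (X - C (v i))) :
    x.charpoly.roots = Finset.univ.val.map v := by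
  rw [h, ← roots_multiset_prod_X_sub_C (Finset.univ.val.map v), Multiset.map_map]
  rfl

theorem eig_det {x : Mt s} {v : Fin s → ℂ} (h : x.charpoly = ∏ i, (X - C (v i))) (q : ℂ[X]) :
    (aeval x q).det = ∏ i, q.eval (v i) := by
  induction IsAlgClosed.splits q using Submonoid.closure_induction with
  | mem q hq =>
    rcases hq with ⟨a, rfl⟩ | ⟨a, rfl⟩
    · simp [Algebra.algebraMap_eq_smul_one]
    · have h1 := x.eval_charpoly (-a)
      have h2 : aeval x (X + C a) = -(Matrix.scalar (Fin s) (-a) - x) := by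
        rw [map_add, aeval_X, aeval_C, map_neg, neg_sub, sub_neg_eq_add]
        rfl
      rw [h2, det_neg, ← h1, h, eval_prod, ← Finset.card_univ, ← Finset.prod_const,
        ← Finset.prod_mul_distrib]
      refine Finset.prod_congr rfl fun i _ => ?_
      simp only [eval_sub, eval_add, eval_X, eval_C]
      ring
  | one => simp
  | mul p q _ _ hp hq => simp only [map_mul, det_mul, hp, hq, eval_mul, Finset.prod_mul_distrib]

theorem eig_all (x : Mt s) : ∃ v : Fin s → ℂ, (∀ m : ℕ, (x ^ m).trace = ∑ i, v i ^ m) ∧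
    x.det = ∏ i, v i ∧ ∀ μ, μ ∈ spectrum ℂ x ↔ ∃ i, v i = μ := by
  have hs := IsAlgClosed.splits x.charpoly
  obtain ⟨v, hv⟩ := eig_enum (n := s) x.charpoly.roots (by
    rw [← hs.natDegree_eq_card_roots, charpoly_natDegree_eq_dim, Fintype.card_fin])
  have h : x.charpoly = ∏ i, (X - C (v i)) := by
    rw [hs.eq_prod_roots_of_monic x.charpoly_monic, hv, Multiset.map_map]
    rfl
  refine ⟨v, fun m => ?_, ?_, fun μ => ?_⟩
  · have h1 : (x ^ m).charpoly = ∏ i, (X - C (v i ^ m)) := by
      refine Polynomial.funext fun z => ?_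
      have h2 := eig_det h (C z - X ^ m)
      rw [map_sub, aeval_C, map_pow, aeval_X] at h2
      rw [eval_charpoly, eval_prod]
      refine h2.trans (Finset.prod_congr rfl fun i _ => ?_)
      simp only [eval_sub, eval_pow, eval_X, eval_C]
    rw [trace_eq_sum_roots_charpoly, eig_roots h1]
    rfl
  · rw [det_eq_prod_roots_charpoly, hv]
    rfl
  · rw [mem_spectrum_iff_isRoot_charpoly, ← mem_roots x.charpoly_monic.ne_zero, hv]
    simp

/-- Enumerate the roots of the characteristic polynomial. For the traces: factor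
`X ^ m - C z = ∏ (X - C w)` over `ℂ`, apply `aeval x` and `det` to get
`det (x ^ m - z) = ∏ w, det (x - w) = ∏ i, (v i ^ m - z)` for all `z`, so the characteristic
polynomial of `x ^ m` is `∏ i, (X - C (v i ^ m))`; then `Matrix.trace_eq_sum_roots_charpoly`
(treat `m = 0` and `s = 0` apart). Any other proof is welcome. -/
theorem exists_eig (x : Mt s) : ∃ v : Fin s → ℂ, (∀ m : ℕ, (x ^ m).trace = ∑ i, v i ^ m) ∧
    x.det = ∏ i, v i ∧ ∀ i, v i ∈ spectrum ℂ x := by
  obtain ⟨v, h1, h2, h3⟩ := eig_all x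
  exact ⟨v, h1, h2, fun i => (h3 _).2 ⟨i, rfl⟩⟩

/-- Interpolate `φ` on the finite set of the values of `a` and `b` by a polynomial
(`Lagrange.interpolate`). -/
theorem psum {ι : Type} [Fintype ι] {a b : ι → ℂ} (h : ∀ m : ℕ, ∑ i, a i ^ m = ∑ i, b i ^ m)
    (φ : ℂ → ℂ) : ∑ i, φ (a i) = ∑ i, φ (b i) := by
  classical
  let T : Finset ℂ := Finset.univ.image a ∪ Finset.univ.image b
  have hq : ∀ z ∈ T, (Lagrange.interpolate T id φ).eval z = φ z := fun z hz =>
    Lagrange.eval_interpolate_at_node (v := id) φ (Set.injOn_id _) hz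
  generalize Lagrange.interpolate T id φ = q at hq
  have ha : ∀ i, φ (a i) = q.eval (a i) := fun i => (hq _ (by simp [T])).symm
  have hb : ∀ i, φ (b i) = q.eval (b i) := fun i => (hq _ (by simp [T])).symm
  simp only [ha, hb, eval_eq_sum_range]
  rw [Finset.sum_comm, Finset.sum_comm (s := Finset.univ)]
  simp only [← Finset.mul_sum, h]

/-- `psum` with the indicator function of `b i`. -/
theorem psum_mem {ι : Type} [Fintype ι] {a b : ι → ℂ} (h : ∀ m : ℕ, ∑ i, a i ^ m = ∑ i, b i ^ m)
    (i : ι) : ∃ j, a j = b i := by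
  classical
  by_contra hn
  push Not at hn
  have h1 := psum h fun z => if z = b i then 1 else 0
  simp only [hn, if_false, Finset.sum_const_zero, Finset.sum_boole] at h1
  have h2 := Finset.card_eq_zero.1 (Nat.cast_eq_zero.1 h1.symm)
  exact Finset.eq_empty_iff_forall_notMem.1 h2 i (by simp)

/-- Every eigenvalue occurs in a list as in `exists_eig`: otherwise `x - μ` has determinant
`∏ (v i - μ) ≠ 0`. One way: `exists_eig` comes from `charpoly = ∏ (X - C (v i))`; so prove the
version with this extra clause first and deduce `exists_eig` from it. -/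
theorem exists_eig' (x : Mt s) : ∃ v : Fin s → ℂ, (∀ m : ℕ, (x ^ m).trace = ∑ i, v i ^ m) ∧
    x.det = ∏ i, v i ∧ ∀ μ, μ ∈ spectrum ℂ x ↔ ∃ i, v i = μ := by
  exact eig_all x

/-- `spectrum.pow_mem_pow` and the spectrum of `1`. -/
theorem eig_pow_one {x : Mt s} {m : ℕ} (h : x ^ m = 1) {μ : ℂ} (hμ : μ ∈ spectrum ℂ x) :
    μ ^ m = 1 := by
  have h1 := spectrum.pow_mem_pow x m hμ
  rw [h] at h1
  rcases subsingleton_or_nontrivial (Mt s) with h2 | h2
  · exact absurd (isUnit_of_subsingleton _) (spectrum.mem_iff.1 hμ)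
  · rwa [spectrum.one_eq] at h1

end Pool.Agent.GR
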