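import Pool.Agent.Lib.MP_aa40d3_nt.MG.Blk

/-! Lifts to a block. -/

open Matrix

namespace Pool.Agent.GR

variable {r s : ℕ} {G : Type} [Group G] {σ : G →* Mt r} {A : Subalgebra ℂ (Mt r)} {b : Blk A s}

theorem lifta_scl {x : Mt s} (h : ∀ y, x * y = y * x) : Scl x := by
  obtain ⟨c, hc⟩ := Matrix.mem_range_scalar_of_commute_single (M := x) fun i j _ => (h _).symm
  exact ⟨c, by rw [← hc, Matrix.scalar_apply, Matrix.smul_one_eq_diagonal]⟩

theorem lifta_comm (u : GLr s) (y : Mt s) :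
    u.val * y * (u⁻¹).val = y ↔ u.val * y = y * u.val := Units.mul_inv_eq_iff_eq_mul u

theorem lifta_rep (σ : G →* Mt r) (γ : G) (x : Mt r) :
    σ γ * x * σ γ⁻¹ = x ↔ σ γ * x = x * σ γ := by
  constructor
  · intro h
    conv_rhs => rw [← h]
    rw [Matrix.mul_assoc, rep_inv_mul, Matrix.mul_one]
  · intro h
    rw [h, Matrix.mul_assoc, rep_mul_inv, Matrix.mul_one]

theorem Blk.Lf.one : b.Lf σ 1 1 := by
  exact ⟨Matrix.det_one, fun y => by simp⟩

theorem Blk.Lf.mul {γ γ' : G} {u u' : GLr s} (h : b.Lf σ γ u) (h' : b.Lf σ γ' u') :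
    b.Lf σ (γ * γ') (u * u') := by
  refine ⟨by rw [Units.val_mul, Matrix.det_mul, h.1, h'.1, one_mul], fun y => ?_⟩
  have e : (u * u').val * y * ((u * u')⁻¹).val =
      u.val * (u'.val * y * (u'⁻¹).val) * (u⁻¹).val := by
    simp only [_root_.mul_inv_rev, Units.val_mul, mul_assoc]
  rw [e, h.2, h'.2]
  simp only [_root_.mul_inv_rev, map_mul, mul_assoc]

theorem Blk.Lf.inv {γ : G} {u : GLr s} (h : b.Lf σ γ u) : b.Lf σ γ⁻¹ u⁻¹ := by
  refine ⟨?_, fun y => ?_⟩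
  · have e := congrArg Matrix.det u.inv_mul
    rwa [Matrix.det_mul, h.1, mul_one, Matrix.det_one] at e
  · have e := h.2 ((u⁻¹).val * y * u.val)
    have e1 : u.val * ((u⁻¹).val * y * u.val) * (u⁻¹).val = y := by
      rw [← mul_assoc, Units.mul_inv_cancel_left, Units.mul_inv_cancel_right]
    rw [e1] at e
    rw [inv_inv, inv_inv, e, ← mul_assoc, ← mul_assoc, rep_inv_mul, one_mul, mul_assoc _ (σ γ⁻¹),
      rep_inv_mul, mul_one]

theorem Blk.Lf.pow {γ : G} {u : GLr s} (h : b.Lf σ γ u) (m : ℕ) : b.Lf σ (γ ^ m) (u ^ m) := by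
  induction m with
  | zero => rw [pow_zero, pow_zero]; exact Blk.Lf.one
  | succ m ih => rw [pow_succ, pow_succ]; exact ih.mul h

/-- Put `y = 1`. -/
theorem Blk.Lf.mem {γ : G} {u : GLr s} (h : b.Lf σ γ u) : γ ∈ stabR σ (b.φ 1) := by
  have e := h.2 1
  rw [mul_one, u.mul_inv] at e
  exact (lifta_rep σ γ _).1 e.symm

/-- `u'⁻¹ * u` is central, so scalar; take determinants. -/
theorem Blk.Lf.unique {γ : G} {u u' : GLr s} (h : b.Lf σ γ u) (h' : b.Lf σ γ u') :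
    ∃ c : ℂ, c ^ s = 1 ∧ u.val = c • u'.val := by
  have h1 := h'.inv.mul h
  rw [inv_mul_cancel] at h1
  obtain ⟨c, hc⟩ : Scl (u'⁻¹ * u).val := lifta_scl fun y => (lifta_comm _ y).1 (b.inj (by
    rw [h1.2, inv_one, map_one, one_mul, mul_one]))
  refine ⟨c, ?_, ?_⟩
  · have e := h1.1
    rwa [hc, Matrix.det_smul, Matrix.det_one, Fintype.card_fin, mul_one] at e
  · rw [Units.val_mul, Units.inv_mul_eq_iff_eq_mul] at hc
    rw [hc, Matrix.mul_smul, Matrix.mul_one]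

theorem Blk.Lf.scl_iff {γ : G} {u : GLr s} (h : b.Lf σ γ u) :
    Scl u.val ↔ ∀ y, σ γ * b.φ y = b.φ y * σ γ := by
  constructor
  · rintro ⟨c, hc⟩ y
    rw [← lifta_rep, ← h.2, (lifta_comm u y).2]
    rw [hc, Matrix.smul_mul, Matrix.mul_smul, Matrix.one_mul, Matrix.mul_one]
  · intro H
    exact lifta_scl fun y => (lifta_comm u y).1 (b.inj ((h.2 y).trans ((lifta_rep σ γ _).2 (H y))))

/-- If `γ ^ m = 1` then `u ^ m` lifts `1`, so `u ^ (m * s) = 1` by `unique`. -/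
theorem Blk.Lf.fin {γ : G} {u : GLr s} (h : b.Lf σ γ u) (hγ : IsOfFinOrder γ) :
    IsOfFinOrder u := by
  obtain ⟨m, hm, e⟩ := isOfFinOrder_iff_pow_eq_one.1 hγ
  have h1 := h.pow m
  rw [e] at h1
  obtain ⟨c, hc, h2⟩ := h1.unique Blk.Lf.one
  refine isOfFinOrder_iff_pow_eq_one.2 ⟨m * s, Nat.mul_pos hm b.pos, Units.ext ?_⟩
  rw [pow_mul, Units.val_pow_eq_pow_val, h2, Units.val_one, _root_.smul_pow, hc, one_pow, one_smul]

theorem liftb_inner (f : Mt s ≃ₐ[ℂ] Mt s) : ∃ b : GLr s, ∀ y, f y = b.val * y * (b⁻¹).val := by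
  let Φ : Mt s ≃ₐ[ℂ] Module.End ℂ (Fin s → ℂ) := Matrix.toLinAlgEquiv'
  obtain ⟨T, hT⟩ := ((Φ.symm.trans f).trans Φ).eq_linearEquivConjAlgEquiv
  have h1 : (T : Module.End ℂ (Fin s → ℂ)) * (T.symm : Module.End ℂ (Fin s → ℂ)) = 1 :=
    LinearMap.ext fun v => T.apply_symm_apply v
  have h2 : (T.symm : Module.End ℂ (Fin s → ℂ)) * (T : Module.End ℂ (Fin s → ℂ)) = 1 :=
    LinearMap.ext fun v => T.symm_apply_apply v
  refine ⟨⟨Φ.symm T, Φ.symm T.symm, by rw [← map_mul, h1, map_one],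
    by rw [← map_mul, h2, map_one]⟩, fun y => Φ.injective ?_⟩
  have h3 := congrArg (fun g => g (Φ y)) hT
  simp only [AlgEquiv.trans_apply, AlgEquiv.symm_apply_apply] at h3
  show Φ (f y) = Φ (Φ.symm T * y * Φ.symm T.symm)
  rw [h3, map_mul, map_mul, Φ.apply_symm_apply, Φ.apply_symm_apply]
  rfl

/-- Skolem and Noether: conjugation by `σ γ` maps the image of `φ` onto itself (`onto`, `mem`), so
it induces an algebra automorphism of `Mt s`; by `AlgEquiv.eq_linearEquivConjAlgEquiv` (through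
`Matrix.toLinAlgEquiv'`) it is conjugation by an invertible matrix; divide by a root of order `s`
of its determinant. -/
theorem Blk.exists_lift (b : Blk A s) (hA : InvR σ A) {γ : G} (hγ : γ ∈ stabR σ (b.φ 1)) :
    ∃ u, b.Lf σ γ u := by
  have hγ' : σ γ * b.φ 1 = b.φ 1 * σ γ := hγ
  have hc : ∀ x y : Mt r, σ γ * x * σ γ⁻¹ * (σ γ * y * σ γ⁻¹) = σ γ * (x * y) * σ γ⁻¹ :=
    fun x y => by
      calc _ = σ γ * x * (σ γ⁻¹ * σ γ) * y * σ γ⁻¹ := by simp only [mul_assoc]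
        _ = _ := by rw [rep_inv_mul, mul_one, mul_assoc (σ γ)]
  have h1 : σ γ * b.φ 1 * σ γ⁻¹ = b.φ 1 := by rw [hγ', mul_assoc, rep_mul_inv, mul_one]
  have hex : ∀ y, ∃ z, b.φ z = σ γ * b.φ y * σ γ⁻¹ := fun y => by
    obtain ⟨z, hz⟩ := b.onto _ (hA γ _ (b.mem y))
    exact ⟨z, by rw [hz, ← h1, hc, ← map_mul, one_mul]⟩
  choose F hF using hex
  let L : Mt s →ₗ[ℂ] Mt s :=
    { toFun := F
      map_add' := fun x y => b.inj (by simp only [hF, map_add, mul_add, add_mul])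
      map_smul' := fun c x => b.inj (by
        simp only [hF, map_smul, mul_smul_comm, smul_mul_assoc, RingHom.id_apply]) }
  let Φ : Mt s →ₐ[ℂ] Mt s := AlgHom.ofLinearMap L (b.inj ((hF 1).trans h1)) fun x y =>
    b.inj (show b.φ (F (x * y)) = b.φ (F x * F y) by rw [map_mul, hF, hF, hF, hc, map_mul])
  have hi : Function.Injective Φ := fun x y hxy => by
    have e : b.φ (F x) = b.φ (F y) := congrArg b.φ hxy
    rw [hF, hF] at e
    have e2 := congrArg (fun z => σ γ⁻¹ * z * σ γ) e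
    simp only [mul_assoc, rep_inv_mul, mul_one] at e2
    simp only [← mul_assoc, rep_inv_mul, one_mul] at e2
    exact b.inj e2
  have hs : Function.Surjective Φ :=
    (LinearMap.injective_iff_surjective (f := Φ.toLinearMap)).1 hi
  obtain ⟨u, hu⟩ := liftb_inner (AlgEquiv.ofBijective Φ ⟨hi, hs⟩)
  obtain ⟨c, hc⟩ := IsAlgClosed.exists_pow_nat_eq u.val.det b.pos
  have hd : u.val.det ≠ 0 := ((Matrix.isUnit_iff_isUnit_det _).1 u.isUnit).ne_zero
  have h0 : c ≠ 0 := fun h0 => hd (by rw [← hc, h0, zero_pow b.pos.ne'])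
  refine ⟨⟨c⁻¹ • u.val, c • (u⁻¹).val, ?_, ?_⟩, ?_, fun y => ?_⟩
  · rw [smul_mul_smul_comm, inv_mul_cancel₀ h0, Units.mul_inv, one_smul]
  · rw [smul_mul_smul_comm, mul_inv_cancel₀ h0, Units.inv_mul, one_smul]
  · show (c⁻¹ • u.val).det = 1
    rw [det_smul, Fintype.card_fin, inv_pow, hc, inv_mul_cancel₀ hd]
  · show b.φ (c⁻¹ • u.val * y * c • (u⁻¹).val) = _
    rw [smul_mul_assoc, smul_mul_smul_comm, inv_mul_cancel₀ h0, one_smul, ← hu, ← hF]
    rfl

/-- The stabiliser has finite index (`orth_index`), so it is finitely generated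
(`Subgroup.fg_of_index_ne_zero`); take the group generated by lifts of the generators. -/
theorem Blk.exists_group [Group.FG G] (b : Blk A s) (hA : InvR σ A) :
    ∃ Γ : Subgroup (GLr s), Group.FG Γ ∧ (∀ u ∈ Γ, ∃ γ, b.Lf σ γ u) ∧
      ∀ γ ∈ stabR σ (b.φ 1), ∃ u ∈ Γ, b.Lf σ γ u := by
  have hfi := (orth_index b.ne_zero b.idem (b.orth hA)).1
  have hfg : Group.FG (stabR σ (b.φ 1)) := Subgroup.fg_of_index_ne_zero _
  obtain ⟨T, hT, hTf⟩ := Group.fg_iff.1 hfg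
  choose f hf using fun γ : stabR σ (b.φ 1) => b.exists_lift hA γ.2
  refine ⟨Subgroup.closure (f '' T), (Group.fg_iff_subgroup_fg _).2
    ((Subgroup.fg_iff _).2 ⟨_, rfl, hTf.image f⟩), fun u hu => ?_, fun γ hγ => ?_⟩
  · induction hu using Subgroup.closure_induction with
    | mem u hu =>
      obtain ⟨γ, -, rfl⟩ := hu
      exact ⟨γ, hf γ⟩
    | one => exact ⟨1, Blk.Lf.one⟩
    | mul u u' _ _ h h' =>
      obtain ⟨γ, h⟩ := h
      obtain ⟨γ', h'⟩ := h'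
      exact ⟨_, h.mul h'⟩
    | inv u _ h =>
      obtain ⟨γ, h⟩ := h
      exact ⟨_, h.inv⟩
  · have key : ∀ x ∈ Subgroup.closure T, ∃ u ∈ Subgroup.closure (f '' T), b.Lf σ x.1 u := by
      intro x hx
      induction hx using Subgroup.closure_induction with
      | mem x hx => exact ⟨f x, Subgroup.subset_closure ⟨x, hx, rfl⟩, hf x⟩
      | one => exact ⟨1, one_mem _, Blk.Lf.one⟩
      | mul x x' _ _ h h' =>
        obtain ⟨u, hu, h⟩ := h
        obtain ⟨u', hu', h'⟩ := h'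
        exact ⟨_, mul_mem hu hu', h.mul h'⟩
      | inv x _ h =>
        obtain ⟨u, hu, h⟩ := h
        exact ⟨_, inv_mem hu, h.inv⟩
    exact key ⟨γ, hγ⟩ (hT ▸ Subgroup.mem_top _)

/-- The `γ` that commute with the image of `φ` form a subgroup of the stabiliser; two elements of
the stabiliser with the same lift lie in the same coset. -/
theorem Blk.comm_of_finite (b : Blk A s) (hA : InvR σ A) {Γ : Subgroup (GLr s)} [Finite Γ]
    (h : ∀ γ ∈ stabR σ (b.φ 1), ∃ u ∈ Γ, b.Lf σ γ u) :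
    ∃ H : Subgroup G, H.FiniteIndex ∧ ∀ γ ∈ H, ∀ y, σ γ * b.φ y = b.φ y * σ γ := by
  have hfi := (orth_index b.ne_zero b.idem (b.orth hA)).1
  choose f hf1 hf2 using fun γ : stabR σ (b.φ 1) => h γ γ.2
  have hle : (⨅ y, stabR σ (b.φ y)) ≤ stabR σ (b.φ 1) := iInf_le _ 1
  have hq : Finite (stabR σ (b.φ 1) ⧸ (⨅ y, stabR σ (b.φ y)).subgroupOf (stabR σ (b.φ 1))) := by
    refine Finite.of_injective (fun q => (⟨f q.out, hf1 _⟩ : Γ)) fun q q' hqq => ?_
    have h1 : f q.out = f q'.out := congrArg Subtype.val hqq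
    have h2 := (hf2 q.out).inv.mul (hf2 q'.out)
    rw [h1, inv_mul_cancel] at h2
    rw [← q.out_eq, ← q'.out_eq]
    refine QuotientGroup.eq.2 (Subgroup.mem_subgroupOf.2 (Subgroup.mem_iInf.2 ?_))
    exact h2.scl_iff.1 ⟨1, by simp⟩
  have h3 := (Subgroup.finiteIndex_of_finite_quotient
    (H := (⨅ y, stabR σ (b.φ y)).subgroupOf (stabR σ (b.φ 1)))).index_ne_zero
  refine ⟨⨅ y, stabR σ (b.φ y), ⟨?_⟩, fun γ hγ => Subgroup.mem_iInf.1 hγ⟩
  rw [← Subgroup.relIndex_mul_index hle]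
  exact mul_ne_zero h3 hfi.index_ne_zero

end Pool.Agent.GR
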