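import Pool.Agent.Lib.MP_aa40d3_nt.MG.Lift

/-! Minimal invariant subalgebras that are not commutative. -/

open Matrix

namespace Pool.Agent.GR

variable {r s : ℕ} {G : Type} [Group G] {σ : G →* Mt r} {A : Subalgebra ℂ (Mt r)}

/-- Take one of minimal dimension. -/
theorem exists_minA (B : Subalgebra ℂ (Mt r)) (hB : InvR σ B) (hc : ¬ CommA B) :
    ∃ A ≤ B, InvR σ A ∧ ¬ CommA A ∧ ∀ A' ≤ A, InvR σ A' → CommA A' ∨ A' = A := by
  obtain ⟨A, ⟨h1, h2, h3⟩, hm⟩ := (InvImage.wf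
    (fun K : Subalgebra ℂ (Mt r) => Module.finrank ℂ (Subalgebra.toSubmodule K))
    wellFounded_lt).has_min {K | K ≤ B ∧ InvR σ K ∧ ¬ CommA K} ⟨B, le_rfl, hB, hc⟩
  refine ⟨A, h1, h2, h3, fun A' hle hI => ?_⟩
  by_cases h : CommA A'
  · exact Or.inl h
  · exact Or.inr (Subalgebra.toSubmodule_injective (Submodule.eq_of_le_of_finrank_le hle
      (not_lt.1 (hm A' ⟨hle.trans h1, hI, h⟩))))

/-- The members of `A` all of whose conjugates have their component in the image of `B`. -/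
def mina_alg (b : Blk A s) (hA : InvR σ A) (B : Subalgebra ℂ (Mt s)) : Subalgebra ℂ (Mt r) where
  carrier := {x | x ∈ A ∧ ∀ γ, ∃ y ∈ B, b.φ y = b.φ 1 * (σ γ * x * σ γ⁻¹)}
  add_mem' := by
    rintro x x' ⟨h1, h2⟩ ⟨h3, h4⟩
    refine ⟨add_mem h1 h3, fun γ => ?_⟩
    obtain ⟨y, hy, e⟩ := h2 γ
    obtain ⟨y', hy', e'⟩ := h4 γ
    exact ⟨y + y', add_mem hy hy', by simp only [map_add, e, e', mul_add, add_mul]⟩
  mul_mem' := by
    rintro x x' ⟨h1, h2⟩ ⟨h3, h4⟩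
    refine ⟨mul_mem h1 h3, fun γ => ?_⟩
    obtain ⟨y, hy, e⟩ := h2 γ
    obtain ⟨y', hy', e'⟩ := h4 γ
    refine ⟨y * y', mul_mem hy hy', ?_⟩
    have h5 : σ γ * (x * x') * σ γ⁻¹ = (σ γ * x * σ γ⁻¹) * (σ γ * x' * σ γ⁻¹) := by
      simp only [mul_assoc]
      rw [← mul_assoc (σ γ⁻¹) (σ γ), rep_inv_mul, one_mul]
    rw [map_mul, e, e', h5, mul_assoc (b.φ 1), ← mul_assoc (σ γ * x * σ γ⁻¹) (b.φ 1),
      ← b.cen _ (hA γ x h1), mul_assoc (b.φ 1), ← mul_assoc (b.φ 1), b.idem]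
  algebraMap_mem' := by
    intro c
    refine ⟨A.algebraMap_mem c, fun γ => ⟨c • 1, B.smul_mem (one_mem B) c, ?_⟩⟩
    rw [map_smul, Algebra.algebraMap_eq_smul_one, mul_smul_comm, mul_one, smul_mul_assoc,
      rep_mul_inv, mul_smul_comm, mul_one]

theorem mina_inv (b : Blk A s) (hA : InvR σ A) (B : Subalgebra ℂ (Mt s)) :
    InvR σ (mina_alg b hA B) := by
  rintro γ x ⟨h1, h2⟩
  refine ⟨hA γ x h1, fun γ' => ?_⟩
  obtain ⟨y, hy, e⟩ := h2 (γ' * γ)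
  exact ⟨y, hy, by rw [e, _root_.mul_inv_rev, map_mul, map_mul]; simp only [mul_assoc]⟩

theorem mina_mem (b : Blk A s) (hA : InvR σ A) {Γ : Subgroup (GLr s)}
    (h : ∀ γ ∈ stabR σ (b.φ 1), ∃ u ∈ Γ, b.Lf σ γ u) {B : Subalgebra ℂ (Mt s)}
    (hB : InvR (incl Γ) B) {y : Mt s} (hy : y ∈ B) : b.φ y ∈ mina_alg b hA B := by
  refine ⟨b.mem y, fun γ => ?_⟩
  rcases b.orth hA γ with h1 | h1
  · have h2 : γ ∈ stabR σ (b.φ 1) := by
      rw [mem_stabR]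
      conv_rhs => rw [← h1, mul_assoc, rep_inv_mul, mul_one]
    obtain ⟨u, hu, h3⟩ := h γ h2
    exact ⟨_, hB ⟨u, hu⟩ y hy, by rw [← h3.2, ← map_mul, one_mul]; rfl⟩
  · refine ⟨0, zero_mem B, ?_⟩
    have h2 : σ γ * b.φ y * σ γ⁻¹ = (σ γ * b.φ 1 * σ γ⁻¹) * (σ γ * b.φ y * σ γ⁻¹) := by
      simp only [mul_assoc]
      rw [← mul_assoc (σ γ⁻¹) (σ γ), rep_inv_mul, one_mul, ← mul_assoc (b.φ 1), ← map_mul, one_mul]
    rw [map_zero, h2, ← mul_assoc, h1, zero_mul]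

/-- Let `A₁` be invariant under `Γ` and let `S` be the set of the `σ γ * φ y * σ γ⁻¹` with `y ∈ A₁`.
The product of two members of `S` is zero or in `S` (`Blk.orth` for `γ⁻¹ * γ'`; if it lies in the
stabiliser use a lift in `Γ`), and `φ 1 * x` is zero or in `φ '' A₁` for `x ∈ S`. So
`A' = span (insert 1 S)` is an invariant subalgebra of `A` with `φ 1 * A' ⊆ φ '' A₁`. If `A' = A`
then `A₁ = ⊤`. Otherwise `A'` is commutative, so by `hcc` the members of `φ '' A₁` commute with the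
image of `φ`, and `A₁` is central. -/
theorem Blk.simp (b : Blk A s) (hA : InvR σ A) (hm : ∀ A' ≤ A, InvR σ A' → CommA A' ∨ A' = A)
    (hcc : ∀ A', InvR σ A' → CommA A' → ∀ x ∈ A, ∀ y ∈ A', x * y = y * x) {Γ : Subgroup (GLr s)}
    (h : ∀ γ ∈ stabR σ (b.φ 1), ∃ u ∈ Γ, b.Lf σ γ u) : SimpR (incl Γ) := by
  intro B hB
  rcases hm (mina_alg b hA B) (fun _ hx => hx.1) (mina_inv b hA B) with h1 | h1
  · refine Or.inl fun y hy => ?_
    have h2 : ∀ z, z * y = y * z := fun z => b.inj (by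
      rw [map_mul, map_mul]
      exact hcc _ (mina_inv b hA B) h1 _ (b.mem z) _ (mina_mem b hA h hB hy))
    obtain ⟨c, hc⟩ := Matrix.mem_range_scalar_iff_commute_single'.2 fun i j =>
      (h2 (single i j 1) : Commute _ y)
    exact ⟨c, by rw [← hc, scalar_apply, smul_one_eq_diagonal]⟩
  · refine Or.inr (eq_top_iff.2 fun y _ => ?_)
    obtain ⟨y', hy', e⟩ := (h1.ge (b.mem y)).2 1
    rw [inv_one, map_one σ, one_mul, mul_one, ← map_mul, one_mul] at e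
    exact b.inj e ▸ hy'

/-- Otherwise let `A'` be the members of `A` that commute with `σ '' N`, an invariant subalgebra
different from `A`, so commutative. For every `y` the orbit sum `z y` of `φ y` (`orbit_sum`) lies in
`A'` and `φ 1 * z y = φ y`; so the image of `φ` is commutative, against `Blk.eq_one`. -/
theorem Blk.moves (b : Blk A s) (hs : 2 ≤ s) (hA : InvR σ A)
    (hm : ∀ A' ≤ A, InvR σ A' → CommA A' ∨ A' = A) (N : Subgroup G) [N.Normal]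
    (hN : ∃ γ ∈ N, ∃ x ∈ A, σ γ * x ≠ x * σ γ) :
    ∃ γ ∈ N, γ ∈ stabR σ (b.φ 1) ∧ ∃ y, σ γ * b.φ y ≠ b.φ y * σ γ := by
  by_contra hno
  push Not at hno
  have hfi := (orth_index b.ne_zero b.idem (b.orth hA)).1
  let A' : Subalgebra ℂ (Mt r) := A ⊓ Subalgebra.centralizer ℂ (σ '' (N : Set G))
  have hmem : ∀ x, x ∈ A' ↔ x ∈ A ∧ ∀ γ ∈ N, σ γ * x = x * σ γ := fun x => by
    refine Algebra.mem_inf.trans (and_congr_right fun _ => ?_)
    rw [Subalgebra.mem_centralizer_iff]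
    exact ⟨fun h γ hγ => h _ ⟨γ, hγ, rfl⟩, by rintro h _ ⟨γ, hγ, rfl⟩; exact h γ hγ⟩
  have hI : InvR σ A' := fun δ x hx => by
    obtain ⟨h1, h2⟩ := (hmem x).1 hx
    refine (hmem _).2 ⟨hA δ x h1, fun γ hγ => ?_⟩
    have h3 := h2 _ (Subgroup.Normal.conj_mem' inferInstance γ hγ δ)
    have e1 : σ γ * σ δ = σ δ * σ (δ⁻¹ * γ * δ) := by
      rw [← map_mul, ← map_mul]
      congr 1
      group
    have e2 : σ (δ⁻¹ * γ * δ) * σ δ⁻¹ = σ δ⁻¹ * σ γ := by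
      rw [← map_mul, ← map_mul]
      congr 1
      group
    calc σ γ * (σ δ * x * σ δ⁻¹) = σ γ * σ δ * x * σ δ⁻¹ := by simp only [Matrix.mul_assoc]
      _ = σ δ * (σ (δ⁻¹ * γ * δ) * x) * σ δ⁻¹ := by rw [e1, Matrix.mul_assoc (σ δ)]
      _ = σ δ * x * (σ (δ⁻¹ * γ * δ) * σ δ⁻¹) := by rw [h3]; simp only [Matrix.mul_assoc]
      _ = σ δ * x * σ δ⁻¹ * σ γ := by rw [e2]; simp only [Matrix.mul_assoc]
  rcases hm A' inf_le_left hI with hc | hc
  · have hz : ∀ y, ∃ z ∈ A', b.φ 1 * z = b.φ y := fun y => by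
      obtain ⟨z, h1, h2, h3⟩ := orbit_sum (σ := σ) N (b.orth hA) (y := b.φ y)
        (by rw [← map_mul, Matrix.one_mul]) fun γ hγ hγ' => hno γ hγ hγ' y
      refine ⟨z, (hmem z).2 ⟨?_, h2⟩, h3⟩
      refine (Submodule.span_le (p := Subalgebra.toSubmodule A)).2 ?_ h1
      rintro _ ⟨γ, -, rfl⟩
      exact hA γ _ (b.mem y)
    have h1 := b.eq_one fun y y' => by
      obtain ⟨z, hz1, hz2⟩ := hz y
      obtain ⟨z', hz1', hz2'⟩ := hz y'
      have k : ∀ u ∈ A', ∀ v ∈ A', b.φ 1 * u * (b.φ 1 * v) = b.φ 1 * b.φ 1 * (u * v) :=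
        fun u hu v _ => by
          rw [Matrix.mul_assoc, ← Matrix.mul_assoc u, ← b.cen u ((hmem u).1 hu).1]
          simp only [Matrix.mul_assoc]
      rw [← hz2, ← hz2', k z hz1 z' hz1', k z' hz1' z hz1, hc z hz1 z' hz1']
    omega
  · obtain ⟨γ, hγ, x, hx, hne⟩ := hN
    exact hne (((hmem x).1 (hc ▸ hx)).2 γ hγ)

end Pool.Agent.GR
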