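import Pool.Agent.Lib.MP_aa40d3_nt.GR.Stmt

/-! Subsystems of the endomorphisms and their ramification. -/

open Polynomial Matrix

namespace Pool.Agent.GR

variable {n r : ℕ}

/-- A subsystem of the endomorphisms: stable under `Φ ↦ Δ Φ' - [Δ A, Φ]` and saturated. -/
def SubEnd (t : Fin n → ℂ) (A : Fin n → Matrix (Fin r) (Fin r) ℂ)
    (W : Subalgebra ℂ[X] (Matrix (Fin r) (Fin r) ℂ[X])) : Prop :=
  (∀ Φ ∈ W, dl t • Φ.map derivative - (pm t A * Φ - Φ * pm t A) ∈ W) ∧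
    ∀ (f : ℂ[X]) (Φ : Matrix (Fin r) (Fin r) ℂ[X]), f ≠ 0 → f • Φ ∈ W → Φ ∈ W

/-- Ramified at `t i`: the value there of some member does not commute with `exp (2 π i A i)`. -/
def RamAt (t : Fin n → ℂ) (A : Fin n → Matrix (Fin r) (Fin r) ℂ)
    (W : Subalgebra ℂ[X] (Matrix (Fin r) (Fin r) ℂ[X])) (i : Fin n) : Prop :=
  ∃ Φ ∈ W, ¬ Commute (NormedSpace.exp ((2 * Real.pi * Complex.I : ℂ) • A i)) (Φ.map (eval (t i)))

/-- Every subsystem that is not scalar is ramified at `k` or more of the points indexed by `M`. -/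
def ManyRam (k : ℕ) (M : Finset (Fin n)) (t : Fin n → ℂ)
    (A : Fin n → Matrix (Fin r) (Fin r) ℂ) : Prop :=
  ∀ W, SubEnd t A W → (∃ Φ ∈ W, ∀ c : ℂ[X], Φ ≠ c • (1 : Matrix (Fin r) (Fin r) ℂ[X])) →
    ∃ M' ⊆ M, k ≤ M'.card ∧ ∀ i ∈ M', RamAt t A W i

end Pool.Agent.GR
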