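import Pool.Agent.Lib.MP_aa40d3_nt.GR2.GAut

/-! Automorphisms of the complex numbers with finite orbits. -/

namespace Pool.Agent.GR

theorem tau_aux {K L M ι : Type} [Field K] [Field L] [Field M] [Algebra K L] [Algebra K M]
    [IsAlgClosed L] [IsAlgClosed M] {v : ι → L} {w : ι → M} (hv : IsTranscendenceBasis K v)
    (hw : IsTranscendenceBasis K w) :
    ∃ τ : L ≃+* M, (∀ x : K, τ (algebraMap K L x) = algebraMap K M x) ∧ ∀ i, τ (v i) = w i := by
  have := IsAlgClosed.isAlgClosure_of_transcendence_basis v hv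
  have := IsAlgClosed.isAlgClosure_of_transcendence_basis w hw
  let e := hv.1.aevalEquiv.symm.trans hw.1.aevalEquiv
  refine ⟨IsAlgClosure.equivOfEquiv L M e.toRingEquiv, fun x => ?_, fun i => ?_⟩
  · rw [IsScalarTower.algebraMap_apply K (Algebra.adjoin K (Set.range v)) L,
      IsAlgClosure.equivOfEquiv_algebraMap,
      IsScalarTower.algebraMap_apply K (Algebra.adjoin K (Set.range w)) M]
    exact congrArg _ (e.commutes x)
  · rw [← MvPolynomial.aeval_X (R := K) v i, ← hv.1.algebraMap_aevalEquiv,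
      IsAlgClosure.equivOfEquiv_algebraMap, ← MvPolynomial.aeval_X (R := K) w i,
      ← hw.1.algebraMap_aevalEquiv]
    exact congrArg _ (congrArg hw.1.aevalEquiv (hv.1.aevalEquiv.symm_apply_apply _))

theorem tau_orbit {R : Type} [CommRing R] [IsDomain R] [Algebra R ℂ] [FaithfulSMul R ℂ]
    (τ : ℂ →+* ℂ) (h : ∀ r : R, τ (algebraMap R ℂ r) = algebraMap R ℂ r) {z : ℂ}
    (hz : IsAlgebraic R z) : (Set.range fun k : ℕ => τ^[k] z).Finite := by
  obtain ⟨p, hp, h0⟩ := hz
  refine (p.rootSet_finite ℂ).subset ?_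
  rintro _ ⟨k, rfl⟩
  refine (Polynomial.mem_rootSet_of_ne hp).2 ?_
  induction k with
  | zero => exact h0
  | succ k ih =>
    have h1 := Polynomial.aeval_algHom_apply ({ τ with commutes' := h } : ℂ →ₐ[R] ℂ) (τ^[k] z) p
    rw [ih, map_zero] at h1
    exact (congrArg (Polynomial.aeval · p) (Function.iterate_succ_apply' τ k z)).trans h1

open scoped IntermediateField in
/-- As `exists_aut_ext`, but `τ` also fixes the transcendence basis `B` of `ℂ` over `ℚ` (copy
`gaut_aux` and add `τ (v i) = w i`: the equivalence `e` there maps `v i` to `w i`). Take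
`K = ℚ(ζ)` with `ζ` a primitive root of order `N` and `φ ζ = ζ ^ t` (both are roots of the
cyclotomic polynomial, which is the minimal polynomial; `PowerBasis.lift` or
`IntermediateField.algHomAdjoinIntegralEquiv`). Every `z` with `z ^ N = 1` is a power of `ζ`.
`τ` fixes `Algebra.adjoin ℚ (range B)` pointwise, every `z` is a root of a nonzero polynomial over
this ring, and the orbit of `z` lies among its roots. -/
theorem exists_tau {N t : ℕ} (hN : 0 < N) (hc : Nat.Coprime t N) :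
    ∃ τ : ℂ →+* ℂ, (∀ z : ℂ, z ^ N = 1 → τ z = z ^ t) ∧
      ∀ z : ℂ, (Set.range fun k : ℕ => τ^[k] z).Finite := by
  have : NeZero N := ⟨hN.ne'⟩
  obtain ⟨ζ, hζ⟩ : ∃ ζ : ℂ, IsPrimitiveRoot ζ N := ⟨_, Complex.isPrimitiveRoot_exp N hN.ne'⟩
  have hi : IsIntegral ℚ ζ := (hζ.isIntegral hN).tower_top
  have hr : ζ ^ t ∈ (minpoly ℚ ζ).aroots ℂ := by
    refine Polynomial.mem_aroots.2 ⟨minpoly.ne_zero hi, ?_⟩
    rw [← Polynomial.cyclotomic_eq_minpoly_rat hζ hN,
      Polynomial.cyclotomic_eq_minpoly_rat (hζ.pow_of_coprime t hc) hN, minpoly.aeval]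
  let φ := (IntermediateField.algHomAdjoinIntegralEquiv ℚ hi).symm ⟨_, hr⟩
  have hφ : φ (IntermediateField.AdjoinSimple.gen ℚ ζ) = ζ ^ t :=
    IntermediateField.algHomAdjoinIntegralEquiv_symm_apply_gen ℚ hi _
  have := IntermediateField.adjoin.finiteDimensional hi
  obtain ⟨B, hB⟩ := exists_isTranscendenceBasis ℚ ℂ
  obtain ⟨τ, h1, h2⟩ := @tau_aux ℚ⟮ζ⟯ ℂ ℂ B _ _ _ _ φ.toRingHom.toAlgebra _ _ _ _ (gaut_basis hB)
    (@gaut_basis ℚ⟮ζ⟯ B _ _ _ φ.toRingHom.toAlgebra _ hB)
  have h3 : τ ζ = ζ ^ t := (h1 (IntermediateField.AdjoinSimple.gen ℚ ζ)).trans hφ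
  refine ⟨τ, fun z hz => ?_, fun z => tau_orbit _ (fun r => ?_) (hB.isAlgebraic.isAlgebraic z)⟩
  · obtain ⟨i, -, rfl⟩ := hζ.eq_pow_of_pow_eq_one hz
    rw [map_pow, RingHom.coe_coe, h3, pow_right_comm]
  · obtain ⟨r, hr⟩ := r
    change τ r = r
    induction hr using Algebra.adjoin_induction with
    | mem x hx =>
      obtain ⟨i, rfl⟩ := hx
      exact h2 i
    | algebraMap q => exact map_ratCast τ q
    | add x y _ _ hx hy => rw [map_add, hx, hy]
    | mul x y _ _ hx hy => rw [map_mul, hx, hy]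

end Pool.Agent.GR
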