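import Pool.Agent.Lib.MP_aa40d3_nt.MG.Blk
import Pool.Agent.Lib.MP_aa40d3_nt.MG.Eig
import Pool.Agent.Lib.MP_aa40d3_nt.MG.Cong

/-! Tools for the commutative case. -/

open Matrix

namespace Pool.Agent.GR

variable {r : ℕ} {G : Type} [Group G] {σ : G →* Mt r}

/-- `ℂ` is a divisible group, so an injective `ℤ`-module (`Module.Baer.of_divisible`); extend the
map `z ^ m ↦ m` from the cyclic group generated by `z`. -/
theorem exists_addchar {z : ℂˣ} (hz : ¬ IsOfFinOrder z) :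
    ∃ v : ℂˣ →* Multiplicative ℂ, v z ≠ 1 := by
  obtain ⟨h, hh⟩ := (Module.Baer.of_divisible ℂ).extension_property_addMonoidHom
    (zmultiplesHom (Additive ℂˣ) (Additive.ofMul z))
    (fun a b hab => injective_zpow_iff_not_isOfFinOrder.2 hz hab) (Int.castAddHom ℂ)
  refine ⟨AddMonoidHom.toMultiplicativeRight h, fun h1 => ?_⟩
  have h2 : h (Additive.ofMul z) = 0 := h1
  have h3 := DFunLike.congr_fun hh 1
  simp [h2] at h3

/-- The determinant of the restriction to the range of `toLin' e`, of dimension `m`. -/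
theorem exists_detchar (σ : G →* Mt r) {e : Mt r} (he : e ≠ 0) :
    ∃ (δ : stabR σ e →* ℂˣ) (m : ℕ), 0 < m ∧
      ∀ (γ : stabR σ e) (c : ℂˣ), σ γ * e = (c : ℂ) • e → δ γ = c ^ m := by
  have hU : ∀ γ : stabR σ e, ∀ v ∈ LinearMap.range (toLin' e),
      toLin' (σ γ) v ∈ LinearMap.range (toLin' e) := by
    rintro γ _ ⟨w, rfl⟩
    refine ⟨σ γ *ᵥ w, ?_⟩
    rw [toLin'_apply, toLin'_apply, toLin'_apply, mulVec_mulVec, mulVec_mulVec, mem_stabR.1 γ.2]
  let ρ : stabR σ e →* Module.End ℂ (LinearMap.range (toLin' e)) :=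
    { toFun := fun γ => (toLin' (σ γ)).restrict (hU γ)
      map_one' := by
        ext v i
        simp
      map_mul' := fun x y => by
        ext v i
        simp }
  refine ⟨(LinearMap.det.comp ρ).toHomUnits, Module.finrank ℂ (LinearMap.range (toLin' e)), ?_,
    fun γ c h => Units.ext ?_⟩
  · rw [Nat.pos_iff_ne_zero, Ne, Submodule.finrank_eq_zero, LinearMap.range_eq_bot,
      LinearEquiv.map_eq_zero_iff]
    exact he
  · have h1 : ρ γ = (c : ℂ) • LinearMap.id := by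
      refine LinearMap.ext ?_
      rintro ⟨_, w, rfl⟩
      refine Subtype.ext ?_
      change σ γ *ᵥ e *ᵥ w = (c : ℂ) • e *ᵥ w
      rw [mulVec_mulVec, h, smul_mulVec]
    rw [MonoidHom.coe_toHomUnits, MonoidHom.comp_apply, h1, LinearMap.det_smul, LinearMap.det_id,
      mul_one, Units.val_pow_eq_pow_val]

/-- `c` is an eigenvalue: `(σ γ - c) * e = 0` with `e ≠ 0`. It is a unit as `σ γ` is invertible. -/
theorem tor_eig {e : Mt r} (he : e ≠ 0) {γ : G} {c : ℂ} (h : σ γ * e = c • e) :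
    c ≠ 0 ∧ c ∈ spectrum ℂ (σ γ) := by
  constructor
  · rintro rfl
    apply he
    rw [← Matrix.one_mul e, ← rep_inv_mul σ γ, Matrix.mul_assoc, h, zero_smul, Matrix.mul_zero]
  · rw [spectrum.mem_iff]
    intro hu
    apply he
    have h1 : (algebraMap ℂ (Mt r) c - σ γ) * e = 0 := by
      rw [Matrix.sub_mul, h, Algebra.algebraMap_eq_smul_one, Matrix.smul_mul, Matrix.one_mul,
        sub_self]
    exact hu.mul_right_eq_zero.1 h1

/-- With `E` from `exists_expo`, `σ γ = ∑ c i • e i` with `c i ^ E = 1`, so `σ '' H` is finite. -/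
theorem tor_finite [Group.FG G] (hi : Function.Injective σ) (H : Subgroup G) [H.FiniteIndex]
    {d : ℕ} (e : Fin d → Mt r) (h0 : ∀ i, e i ≠ 0) (h1 : ∑ i, e i = 1)
    (h : ∀ γ ∈ H, ∀ i, ∃ c : ℂ, IsOfFinOrder c ∧ σ γ * e i = c • e i) : Finite G := by
  obtain ⟨E, hE, hx⟩ := exists_expo σ
  choose c hc using h
  have hfin : {z : ℂ | z ^ E = 1}.Finite :=
    (Polynomial.nthRoots E (1 : ℂ)).toFinset.finite_toSet.subset fun z hz => by
      simpa [Polynomial.mem_nthRoots hE] using hz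
  have := hfin.to_subtype
  let f : H → Fin d → {z : ℂ | z ^ E = 1} := fun γ i =>
    ⟨c γ γ.2 i, hx γ _ (tor_eig (h0 i) (hc γ γ.2 i).2).2 (hc γ γ.2 i).1⟩
  have hs : ∀ γ : H, σ γ = ∑ i, (f γ i : ℂ) • e i := fun γ => by
    rw [← Matrix.mul_one (σ γ), ← h1, Matrix.mul_sum]
    exact Finset.sum_congr rfl fun i _ => (hc γ γ.2 i).2
  have hf : Function.Injective f := fun a b hab =>
    Subtype.ext (hi (by rw [hs a, hs b, hab]))
  have : Finite H := Finite.of_injective f hf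
  exact Finite.of_equiv _ (Subgroup.groupEquivQuotientProdSubgroup (s := H)).symm

/-- Take `w ≠ 0` with `x *ᵥ w = μ • w`. Some `f ∈ S` has `f *ᵥ w ≠ 0` (as `1` is in the span), and
`c • (f *ᵥ w) = (x * f) *ᵥ w = (f * x) *ᵥ w = μ • (f *ᵥ w)`. -/
theorem tor_spec {S : Set (Mt r)} (h1 : (1 : Mt r) ∈ Submodule.span ℂ S) {x : Mt r}
    (hc : ∀ f ∈ S, x * f = f * x) {μ : ℂ} (hμ : μ ∈ spectrum ℂ x) :
    ∃ f ∈ S, ∀ c : ℂ, x * f = c • f → c = μ := by
  obtain ⟨w, hw⟩ : ∃ w : Fin r → ℂ, w ≠ 0 ∧ x *ᵥ w = μ • w := by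
    have h2 : Module.End.HasEigenvalue (Matrix.toLin' x) μ := by
      rw [Module.End.hasEigenvalue_iff_mem_spectrum, Matrix.spectrum_toLin']
      exact hμ
    obtain ⟨w, hw⟩ := h2.exists_hasEigenvector
    exact ⟨w, hw.2, by simpa using hw.apply_eq_smul⟩
  obtain ⟨f, hf, hfw⟩ : ∃ f ∈ S, f *ᵥ w ≠ 0 := by
    by_contra hn
    push Not at hn
    have h3 : ∀ y ∈ Submodule.span ℂ S, y *ᵥ w = 0 := fun y hy => by
      induction hy using Submodule.span_induction with
      | mem y hy => exact hn y hy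
      | zero => exact Matrix.zero_mulVec w
      | add a b _ _ ha hb => rw [Matrix.add_mulVec, ha, hb, add_zero]
      | smul t a _ ha => rw [Matrix.smul_mulVec, ha, smul_zero]
    exact hw.1 (by simpa using h3 1 h1)
  refine ⟨f, hf, fun c h => smul_left_injective ℂ hfw ?_⟩
  change c • (f *ᵥ w) = μ • (f *ᵥ w)
  rw [← Matrix.smul_mulVec, ← h, hc f hf, ← Matrix.mulVec_mulVec, hw.2, Matrix.mulVec_smul]

end Pool.Agent.GR
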